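import Mathlib

/-!
Continuants attached to the tridiagonal matrix of the special double confluent Heun equation,
and the algebraic identities used for the Josephson phase-lock area problem.
-/

namespace Pool.Agent.Helper96.Josephson

open Finset

variable {K : Type*} [Field K]

/-- Diagonal entries `A_j = lam - j (r - j)`. -/
def cA (r : ℕ) (lam : K) (j : ℕ) : K := lam - (j : K) * ((r : K) - (j : K))

/-- Products of off-diagonal entries `e'_j = m j (r - j)` (between `j-1` and `j`). -/
def cE (r : ℕ) (m : K) (j : ℕ) : K := m * (j : K) * ((r : K) - (j : K))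

/-- Leading principal minors, shifted: `cp (j+1)` is the `j × j` leading minor. -/
def cp (r : ℕ) (lam m : K) : ℕ → K
  | 0 => 0
  | 1 => 1
  | (j + 2) => cA r lam j * cp r lam m (j + 1) - cE r m j * cp r lam m j

/-- Derivative of `cp` with respect to `lam`. -/
def cdl (r : ℕ) (lam m : K) : ℕ → K
  | 0 => 0
  | 1 => 0
  | (j + 2) => cp r lam m (j + 1) + cA r lam j * cdl r lam m (j + 1) - cE r m j * cdl r lam m j

/-- `m` times the derivative of `cp` with respect to `m`. -/
def cdm (r : ℕ) (lam m : K) : ℕ → K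
  | 0 => 0
  | 1 => 0
  | (j + 2) => cA r lam j * cdm r lam m (j + 1) - cE r m j * cdm r lam m j
      - cE r m j * cp r lam m j

/-- Trailing minors in reversed order. -/
def cq (r : ℕ) (lam m : K) : ℕ → K
  | 0 => 0
  | 1 => 1
  | (i + 2) => cA r lam (r - 1 - i) * cq r lam m (i + 1) - cE r m (r - i) * cq r lam m i

/-- Trailing minors `R_j`, `R_r = 1`, `R_{r+1} = 0`. -/
def cR (r : ℕ) (lam m : K) (j : ℕ) : K := cq r lam m (r + 1 - j)

section cont

variable (r : ℕ) (lam m : K)

lemma cR_top : cR r lam m (r + 1) = 0 := by simp [cR, cq]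

lemma cR_r : cR r lam m r = 1 := by simp [cR, cq]

lemma cR_rec {j : ℕ} (hj : j < r) :
    cR r lam m j = cA r lam j * cR r lam m (j + 1) - cE r m (j + 1) * cR r lam m (j + 2) := by
  obtain ⟨i, rfl⟩ : ∃ i, r = j + 1 + i := ⟨r - (j + 1), by omega⟩
  unfold cR
  have h1 : j + 1 + i + 1 - j = i + 2 := by omega
  have h2 : j + 1 + i + 1 - (j + 1) = i + 1 := by omega
  have h3 : j + 1 + i + 1 - (j + 2) = i := by omega
  have h4 : j + 1 + i - 1 - i = j := by omega
  have h5 : j + 1 + i - i = j + 1 := by omega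
  rw [h1, h2, h3, cq, h4, h5]

lemma cE_zero : cE r m 0 = 0 := by simp [cE]

lemma cE_r : cE r m r = 0 := by simp [cE]

lemma cont_const {j : ℕ} (hj : j ≤ r) :
    cp r lam m (j + 1) * cR r lam m j - cE r m j * cp r lam m j * cR r lam m (j + 1)
      = cR r lam m 0 := by
  induction j with
  | zero => simp [cE_zero, cp]
  | succ j ih =>
    have hj' : j < r := hj
    have h := ih hj'.le
    rw [cR_rec r lam m hj'] at h
    rw [← h, cp]
    ring

/-- The determinant. -/
def cD (r : ℕ) (lam m : K) : K := cp r lam m (r + 1)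

lemma cD_eq : cD r lam m = cR r lam m 0 := by
  have h := cont_const r lam m (le_refl r)
  rw [cE_r, cR_r, cR_top] at h
  simpa [cD] using h

lemma cont_eq {j : ℕ} (hj : j ≤ r) :
    cD r lam m = cp r lam m (j + 1) * cR r lam m j
      - cE r m j * cp r lam m j * cR r lam m (j + 1) := by
  rw [cont_const r lam m hj, cD_eq]

lemma cdl_sum {n : ℕ} (hn : n ≤ r) :
    cdl r lam m (n + 1) * cR r lam m n - cE r m n * cdl r lam m n * cR r lam m (n + 1)
      = ∑ j ∈ range n, cp r lam m (j + 1) * cR r lam m (j + 1) := by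
  induction n with
  | zero => simp [cE_zero, cdl]
  | succ n ih =>
    have hn' : n < r := hn
    have h := ih hn'.le
    rw [sum_range_succ, ← h, cR_rec r lam m hn', cdl]
    ring

lemma cdl_top : cdl r lam m (r + 1) = ∑ j ∈ range r, cp r lam m (j + 1) * cR r lam m (j + 1) := by
  have h := cdl_sum r lam m (le_refl r)
  rw [cE_r, cR_r, cR_top] at h
  simpa using h

/-- `eps_j = e'_j p_j R_{j+1}`. -/
def ceps (j : ℕ) : K := cE r m j * cp r lam m j * cR r lam m (j + 1)

lemma ceps_zero : ceps r lam m 0 = 0 := by simp [ceps, cE_zero]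

lemma ceps_r : ceps r lam m r = 0 := by simp [ceps, cE_r]

lemma cdm_sum {n : ℕ} (hn : n ≤ r) :
    cdm r lam m (n + 1) * cR r lam m n - cE r m n * cdm r lam m n * cR r lam m (n + 1)
      = - ∑ j ∈ range n, ceps r lam m j := by
  induction n with
  | zero => simp [cE_zero, cdm]
  | succ n ih =>
    have hn' : n < r := hn
    have h := ih hn'.le
    rw [sum_range_succ, neg_add, ← h, cR_rec r lam m hn', cdm, ceps]
    ring

lemma cdm_top : cdm r lam m (r + 1) = - ∑ j ∈ range r, ceps r lam m j := by
  have h := cdm_sum r lam m (le_refl r)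
  rw [cE_r, cR_r, cR_top] at h
  simpa using h

/-- residues of `h`. -/
def chj (j : ℕ) : K := 2 * (cp r lam m (j + 1) * cR r lam m (j + 1))

/-- residues of `b`. -/
def cbj (j : ℕ) : K := 2 * (ceps r lam m j - ceps r lam m (j + 1))

lemma A_mul_h {j : ℕ} (hj : j < r) :
    cA r lam j * chj r lam m j = 2 * cD r lam m + 2 * ceps r lam m j + 2 * ceps r lam m (j + 1) := by
  rw [cont_eq r lam m hj.le, cR_rec r lam m hj]
  simp only [chj, ceps]
  ring

lemma A_mul_b {j : ℕ} (hj : j < r) :
    cA r lam j * cbj r lam m j = cE r m j * (2 * (cp r lam m j * cR r lam m j))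
      - cE r m (j + 1) * chj r lam m (j + 1) := by
  simp only [cbj, chj, ceps]
  have h1 := cR_rec r lam m hj
  have h2 : cp r lam m (j + 2) = cA r lam j * cp r lam m (j + 1) - cE r m j * cp r lam m j := by
    rw [cp]
  have e1 : cp r lam m (j + 1 + 1) = cp r lam m (j + 2) := rfl
  have e2 : cR r lam m (j + 1 + 1) = cR r lam m (j + 2) := rfl
  rw [e1, e2, h2, h1]
  ring

lemma sum_hj : ∑ j ∈ range r, chj r lam m j = 2 * cdl r lam m (r + 1) := by
  rw [cdl_top, mul_sum]
  rfl

lemma sum_bj : ∑ j ∈ range r, cbj r lam m j = 0 := by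
  simp only [cbj]
  rw [← mul_sum, sum_range_sub', ceps_zero, ceps_r]
  ring

lemma sum_eps_shift : ∑ j ∈ range r, ceps r lam m (j + 1) = ∑ j ∈ range r, ceps r lam m j := by
  have h := sum_range_sub' (fun j => ceps r lam m j) r
  rw [sum_sub_distrib, ceps_zero, ceps_r, sub_self] at h
  exact (sub_eq_zero.mp h).symm

lemma sum_jbj : ∑ j ∈ range r, (j : K) * cbj r lam m j = - (2 * cdm r lam m (r + 1)) := by
  have h1 : ∀ j ∈ range r, (j : K) * cbj r lam m j
      = 2 * (((j : K) * ceps r lam m j - ((j + 1 : ℕ) : K) * ceps r lam m (j + 1))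
        + ceps r lam m (j + 1)) := by
    intro j _
    simp only [cbj]
    push_cast
    ring
  rw [sum_congr rfl h1, ← mul_sum, sum_add_distrib,
    sum_range_sub' (fun j : ℕ => (j : K) * ceps r lam m j) r, ceps_r, sum_eps_shift, cdm_top]
  simp

end cont

section functional

variable (r : ℕ) (lam m : K)

/-- The rational function `h`. -/
noncomputable def ch (s : K) : K := ∑ j ∈ range r, chj r lam m j / (s + j)

/-- The rational function `b`. -/
noncomputable def cb (s : K) : K :=
  cdl r lam m (r + 1) + ∑ j ∈ range r, cbj r lam m j / (s + j)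

/-- `A(s) = s (s + r) + lam`. -/
def fA (s : K) : K := s * (s + r) + lam

lemma term_A {s : K} {j : ℕ} (hs : s + j ≠ 0) (c : K) :
    c / (s + j) * fA r lam s = c * (s + r - j) + cA r lam j * c / (s + j) := by
  unfold fA cA
  field_simp
  ring

lemma term_Q {s : K} {j : ℕ} (hs : s + j ≠ 0) (c : K) :
    m * (s * (s + r)) * (c / (s + j)) = m * c * (s + r - j) - cE r m j * c / (s + j) := by
  unfold cE
  field_simp
  ring

lemma ch_mul_A {s : K} (hs : ∀ j : ℕ, s + j ≠ 0) :
    ch r lam m s * fA r lam s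
      = ∑ j ∈ range r, chj r lam m j * (s + r - j)
        + ∑ j ∈ range r, cA r lam j * chj r lam m j / (s + j) := by
  unfold ch
  rw [sum_mul, ← sum_add_distrib]
  exact sum_congr rfl fun j _ => term_A r lam (hs j) _

lemma func_i {s : K} (hs : ∀ j : ℕ, s + j ≠ 0) :
    cb r lam m s + cb r lam m (s + 1) + ch r lam m s * fA r lam s
      - ch r lam m (s + 1) * fA r lam (s + 1)
      = 2 * cD r lam m * (1 / s - 1 / (s + r)) := by
  have hs1 : ∀ j : ℕ, s + 1 + j ≠ 0 := by
    intro j
    have := hs (j + 1)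
    push_cast at this
    convert this using 1
    ring
  rw [ch_mul_A r lam m hs, ch_mul_A r lam m hs1]
  unfold cb
  have e1 : ∑ j ∈ range r, chj r lam m j * (s + 1 + r - j)
      = ∑ j ∈ range r, chj r lam m j * (s + r - j) + ∑ j ∈ range r, chj r lam m j := by
    rw [← sum_add_distrib]
    exact sum_congr rfl fun j _ => by ring
  have e2 : ∑ j ∈ range r, cbj r lam m j / (s + j) + ∑ j ∈ range r, cA r lam j * chj r lam m j / (s + j)
      = ∑ j ∈ range r, (2 * cD r lam m + 4 * ceps r lam m j) / (s + j) := by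
    rw [← sum_add_distrib]
    refine sum_congr rfl fun j hj => ?_
    rw [A_mul_h r lam m (mem_range.mp hj), ← add_div]
    simp only [cbj]
    ring
  have e3 : ∑ j ∈ range r, cbj r lam m j / (s + 1 + j)
      - ∑ j ∈ range r, cA r lam j * chj r lam m j / (s + 1 + j)
      = - ∑ j ∈ range r, (2 * cD r lam m + 4 * ceps r lam m (j + 1)) / (s + ((j + 1 : ℕ) : K)) := by
    rw [← sum_sub_distrib, ← sum_neg_distrib]
    refine sum_congr rfl fun j hj => ?_
    rw [A_mul_h r lam m (mem_range.mp hj), ← sub_div]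
    simp only [cbj]
    push_cast
    rw [show s + 1 + (j : K) = s + ((j : K) + 1) by ring]
    ring
  have e4 := sum_range_sub' (fun j : ℕ => (2 * cD r lam m + 4 * ceps r lam m j) / (s + (j : K))) r
  rw [sum_sub_distrib, ceps_zero, ceps_r] at e4
  have e5 := sum_hj r lam m
  simp only [Nat.cast_zero, add_zero] at e4
  linear_combination e2 + e3 + e4 - e1 - e5

lemma func_ii {s : K} (hs : ∀ j : ℕ, s + j ≠ 0) (hs1 : ∀ j : ℕ, s - 1 + j ≠ 0) :
    cb r lam m s * fA r lam s - m * ((s - 1) * (s - 1 + r)) * ch r lam m (s - 1)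
      + m * (s * (s + r)) * ch r lam m (s + 1)
      = 2 * cdm r lam m (r + 1) + cdl r lam m (r + 1) * fA r lam s := by
  have hs2 : ∀ j : ℕ, s + 1 + j ≠ 0 := by
    intro j
    have := hs (j + 1)
    push_cast at this
    convert this using 1
    ring
  -- the b part
  have e1 : (∑ j ∈ range r, cbj r lam m j / (s + j)) * fA r lam s
      = ∑ j ∈ range r, cbj r lam m j * (s + r - j)
        + ∑ j ∈ range r, cA r lam j * cbj r lam m j / (s + j) := by
    rw [sum_mul, ← sum_add_distrib]
    exact sum_congr rfl fun j _ => term_A r lam (hs j) _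
  have e1' : ∑ j ∈ range r, cbj r lam m j * (s + r - j) = 2 * cdm r lam m (r + 1) := by
    have : ∑ j ∈ range r, cbj r lam m j * (s + r - j)
        = (s + r) * ∑ j ∈ range r, cbj r lam m j - ∑ j ∈ range r, (j : K) * cbj r lam m j := by
      rw [mul_sum, ← sum_sub_distrib]
      exact sum_congr rfl fun j _ => by ring
    rw [this, sum_bj, sum_jbj]
    ring
  -- the first h part
  have e2 : m * ((s - 1) * (s - 1 + r)) * ch r lam m (s - 1)
      = ∑ j ∈ range r, m * chj r lam m j * (s - 1 + r - j)
        - ∑ j ∈ range r, cE r m j * chj r lam m j / (s - 1 + j) := by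
    unfold ch
    rw [mul_sum, ← sum_sub_distrib]
    exact sum_congr rfl fun j _ => term_Q r m (hs1 j) _
  -- the second h part
  have e3 : m * (s * (s + r)) * ch r lam m (s + 1)
      = ∑ j ∈ range r, m * chj r lam m j * (s - 1 + r - j)
        - ∑ j ∈ range r, cE r m (j + 1) * chj r lam m j / (s + ((j + 1 : ℕ) : K)) := by
    unfold ch
    rw [mul_sum, ← sum_sub_distrib]
    refine sum_congr rfl fun j _ => ?_
    have h := term_Q r m (s := s) (j := j + 1) (hs (j + 1)) (chj r lam m j)
    rw [show s + 1 + (j : K) = s + ((j + 1 : ℕ) : K) by push_cast; ring, h]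
    push_cast
    ring
  -- shifts
  have e4 : ∑ j ∈ range r, cE r m j * chj r lam m j / (s - 1 + j)
      = ∑ j ∈ range r, cE r m (j + 1) * chj r lam m (j + 1) / (s + j) := by
    have h := sum_range_sub' (fun j : ℕ => cE r m j * chj r lam m j / (s - 1 + (j : K))) r
    rw [sum_sub_distrib, cE_zero, cE_r, zero_mul, zero_div, zero_mul, zero_div, sub_self] at h
    rw [sub_eq_zero.mp h]
    refine sum_congr rfl fun j _ => ?_
    rw [show s - 1 + ((j + 1 : ℕ) : K) = s + (j : K) by push_cast; ring]
  have e5 : ∑ j ∈ range r, cE r m (j + 1) * chj r lam m j / (s + ((j + 1 : ℕ) : K))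
      = ∑ j ∈ range r, cE r m j * (2 * (cp r lam m j * cR r lam m j)) / (s + j) := by
    have h := sum_range_sub'
      (fun j : ℕ => cE r m j * (2 * (cp r lam m j * cR r lam m j)) / (s + (j : K))) r
    rw [sum_sub_distrib, cE_zero, cE_r, zero_mul, zero_div, zero_mul, zero_div, sub_self] at h
    exact (sub_eq_zero.mp h).symm
  have e6 : ∑ j ∈ range r, cA r lam j * cbj r lam m j / (s + j)
      = ∑ j ∈ range r, cE r m j * (2 * (cp r lam m j * cR r lam m j)) / (s + j)
        - ∑ j ∈ range r, cE r m (j + 1) * chj r lam m (j + 1) / (s + j) := by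
    rw [← sum_sub_distrib]
    refine sum_congr rfl fun j hj => ?_
    rw [A_mul_b r lam m (mem_range.mp hj), sub_div]
  unfold cb
  rw [add_mul, e1, e1', e2, e3, e4, e5, e6]
  ring

end functional

end Pool.Agent.Helper96.Josephson
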