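import Mathlib

/-!
The flow of `φ' = r + μ cos τ - a sin φ`.
-/

namespace Pool.Agent.Helper96.Josephson

open Real MeasureTheory intervalIntegral Set

/-- `φ` solves `φ' = r + μ cos τ - a sin φ` on the whole line. -/
def Sol (r a μ : ℝ) (φ : ℝ → ℝ) : Prop :=
  ∀ τ, HasDerivAt φ (r + μ * cos τ - a * sin (φ τ)) τ

variable {r a μ a1 a2 μ1 μ2 : ℝ} {φ φ1 φ2 : ℝ → ℝ}

lemma Sol.continuous (h : Sol r a μ φ) : Continuous φ :=
  continuous_iff_continuousAt.mpr fun τ => (h τ).continuousAt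

/-! ### existence -/

lemma exists_sol (r a μ x0 : ℝ) : ∃ φ, φ 0 = x0 ∧ Sol r a μ φ := by
  set v : ℝ → ℝ → ℝ := fun t x => r + μ * cos t - a * sin x with hv
  have hlip : ∀ t, LipschitzWith ‖a‖₊ (v t) := by
    intro t
    refine LipschitzWith.of_dist_le_mul fun x y => ?_
    simp only [hv, Real.dist_eq]
    have h1 : |sin x - sin y| ≤ |x - y| := Real.abs_sin_sub_sin_le x y
    rw [show r + μ * cos t - a * sin x - (r + μ * cos t - a * sin y) = -(a * (sin x - sin y)) by ring,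
      abs_neg, abs_mul]
    simp only [coe_nnnorm, norm_eq_abs]
    gcongr
  have hex : ∀ n : ℕ, ∃ α : ℝ → ℝ, α 0 = x0 ∧
      ∀ t ∈ Icc (-(n : ℝ) - 1) (n + 1), HasDerivWithinAt α (v t (α t)) (Icc (-(n : ℝ) - 1) (n + 1)) t := by
    intro n
    have hn : (0 : ℝ) ≤ n := Nat.cast_nonneg n
    have h0 : (0 : ℝ) ∈ Icc (-(n : ℝ) - 1) (n + 1) := ⟨by linarith, by linarith⟩
    set L : NNReal := ‖r‖₊ + ‖μ‖₊ + ‖a‖₊ with hL
    have hPL : IsPicardLindelof v (⟨0, h0⟩ : Icc (-(n : ℝ) - 1) (n + 1)) x0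
        (L * (n + 1)) 0 L ‖a‖₊ := by
      refine ⟨fun t _ => (hlip t).lipschitzOnWith, fun x _ => ?_, fun t _ x _ => ?_, ?_⟩
      · simp only [hv]
        fun_prop
      · simp only [hv, hL]
        push_cast
        have h1 : ‖μ * cos t‖ ≤ ‖μ‖ := by
          rw [norm_mul]
          exact mul_le_of_le_one_right (norm_nonneg _) (abs_cos_le_one t)
        have h2 : ‖a * sin x‖ ≤ ‖a‖ := by
          rw [norm_mul]
          exact mul_le_of_le_one_right (norm_nonneg _) (abs_sin_le_one x)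
        calc ‖r + μ * cos t - a * sin x‖ ≤ ‖r + μ * cos t‖ + ‖a * sin x‖ := norm_sub_le _ _
          _ ≤ ‖r‖ + ‖μ * cos t‖ + ‖a * sin x‖ := by gcongr; exact norm_add_le _ _
          _ ≤ _ := by gcongr
      · simp only
        rw [show (n : ℝ) + 1 - 0 = n + 1 by ring, show (0 : ℝ) - (-(n : ℝ) - 1) = n + 1 by ring,
          max_self]
        push_cast
        simp
    obtain ⟨α, h1, h2⟩ := hPL.exists_eq_forall_mem_Icc_hasDerivWithinAt₀
    exact ⟨α, h1, h2⟩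
  choose α hα0 hα using hex
  have hd : ∀ n : ℕ, ∀ t ∈ Ioo (-(n : ℝ) - 1) (n + 1), HasDerivAt (α n) (v t (α n t)) t :=
    fun n t ht => (hα n t (Ioo_subset_Icc_self ht)).hasDerivAt (Icc_mem_nhds ht.1 ht.2)
  have heq : ∀ m n : ℕ, m ≤ n → ∀ t ∈ Ioo (-(m : ℝ) - 1) (m + 1), α m t = α n t := by
    intro m n hmn
    have hm : (0 : ℝ) ≤ m := Nat.cast_nonneg m
    have hmn' : (m : ℝ) ≤ n := by exact_mod_cast hmn
    refine ODE_solution_unique_of_mem_Ioo (K := ‖a‖₊) (s := fun _ => univ) (t₀ := 0) (v := v)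
      (fun t _ => (hlip t).lipschitzOnWith) ⟨by linarith, by linarith⟩
      (fun t ht => ⟨hd m t ht, mem_univ _⟩) (fun t ht => ⟨hd n t ?_, mem_univ _⟩) ?_
    · exact ⟨by linarith [ht.1], by linarith [ht.2]⟩
    · rw [hα0, hα0]
  have hmem : ∀ t : ℝ, ∀ n : ℕ, |t| < n + 1 → t ∈ Ioo (-(n : ℝ) - 1) (n + 1) := by
    intro t n h
    have := abs_lt.mp h
    exact ⟨by linarith [this.1], this.2⟩
  have hφ : ∀ t : ℝ, ∀ n : ℕ, |t| < n + 1 → α ⌈|t|⌉₊ t = α n t := by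
    intro t n h
    have h' : |t| < (⌈|t|⌉₊ : ℕ) + 1 := lt_of_le_of_lt (Nat.le_ceil _) (by linarith)
    rcases le_total ⌈|t|⌉₊ n with h1 | h1
    · exact heq _ _ h1 t (hmem t _ h')
    · exact (heq _ _ h1 t (hmem t _ h)).symm
  refine ⟨fun t => α ⌈|t|⌉₊ t, by simp [hα0], fun t => ?_⟩
  set n := ⌈|t|⌉₊ with hn
  have h' : |t| < (n : ℕ) + 1 := lt_of_le_of_lt (Nat.le_ceil _) (by linarith)
  have h1 := hd n t (hmem t n h')
  refine h1.congr_of_eventuallyEq ?_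
  have h2 : ∀ᶠ s : ℝ in nhds t, |s| < (n : ℝ) + 1 :=
    (continuous_abs.continuousAt (x := t)).eventually_lt continuousAt_const h'
  filter_upwards [h2] with s hs
  exact hφ s n hs

/-! ### the difference formula -/

/-- `(sin x - sin y)/(x - y)`. -/
noncomputable def cc (x y : ℝ) : ℝ := cos ((x + y) / 2) * sinc ((x - y) / 2)

lemma sin_sub_sin_eq (x y : ℝ) : sin x - sin y = cc x y * (x - y) := by
  unfold cc
  rcases eq_or_ne x y with h | h
  · simp [h]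
  · have h2 : (x - y) / 2 ≠ 0 := by
      intro h3
      exact h (by linarith)
    rw [sinc_of_ne_zero h2, Real.sin_sub_sin]
    have h3 : x - y ≠ 0 := sub_ne_zero.mpr h
    field_simp

lemma abs_cc_le (x y : ℝ) : |cc x y| ≤ 1 := by
  unfold cc
  rw [abs_mul]
  exact mul_le_one₀ (abs_cos_le_one _) (abs_nonneg _) (abs_sinc_le_one _)

lemma continuous_cc : Continuous (fun p : ℝ × ℝ => cc p.1 p.2) := by
  unfold cc
  exact (by fun_prop : Continuous fun p : ℝ × ℝ => cos ((p.1 + p.2) / 2)).mul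
    (continuous_sinc.comp (by fun_prop))

lemma cc_self (x : ℝ) : cc x x = cos x := by
  unfold cc
  simp

/-- integrating factor exponent. -/
noncomputable def Gam (φ1 φ2 : ℝ → ℝ) (τ : ℝ) : ℝ := ∫ s in (0 : ℝ)..τ, cc (φ1 s) (φ2 s)

lemma continuous_cc_comp (h1 : Continuous φ1) (h2 : Continuous φ2) :
    Continuous fun s => cc (φ1 s) (φ2 s) := by
  have h : Continuous fun s => (φ1 s - φ2 s) / 2 := by fun_prop
  have h3 : Continuous fun s => sinc ((φ1 s - φ2 s) / 2) := continuous_sinc.comp h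
  have h4 : Continuous fun s => cos ((φ1 s + φ2 s) / 2) := by fun_prop
  exact h4.mul h3

lemma hasDerivAt_Gam (h1 : Continuous φ1) (h2 : Continuous φ2) (τ : ℝ) :
    HasDerivAt (Gam φ1 φ2) (cc (φ1 τ) (φ2 τ)) τ := by
  have hc := continuous_cc_comp h1 h2
  exact integral_hasDerivAt_right (hc.intervalIntegrable _ _)
    (hc.stronglyMeasurableAtFilter _ _) hc.continuousAt

lemma continuous_Gam (h1 : Continuous φ1) (h2 : Continuous φ2) : Continuous (Gam φ1 φ2) :=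
  continuous_iff_continuousAt.mpr fun τ => (hasDerivAt_Gam h1 h2 τ).continuousAt

lemma Gam_zero : Gam φ1 φ2 0 = 0 := by simp [Gam]

lemma abs_Gam_le (τ : ℝ) : |Gam φ1 φ2 τ| ≤ |τ| := by
  unfold Gam
  have := intervalIntegral.norm_integral_le_of_norm_le_const (a := 0) (b := τ) (C := 1)
    (f := fun s => cc (φ1 s) (φ2 s)) (fun s _ => by simpa using abs_cc_le (φ1 s) (φ2 s))
  simpa using this

lemma diff_hasDerivAt (h1 : Sol r a1 μ1 φ1) (h2 : Sol r a2 μ2 φ2) (τ : ℝ) :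
    HasDerivAt (fun τ => (φ1 τ - φ2 τ) * exp (a2 * Gam φ1 φ2 τ))
      (exp (a2 * Gam φ1 φ2 τ) * ((μ1 - μ2) * cos τ - (a1 - a2) * sin (φ1 τ))) τ := by
  have hG := ((hasDerivAt_Gam h1.continuous h2.continuous τ).const_mul a2).exp
  have h := ((h1 τ).sub (h2 τ)).mul hG
  refine h.congr_deriv ?_
  have hs := sin_sub_sin_eq (φ1 τ) (φ2 τ)
  simp only [Pi.sub_apply]
  linear_combination (-a2 * exp (a2 * Gam φ1 φ2 τ)) * hs

theorem diff_formula (h1 : Sol r a1 μ1 φ1) (h2 : Sol r a2 μ2 φ2) (τ : ℝ) :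
    (φ1 τ - φ2 τ) * exp (a2 * Gam φ1 φ2 τ) = (φ1 0 - φ2 0)
      + ∫ s in (0 : ℝ)..τ, exp (a2 * Gam φ1 φ2 s) * ((μ1 - μ2) * cos s - (a1 - a2) * sin (φ1 s)) := by
  have hc1 := h1.continuous
  have hGc := continuous_Gam h1.continuous h2.continuous
  have h := intervalIntegral.integral_eq_sub_of_hasDerivAt (a := 0) (b := τ)
    (fun s _ => diff_hasDerivAt h1 h2 s)
    ((by fun_prop : Continuous fun s => exp (a2 * Gam φ1 φ2 s)
      * ((μ1 - μ2) * cos s - (a1 - a2) * sin (φ1 s))).intervalIntegrable _ _)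
  rw [h, Gam_zero]
  simp

lemma diff_formula_same (h1 : Sol r a μ φ1) (h2 : Sol r a μ φ2) (τ : ℝ) :
    (φ1 τ - φ2 τ) * exp (a * Gam φ1 φ2 τ) = φ1 0 - φ2 0 := by
  rw [diff_formula h1 h2 τ]
  simp

lemma Sol.unique (h1 : Sol r a μ φ1) (h2 : Sol r a μ φ2) {τ0 : ℝ} (h : φ1 τ0 = φ2 τ0) :
    φ1 = φ2 := by
  have e0 := diff_formula_same h1 h2 τ0
  rw [h, sub_self, zero_mul] at e0
  funext τ
  have e1 := diff_formula_same h1 h2 τ
  rw [← e0] at e1
  have := (mul_eq_zero.mp e1).resolve_right (exp_pos _).ne'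
  linarith

lemma Sol.lt (h1 : Sol r a μ φ1) (h2 : Sol r a μ φ2) {τ0 : ℝ} (h : φ1 τ0 < φ2 τ0) (τ : ℝ) :
    φ1 τ < φ2 τ := by
  have e0 := diff_formula_same h1 h2 τ0
  have e1 := diff_formula_same h1 h2 τ
  rw [← e0] at e1
  by_contra hc
  push Not at hc
  have p1 : 0 ≤ (φ1 τ - φ2 τ) * exp (a * Gam φ1 φ2 τ) :=
    mul_nonneg (by linarith) (exp_pos _).le
  have p2 : (φ1 τ0 - φ2 τ0) * exp (a * Gam φ1 φ2 τ0) < 0 :=
    mul_neg_of_neg_of_pos (by linarith) (exp_pos _)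
  linarith

lemma Sol.le (h1 : Sol r a μ φ1) (h2 : Sol r a μ φ2) {τ0 : ℝ} (h : φ1 τ0 ≤ φ2 τ0) (τ : ℝ) :
    φ1 τ ≤ φ2 τ := by
  rcases h.lt_or_eq with h | h
  · exact (h1.lt h2 h τ).le
  · exact (congrFun (h1.unique h2 h) τ).le

/-! ### operations on solutions -/

lemma Sol.add_int (h : Sol r a μ φ) (n : ℤ) : Sol r a μ (fun τ => φ τ + 2 * π * n) := by
  intro τ
  have h1 := (h τ).add_const (2 * π * (n : ℝ))
  refine h1.congr_deriv ?_
  have : sin (φ τ + 2 * π * n) = sin (φ τ) := by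
    have := Real.sin_add_int_mul_two_pi (φ τ) n
    rw [← this]; congr 1; ring
  rw [this]

lemma Sol.shift (h : Sol r a μ φ) (n : ℤ) : Sol r a μ (fun τ => φ (τ + 2 * π * n)) := by
  intro τ
  have h1 := (h (τ + 2 * π * n)).comp_add_const τ (2 * π * (n : ℝ))
  refine h1.congr_deriv ?_
  have : cos (τ + 2 * π * n) = cos τ := by
    have := Real.cos_add_int_mul_two_pi τ n
    rw [← this]; congr 1; ring
  rw [this]

lemma Sol.shift_pi (h : Sol r a μ φ) : Sol r a (-μ) (fun τ => φ (τ + π)) := by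
  intro τ
  have h1 := (h (τ + π)).comp_add_const τ π
  refine h1.congr_deriv ?_
  rw [Real.cos_add_pi]
  ring

lemma Sol.reflect (h : Sol r a μ φ) : Sol r a μ (fun τ => π - φ (-τ)) := by
  intro τ
  have h1 := (((h (-τ)).scomp τ (hasDerivAt_neg τ))).const_sub π
  refine h1.congr_deriv ?_
  rw [Real.sin_pi_sub, Real.cos_neg]
  simp

end Pool.Agent.Helper96.Josephson
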