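import Mathlib
import Pool.Agent.Helper96.Josephson.Flow

/-!
Joint continuity of the flow, and strict differentiability in the parameters.
-/

namespace Pool.Agent.Helper96.Josephson

open Real MeasureTheory intervalIntegral Set Filter Topology

variable {r a μ a1 a2 μ1 μ2 x0 : ℝ} {φ φ1 φ2 : ℝ → ℝ}

/-- the solution with initial value `x0` at time `0`. -/
noncomputable def flow (r a μ x0 : ℝ) : ℝ → ℝ := Classical.choose (exists_sol r a μ x0)

lemma flow_zero : flow r a μ x0 0 = x0 := (Classical.choose_spec (exists_sol r a μ x0)).1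

lemma flow_sol : Sol r a μ (flow r a μ x0) := (Classical.choose_spec (exists_sol r a μ x0)).2

lemma flow_unique (h : Sol r a μ φ) (h0 : φ 0 = x0) : φ = flow r a μ x0 :=
  h.unique flow_sol (by rw [h0, flow_zero])

lemma exp_Gam_le (τ : ℝ) (s : ℝ) (hs : |s| ≤ |τ|) :
    exp (a * Gam φ1 φ2 s) ≤ exp (|a| * |τ|) := by
  refine exp_le_exp.mpr ((le_abs_self _).trans ?_)
  rw [abs_mul]
  exact mul_le_mul_of_nonneg_left ((abs_Gam_le s).trans hs) (abs_nonneg a)

lemma exp_neg_Gam_le (τ : ℝ) (s : ℝ) (hs : |s| ≤ |τ|) :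
    exp (-(a * Gam φ1 φ2 s)) ≤ exp (|a| * |τ|) := by
  refine exp_le_exp.mpr ((neg_le_abs _).trans ?_)
  rw [abs_mul]
  exact mul_le_mul_of_nonneg_left ((abs_Gam_le s).trans hs) (abs_nonneg a)

/-- a bound for the difference of two solutions. -/
lemma diff_bound (h1 : Sol r a1 μ1 φ1) (h2 : Sol r a2 μ2 φ2) (τ : ℝ) :
    |φ1 τ - φ2 τ| ≤ (|φ1 0 - φ2 0| + exp (|a2| * |τ|) * (|μ1 - μ2| + |a1 - a2|) * |τ|)
      * exp (|a2| * |τ|) := by
  have h := diff_formula h1 h2 τ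
  have e : φ1 τ - φ2 τ = ((φ1 0 - φ2 0)
      + ∫ s in (0 : ℝ)..τ, exp (a2 * Gam φ1 φ2 s) * ((μ1 - μ2) * cos s - (a1 - a2) * sin (φ1 s)))
      * exp (-(a2 * Gam φ1 φ2 τ)) := by
    rw [← h, mul_assoc, ← Real.exp_add, add_neg_cancel, Real.exp_zero, mul_one]
  rw [e, abs_mul, abs_of_pos (exp_pos _)]
  have hint := intervalIntegral.norm_integral_le_of_norm_le_const (a := 0) (b := τ)
    (C := exp (|a2| * |τ|) * (|μ1 - μ2| + |a1 - a2|))
    (f := fun s => exp (a2 * Gam φ1 φ2 s) * ((μ1 - μ2) * cos s - (a1 - a2) * sin (φ1 s)))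
    (fun s hs => by
      have hs' : |s| ≤ |τ| := by
        rcases le_total 0 τ with h0 | h0
        · rw [uIoc_of_le h0] at hs
          rw [abs_of_pos hs.1, abs_of_nonneg h0]
          exact hs.2
        · rw [uIoc_of_ge h0] at hs
          rw [abs_of_nonpos hs.2, abs_of_nonpos h0]
          linarith [hs.1]
      rw [norm_mul, norm_eq_abs, norm_eq_abs, abs_of_pos (exp_pos _)]
      refine mul_le_mul (exp_Gam_le τ s hs') ?_ (abs_nonneg _) (exp_pos _).le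
      have a1' : |(μ1 - μ2) * cos s| ≤ |μ1 - μ2| := by
        rw [abs_mul]; exact mul_le_of_le_one_right (abs_nonneg _) (abs_cos_le_one s)
      have a2' : |(a1 - a2) * sin (φ1 s)| ≤ |a1 - a2| := by
        rw [abs_mul]; exact mul_le_of_le_one_right (abs_nonneg _) (abs_sin_le_one _)
      exact (abs_sub _ _).trans (add_le_add a1' a2'))
  rw [norm_eq_abs, sub_zero] at hint
  refine mul_le_mul ?_ (exp_neg_Gam_le τ τ le_rfl) (exp_pos _).le (by positivity)
  exact (abs_add_le _ _).trans (add_le_add le_rfl hint)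

/-- Joint continuity of the flow in parameters, initial value and time. -/
lemma continuous_flow (r : ℝ) :
    Continuous (fun p : (ℝ × ℝ × ℝ) × ℝ => flow r p.1.1 p.1.2.1 p.1.2.2 p.2) := by
  refine continuous_iff_continuousAt.mpr fun p0 => ?_
  obtain ⟨⟨a0, μ0, y0⟩, τ0⟩ := p0
  have h1 : Tendsto (fun p : (ℝ × ℝ × ℝ) × ℝ => flow r a0 μ0 y0 p.2)
      (𝓝 ((a0, μ0, y0), τ0)) (𝓝 (flow r a0 μ0 y0 τ0)) := by
    have hc : Continuous (flow r a0 μ0 y0) := flow_sol.continuous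
    exact (hc.comp continuous_snd).continuousAt
  have h2 : Tendsto (fun p : (ℝ × ℝ × ℝ) × ℝ =>
      flow r p.1.1 p.1.2.1 p.1.2.2 p.2 - flow r a0 μ0 y0 p.2) (𝓝 ((a0, μ0, y0), τ0)) (𝓝 0) := by
    refine squeeze_zero_norm (a := fun p : (ℝ × ℝ × ℝ) × ℝ =>
      (|p.1.2.2 - y0| + exp (|a0| * |p.2|) * (|p.1.2.1 - μ0| + |p.1.1 - a0|) * |p.2|)
      * exp (|a0| * |p.2|)) (fun p => ?_) ?_
    · have := diff_bound (flow_sol (r := r) (a := p.1.1) (μ := p.1.2.1) (x0 := p.1.2.2))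
        (flow_sol (r := r) (a := a0) (μ := μ0) (x0 := y0)) p.2
      rw [flow_zero, flow_zero] at this
      exact this
    · have hc : Continuous (fun p : (ℝ × ℝ × ℝ) × ℝ =>
        (|p.1.2.2 - y0| + exp (|a0| * |p.2|) * (|p.1.2.1 - μ0| + |p.1.1 - a0|) * |p.2|)
        * exp (|a0| * |p.2|)) := by fun_prop
      have := hc.tendsto ((a0, μ0, y0), τ0)
      simpa using this
  have h3 := h2.add h1
  simp only [sub_add_cancel, zero_add] at h3
  exact h3

/-! ### strict differentiability -/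

section strict

variable (r x0 T : ℝ)

/-- abbreviation: solution attached to a parameter. -/
noncomputable def fl (p : ℝ × ℝ) (τ : ℝ) : ℝ := flow r p.1 p.2 x0 τ

lemma continuous_fl : Continuous (fun p : (ℝ × ℝ) × ℝ => fl r x0 p.1 p.2) := by
  unfold fl
  exact (continuous_flow r).comp
    (by fun_prop : Continuous fun p : (ℝ × ℝ) × ℝ => ((p.1.1, p.1.2, x0), p.2))

lemma fl_sol (p : ℝ × ℝ) : Sol r p.1 p.2 (fl r x0 p) := flow_sol

lemma fl_zero (p : ℝ × ℝ) : fl r x0 p 0 = x0 := flow_zero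

/-- `exp(a2 Γ(s))`. -/
noncomputable def EG (q : (ℝ × ℝ) × (ℝ × ℝ)) (s : ℝ) : ℝ :=
  exp (q.2.1 * Gam (fl r x0 q.1) (fl r x0 q.2) s)

lemma continuous_EG : Continuous (fun z : ((ℝ × ℝ) × (ℝ × ℝ)) × ℝ => EG r x0 z.1 z.2) := by
  unfold EG Gam
  have h1 : Continuous (fun z : (((ℝ × ℝ) × (ℝ × ℝ)) × ℝ) × ℝ => fl r x0 z.1.1.1 z.2) :=
    (continuous_fl r x0).comp
      (by fun_prop : Continuous fun z : (((ℝ × ℝ) × (ℝ × ℝ)) × ℝ) × ℝ => (z.1.1.1, z.2))
  have h2 : Continuous (fun z : (((ℝ × ℝ) × (ℝ × ℝ)) × ℝ) × ℝ => fl r x0 z.1.1.2 z.2) :=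
    (continuous_fl r x0).comp
      (by fun_prop : Continuous fun z : (((ℝ × ℝ) × (ℝ × ℝ)) × ℝ) × ℝ => (z.1.1.2, z.2))
  have h3 : Continuous (Function.uncurry fun (z : ((ℝ × ℝ) × (ℝ × ℝ)) × ℝ) (s : ℝ) =>
      cc (fl r x0 z.1.1 s) (fl r x0 z.1.2 s)) := by
    have h4 : Continuous fun z : (((ℝ × ℝ) × (ℝ × ℝ)) × ℝ) × ℝ =>
        (fl r x0 z.1.1.1 z.2 - fl r x0 z.1.1.2 z.2) / 2 := by fun_prop
    have h5 : Continuous fun z : (((ℝ × ℝ) × (ℝ × ℝ)) × ℝ) × ℝ =>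
        cos ((fl r x0 z.1.1.1 z.2 + fl r x0 z.1.1.2 z.2) / 2) := by fun_prop
    exact h5.mul (continuous_sinc.comp h4)
  have h6 : Continuous (fun z : ((ℝ × ℝ) × (ℝ × ℝ)) × ℝ =>
      ∫ s in (0 : ℝ)..z.2, cc (fl r x0 z.1.1 s) (fl r x0 z.1.2 s)) :=
    continuous_parametric_intervalIntegral_of_continuous h3 continuous_snd
  fun_prop

/-- coefficient of `μ1 - μ2`. -/
noncomputable def Mm (q : (ℝ × ℝ) × (ℝ × ℝ)) : ℝ :=
  (EG r x0 q T)⁻¹ * ∫ s in (0 : ℝ)..T, EG r x0 q s * cos s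

/-- coefficient of `a1 - a2`. -/
noncomputable def Ma (q : (ℝ × ℝ) × (ℝ × ℝ)) : ℝ :=
  -((EG r x0 q T)⁻¹ * ∫ s in (0 : ℝ)..T, EG r x0 q s * sin (fl r x0 q.1 s))

lemma EG_pos (q : (ℝ × ℝ) × (ℝ × ℝ)) (s : ℝ) : 0 < EG r x0 q s := exp_pos _

lemma continuous_EGT : Continuous (fun q => (EG r x0 q T)⁻¹) :=
  ((continuous_EG r x0).comp (by fun_prop : Continuous fun q : (ℝ × ℝ) × (ℝ × ℝ) => (q, T))).inv₀
    fun q => (EG_pos r x0 q T).ne'

lemma continuous_Mm : Continuous (Mm r x0 T) := by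
  unfold Mm
  refine (continuous_EGT r x0 T).mul ?_
  refine continuous_parametric_intervalIntegral_of_continuous' ?_ 0 T
  have h := continuous_EG r x0
  exact h.mul (by fun_prop : Continuous fun z : ((ℝ × ℝ) × (ℝ × ℝ)) × ℝ => cos z.2)

lemma continuous_Ma : Continuous (Ma r x0 T) := by
  unfold Ma
  refine ((continuous_EGT r x0 T).mul ?_).neg
  refine continuous_parametric_intervalIntegral_of_continuous' ?_ 0 T
  have h := continuous_EG r x0
  have h1 : Continuous (fun z : ((ℝ × ℝ) × (ℝ × ℝ)) × ℝ => fl r x0 z.1.1 z.2) :=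
    (continuous_fl r x0).comp
      (by fun_prop : Continuous fun z : ((ℝ × ℝ) × (ℝ × ℝ)) × ℝ => (z.1.1, z.2))
  exact h.mul (continuous_sin.comp h1)

lemma fl_diff (q : (ℝ × ℝ) × (ℝ × ℝ)) :
    fl r x0 q.1 T - fl r x0 q.2 T
      = Ma r x0 T q * (q.1.1 - q.2.1) + Mm r x0 T q * (q.1.2 - q.2.2) := by
  have h := diff_formula (fl_sol r x0 q.1) (fl_sol r x0 q.2) T
  rw [fl_zero, fl_zero, sub_self, zero_add] at h
  have hE := EG_pos r x0 q T
  have hc1 : Continuous (fl r x0 q.1) := (fl_sol r x0 q.1).continuous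
  have hc2 : Continuous (fl r x0 q.2) := (fl_sol r x0 q.2).continuous
  have hG := continuous_Gam hc1 hc2
  have hEc : Continuous (EG r x0 q) := by unfold EG; fun_prop
  have e : ∫ s in (0 : ℝ)..T, exp (q.2.1 * Gam (fl r x0 q.1) (fl r x0 q.2) s)
        * ((q.1.2 - q.2.2) * cos s - (q.1.1 - q.2.1) * sin (fl r x0 q.1 s))
      = (q.1.2 - q.2.2) * (∫ s in (0 : ℝ)..T, EG r x0 q s * cos s)
        - (q.1.1 - q.2.1) * ∫ s in (0 : ℝ)..T, EG r x0 q s * sin (fl r x0 q.1 s) := by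
    rw [← intervalIntegral.integral_const_mul, ← intervalIntegral.integral_const_mul,
      ← intervalIntegral.integral_sub]
    · refine intervalIntegral.integral_congr fun s _ => ?_
      simp only [EG]
      ring
    · exact (by fun_prop : Continuous fun s => (q.1.2 - q.2.2) * (EG r x0 q s * cos s)).intervalIntegrable _ _
    · exact (by fun_prop : Continuous fun s => (q.1.1 - q.2.1)
        * (EG r x0 q s * sin (fl r x0 q.1 s))).intervalIntegrable _ _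
  rw [e] at h
  have h' : (fl r x0 q.1 T - fl r x0 q.2 T) * EG r x0 q T = _ := h
  unfold Ma Mm
  field_simp
  linear_combination h'

/-- The strict derivative of `p ↦ fl p T`. -/
lemma hasStrict_fl (p : ℝ × ℝ) :
    HasStrictFDerivAt (fun p : ℝ × ℝ => fl r x0 p T)
      (Ma r x0 T (p, p) • ContinuousLinearMap.fst ℝ ℝ ℝ
        + Mm r x0 T (p, p) • ContinuousLinearMap.snd ℝ ℝ ℝ) p := by
  refine HasStrictFDerivAt.of_isLittleO ?_
  have hMa : Tendsto (fun q => Ma r x0 T q - Ma r x0 T (p, p)) (𝓝 (p, p)) (𝓝 0) := by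
    have := (continuous_Ma r x0 T).tendsto (p, p)
    simpa using this.sub_const (Ma r x0 T (p, p))
  have hMm : Tendsto (fun q => Mm r x0 T q - Mm r x0 T (p, p)) (𝓝 (p, p)) (𝓝 0) := by
    have := (continuous_Mm r x0 T).tendsto (p, p)
    simpa using this.sub_const (Mm r x0 T (p, p))
  have e : ∀ q : (ℝ × ℝ) × (ℝ × ℝ), fl r x0 q.1 T - fl r x0 q.2 T
      - (Ma r x0 T (p, p) • ContinuousLinearMap.fst ℝ ℝ ℝ
        + Mm r x0 T (p, p) • ContinuousLinearMap.snd ℝ ℝ ℝ) (q.1 - q.2)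
      = (Ma r x0 T q - Ma r x0 T (p, p)) * (q.1.1 - q.2.1)
        + (Mm r x0 T q - Mm r x0 T (p, p)) * (q.1.2 - q.2.2) := by
    intro q
    rw [fl_diff]
    simp
    ring
  simp only [e]
  have hO1 : (fun q : (ℝ × ℝ) × (ℝ × ℝ) => q.1.1 - q.2.1) =O[𝓝 (p, p)]
      fun q => ‖q.1 - q.2‖ := by
    refine Asymptotics.IsBigO.of_bound 1 (Eventually.of_forall fun q => ?_)
    rw [one_mul, norm_norm]
    exact norm_fst_le (q.1 - q.2)
  have hO2 : (fun q : (ℝ × ℝ) × (ℝ × ℝ) => q.1.2 - q.2.2) =O[𝓝 (p, p)]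
      fun q => ‖q.1 - q.2‖ := by
    refine Asymptotics.IsBigO.of_bound 1 (Eventually.of_forall fun q => ?_)
    rw [one_mul, norm_norm]
    exact norm_snd_le (q.1 - q.2)
  have ho1 := ((Asymptotics.isLittleO_one_iff ℝ).mpr hMa).mul_isBigO hO1
  have ho2 := ((Asymptotics.isLittleO_one_iff ℝ).mpr hMm).mul_isBigO hO2
  have := ho1.add ho2
  simp only [one_mul] at this
  exact Asymptotics.isLittleO_norm_right.mp this

end strict

end Pool.Agent.Helper96.Josephson
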