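import Mathlib
import Pool.Agent.Helper96.Josephson.Alg

/-!
Sequence identities (Fourier side).
-/

namespace Pool.Agent.Helper96.Josephson

open Finset

/-- half-integer exponents `s_k = k + 1/2`. -/
noncomputable def hs (k : ℤ) : ℂ := (k : ℂ) + 1 / 2

lemma hs_add_one (k : ℤ) : hs (k + 1) = hs k + 1 := by
  unfold hs; push_cast; ring

lemma hs_sub_one (k : ℤ) : hs (k - 1) = hs k - 1 := by
  unfold hs; push_cast; ring

lemma hs_add_int_ne (k j : ℤ) : hs k + (j : ℂ) ≠ 0 := by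
  unfold hs
  intro h
  have h2 : (((2 * (k + j) + 1 : ℤ)) : ℂ) = 0 := by
    push_cast
    linear_combination 2 * h
  have h3 : (2 * (k + j) + 1 : ℤ) = 0 := by exact_mod_cast h2
  omega

lemma hs_ne (k : ℤ) : hs k ≠ 0 := by simpa using hs_add_int_ne k 0

lemma hs_add_nat_ne (k : ℤ) (j : ℕ) : hs k + (j : ℂ) ≠ 0 := by
  have := hs_add_int_ne k (j : ℤ)
  simpa using this

/-- Rapidly decreasing sequences indexed by `ℤ`. -/
def Rapid (g : ℤ → ℂ) : Prop := ∀ N : ℕ, ∃ C : ℝ, ∀ k : ℤ, ‖g k‖ * (1 + |(k : ℝ)|) ^ N ≤ C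

/-- Polynomially bounded sequences indexed by `ℤ`. -/
def PolyB (g : ℤ → ℂ) : Prop := ∃ N : ℕ, ∃ C : ℝ, ∀ k : ℤ, ‖g k‖ ≤ C * (1 + |(k : ℝ)|) ^ N

lemma one_le_wt (k : ℤ) : (1 : ℝ) ≤ 1 + |(k : ℝ)| := by
  have := abs_nonneg (k : ℝ); linarith

lemma wt_pos (k : ℤ) : (0 : ℝ) < 1 + |(k : ℝ)| := lt_of_lt_of_le one_pos (one_le_wt k)

lemma Rapid.mul_polyB {f g : ℤ → ℂ} (hf : Rapid f) (hg : PolyB g) :
    Rapid (fun k => g k * f k) := by
  obtain ⟨M, C, hC⟩ := hg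
  intro N
  obtain ⟨D, hD⟩ := hf (M + N)
  refine ⟨|C| * D, fun k => ?_⟩
  have h1 := hC k
  have h2 := hD k
  have hw := wt_pos k
  rw [norm_mul]
  calc ‖g k‖ * ‖f k‖ * (1 + |(k : ℝ)|) ^ N
      ≤ (|C| * (1 + |(k : ℝ)|) ^ M) * ‖f k‖ * (1 + |(k : ℝ)|) ^ N := by
        have : ‖g k‖ ≤ |C| * (1 + |(k : ℝ)|) ^ M :=
          h1.trans (mul_le_mul_of_nonneg_right (le_abs_self C) (by positivity))
        gcongr
    _ = |C| * (‖f k‖ * (1 + |(k : ℝ)|) ^ (M + N)) := by rw [pow_add]; ring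
    _ ≤ |C| * D := by gcongr

lemma Rapid.polyB {f : ℤ → ℂ} (hf : Rapid f) : PolyB f := by
  obtain ⟨D, hD⟩ := hf 0
  exact ⟨0, D, fun k => by simpa using hD k⟩

lemma Rapid.mul {f g : ℤ → ℂ} (hf : Rapid f) (hg : Rapid g) : Rapid (fun k => g k * f k) :=
  hf.mul_polyB hg.polyB

lemma wt_shift (k n : ℤ) : 1 + |(k : ℝ)| ≤ (1 + |(n : ℝ)|) * (1 + |((k + n : ℤ) : ℝ)|) := by
  push_cast
  have h1 : |(k : ℝ)| ≤ |(k : ℝ) + n| + |(n : ℝ)| := by
    have := abs_sub ((k : ℝ) + n) (n : ℝ)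
    simpa using this
  have h2 := abs_nonneg (n : ℝ)
  have h3 := abs_nonneg ((k : ℝ) + n)
  nlinarith [mul_nonneg h2 h3]

lemma Rapid.shift {f : ℤ → ℂ} (hf : Rapid f) (n : ℤ) : Rapid (fun k => f (k + n)) := by
  intro N
  obtain ⟨D, hD⟩ := hf N
  refine ⟨(1 + |(n : ℝ)|) ^ N * D, fun k => ?_⟩
  have h2 := hD (k + n)
  have hw := wt_pos k
  calc ‖f (k + n)‖ * (1 + |(k : ℝ)|) ^ N
      ≤ ‖f (k + n)‖ * ((1 + |(n : ℝ)|) * (1 + |((k + n : ℤ) : ℝ)|)) ^ N := by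
        have := wt_shift k n
        gcongr
    _ = (1 + |(n : ℝ)|) ^ N * (‖f (k + n)‖ * (1 + |((k + n : ℤ) : ℝ)|) ^ N) := by
        rw [mul_pow]; ring
    _ ≤ _ := by gcongr

lemma Rapid.reflect {f : ℤ → ℂ} (hf : Rapid f) (n : ℤ) : Rapid (fun k => f (n - k)) := by
  intro N
  obtain ⟨D, hD⟩ := hf N
  refine ⟨(1 + |(n : ℝ)|) ^ N * D, fun k => ?_⟩
  have h2 := hD (n - k)
  have hw := wt_pos k
  have h3 : 1 + |(k : ℝ)| ≤ (1 + |(n : ℝ)|) * (1 + |((n - k : ℤ) : ℝ)|) := by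
    have := wt_shift k (-n)
    have e : |((k + -n : ℤ) : ℝ)| = |((n - k : ℤ) : ℝ)| := by
      push_cast
      rw [show (k : ℝ) + -n = -((n : ℝ) - k) by ring, abs_neg]
    rw [e] at this
    simpa using this
  calc ‖f (n - k)‖ * (1 + |(k : ℝ)|) ^ N
      ≤ ‖f (n - k)‖ * ((1 + |(n : ℝ)|) * (1 + |((n - k : ℤ) : ℝ)|)) ^ N := by gcongr
    _ = (1 + |(n : ℝ)|) ^ N * (‖f (n - k)‖ * (1 + |((n - k : ℤ) : ℝ)|) ^ N) := by
        rw [mul_pow]; ring
    _ ≤ _ := by gcongr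

lemma summable_wt : Summable (fun k : ℤ => ((1 + |(k : ℝ)|) ^ 2)⁻¹) := by
  have h : Summable (fun n : ℕ => ((1 + (n : ℝ)) ^ 2)⁻¹) := by
    have h2 : Summable (fun n : ℕ => (((n : ℝ)) ^ 2)⁻¹) :=
      (Real.summable_nat_pow_inv (p := 2)).mpr (by norm_num)
    have h3 := (summable_nat_add_iff 1).mpr h2
    refine h3.congr fun n => ?_
    push_cast
    rw [add_comm]
  refine Summable.of_nat_of_neg ?_ ?_
  · refine h.congr fun n => ?_
    simp
  · refine h.congr fun n => ?_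
    simp

lemma Rapid.summable {f : ℤ → ℂ} (hf : Rapid f) : Summable f := by
  obtain ⟨D, hD⟩ := hf 2
  refine Summable.of_norm_bounded (g := fun k : ℤ => D * ((1 + |(k : ℝ)|) ^ 2)⁻¹)
    (summable_wt.mul_left D) fun k => ?_
  have h := hD k
  have hw := wt_pos k
  rw [← div_eq_mul_inv, le_div_iff₀ (by positivity)]
  exact h

lemma Rapid.summable_norm {f : ℤ → ℂ} (hf : Rapid f) : Summable (fun k => ‖f k‖) :=
  hf.summable.norm

lemma Rapid.tendsto_zero {f : ℤ → ℂ} (hf : Rapid f) :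
    Filter.Tendsto f Filter.cofinite (nhds 0) := hf.summable.tendsto_cofinite_zero

lemma PolyB.mul {f g : ℤ → ℂ} (hf : PolyB f) (hg : PolyB g) : PolyB (fun k => f k * g k) := by
  obtain ⟨M, C, hC⟩ := hf
  obtain ⟨N, D, hD⟩ := hg
  refine ⟨M + N, |C| * |D|, fun k => ?_⟩
  have hw := wt_pos k
  rw [norm_mul, pow_add]
  have h1 : ‖f k‖ ≤ |C| * (1 + |(k : ℝ)|) ^ M :=
    (hC k).trans (mul_le_mul_of_nonneg_right (le_abs_self C) (by positivity))
  have h2 : ‖g k‖ ≤ |D| * (1 + |(k : ℝ)|) ^ N :=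
    (hD k).trans (mul_le_mul_of_nonneg_right (le_abs_self D) (by positivity))
  calc ‖f k‖ * ‖g k‖ ≤ (|C| * (1 + |(k : ℝ)|) ^ M) * (|D| * (1 + |(k : ℝ)|) ^ N) := by gcongr
    _ = _ := by ring

lemma PolyB.add {f g : ℤ → ℂ} (hf : PolyB f) (hg : PolyB g) : PolyB (fun k => f k + g k) := by
  obtain ⟨M, C, hC⟩ := hf
  obtain ⟨N, D, hD⟩ := hg
  refine ⟨M + N, |C| + |D|, fun k => ?_⟩
  have hw := one_le_wt k
  have h1 : ‖f k‖ ≤ |C| * (1 + |(k : ℝ)|) ^ (M + N) :=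
    (hC k).trans ((mul_le_mul_of_nonneg_right (le_abs_self C) (by positivity)).trans
      (mul_le_mul_of_nonneg_left (pow_le_pow_right₀ hw (by omega)) (abs_nonneg C)))
  have h2 : ‖g k‖ ≤ |D| * (1 + |(k : ℝ)|) ^ (M + N) :=
    (hD k).trans ((mul_le_mul_of_nonneg_right (le_abs_self D) (by positivity)).trans
      (mul_le_mul_of_nonneg_left (pow_le_pow_right₀ hw (by omega)) (abs_nonneg D)))
  calc ‖f k + g k‖ ≤ ‖f k‖ + ‖g k‖ := norm_add_le _ _
    _ ≤ _ := by rw [add_mul]; exact add_le_add h1 h2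

lemma polyB_const (c : ℂ) : PolyB (fun _ => c) := ⟨0, ‖c‖, fun k => by simp⟩

lemma polyB_hs : PolyB hs := by
  refine ⟨1, 1, fun k => ?_⟩
  unfold hs
  calc ‖(k : ℂ) + 1 / 2‖ ≤ ‖(k : ℂ)‖ + ‖(1 / 2 : ℂ)‖ := norm_add_le _ _
    _ ≤ 1 * (1 + |(k : ℝ)|) ^ 1 := by
      have : ‖(k : ℂ)‖ = |(k : ℝ)| := by
        rw [← Complex.ofReal_intCast, Complex.norm_real, Real.norm_eq_abs]
      rw [this]
      norm_num
      have := abs_nonneg (k : ℝ)
      linarith

lemma polyB_sum {ι : Type*} (S : Finset ι) (F : ι → ℤ → ℂ) (h : ∀ i ∈ S, PolyB (F i)) :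
    PolyB (fun k => ∑ i ∈ S, F i k) := by
  classical
  induction S using Finset.induction_on with
  | empty => simpa using polyB_const 0
  | insert a S ha ih =>
    have h1 := h a (mem_insert_self a S)
    have h2 := ih fun i hi => h i (mem_insert_of_mem hi)
    have := h1.add h2
    simpa [sum_insert ha] using this

lemma norm_hs_add_ge (k j : ℤ) : (1 / 2 : ℝ) ≤ ‖hs k + (j : ℂ)‖ := by
  unfold hs
  have h1 : (k : ℂ) + 1 / 2 + (j : ℂ) = (((k + j : ℤ) : ℝ) + 1 / 2 : ℝ) := by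
    push_cast; ring
  rw [h1, Complex.norm_real, Real.norm_eq_abs]
  rcases le_or_gt 0 (k + j) with h | h
  · have : (0 : ℝ) ≤ ((k + j : ℤ) : ℝ) := by exact_mod_cast h
    rw [abs_of_nonneg (by linarith)]
    linarith
  · have : ((k + j : ℤ) : ℝ) ≤ -1 := by exact_mod_cast (by omega : k + j ≤ -1)
    rw [abs_of_nonpos (by linarith)]
    linarith

lemma polyB_inv_hs_add (c : ℂ) (j : ℤ) : PolyB (fun k => c / (hs k + (j : ℂ))) := by
  refine ⟨0, 2 * ‖c‖, fun k => ?_⟩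
  rw [norm_div, pow_zero, mul_one]
  have h := norm_hs_add_ge k j
  rw [div_le_iff₀ (by linarith)]
  nlinarith [norm_nonneg c]

lemma polyB_ch (r : ℕ) (lam m : ℂ) (i : ℤ) : PolyB (fun k => ch r lam m (hs k + (i : ℂ))) := by
  unfold ch
  refine polyB_sum _ _ fun j _ => ?_
  have := polyB_inv_hs_add (chj r lam m j) (i + j)
  refine (show (fun k => chj r lam m j / (hs k + (i : ℂ) + (j : ℂ))) = _ from ?_) ▸ this
  funext k
  push_cast
  rw [add_assoc]

lemma polyB_cb (r : ℕ) (lam m : ℂ) (i : ℤ) : PolyB (fun k => cb r lam m (hs k + (i : ℂ))) := by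
  unfold cb
  refine (polyB_const _).add (polyB_sum _ _ fun j _ => ?_)
  have := polyB_inv_hs_add (cbj r lam m j) (i + j)
  refine (show (fun k => cbj r lam m j / (hs k + (i : ℂ) + (j : ℂ))) = _ from ?_) ▸ this
  funext k
  push_cast
  rw [add_assoc]

lemma tsum_shift_sub {Z : ℤ → ℂ} (hZ : Rapid Z) : ∑' k, (Z k - Z (k - 1)) = 0 := by
  have h1 : Summable Z := hZ.summable
  have h2 : Summable (fun k => Z (k - 1)) := (hZ.shift (-1)).summable
  rw [h1.tsum_sub h2]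
  have : ∑' k, Z (k - 1) = ∑' k, Z k := (Equiv.subRight (1 : ℤ)).tsum_eq Z
  rw [this, sub_self]

section main

variable (r : ℕ) (lam q : ℂ) (f w : ℤ → ℂ)

/-- `U_k`. -/
noncomputable def sU (k : ℤ) : ℂ := w k * f k ^ 2

/-- `V_k`. -/
noncomputable def sV (k : ℤ) : ℂ := q * w k * (hs k + r) * f k * f (k + 1)

/-- telescoping primitive. -/
noncomputable def sZ (k : ℤ) : ℂ :=
  sV r q f w k * cb r lam (q ^ 2) (hs k + 1)
    - q ^ 2 * (w k * (hs k + r) * (hs k + 1 + r) * ch r lam (q ^ 2) (hs k + 1) * f k * f (k + 2))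
    - q ^ 2 * (hs k * (hs k + r)) * ch r lam (q ^ 2) (hs k) * sU f w (k + 1)

variable (hw : ∀ k, w (k + 1) * hs k = -(w k * (hs k + r)))
  (hH : ∀ k, fA r lam (hs k) * f k + q * (hs k - 1) * f (k - 1) - q * (hs k + r) * f (k + 1) = 0)

include hw hH

lemma telescope (k : ℤ) :
    sV r q f w k * (2 * cD r lam (q ^ 2) * (1 / hs k - 1 / (hs k + r)))
      - sU f w k * (2 * cdm r lam (q ^ 2) (r + 1)
          + cdl r lam (q ^ 2) (r + 1) * fA r lam (hs k))
      = sZ r lam q f w k - sZ r lam q f w (k - 1) := by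
  have hi := func_i r lam (q ^ 2) (s := hs k) (fun j => hs_add_nat_ne k j)
  have hii := func_ii r lam (q ^ 2) (s := hs k) (fun j => hs_add_nat_ne k j)
    (fun j => by rw [← hs_sub_one]; exact hs_add_nat_ne (k - 1) j)
  have h0 := hH k
  have h1 := hH (k + 1)
  rw [hs_add_one, show k + 1 - 1 = k by ring, show k + 1 + 1 = k + 2 by ring,
    show hs k + 1 - 1 = hs k by ring] at h1
  have hwm := hw (k - 1)
  rw [hs_sub_one, show k - 1 + 1 = k by ring] at hwm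
  have hwp := hw k
  rw [← hi, ← hii]
  unfold sZ sV sU
  rw [hs_sub_one, show k - 1 + 1 = k by ring, show k - 1 + 2 = k + 1 by ring,
    show hs k - 1 + 1 = hs k by ring]
  linear_combination (-(w k * f k * cb r lam (q ^ 2) (hs k))
      + q * w k * (hs k + r) * ch r lam (q ^ 2) (hs k) * f (k + 1)) * h0
    + (q * f k * f (k - 1) * cb r lam (q ^ 2) (hs k)
      - q ^ 2 * (hs k + r) * ch r lam (q ^ 2) (hs k) * f (k - 1) * f (k + 1)) * hwm
    + (q ^ 2 * (hs k + r) * ch r lam (q ^ 2) (hs k) * f (k + 1) ^ 2) * hwp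
    - (q * w k * (hs k + r) * f k * ch r lam (q ^ 2) (hs k + 1)) * h1

lemma AU_eq (k : ℤ) :
    fA r lam (hs k) * sU f w k = sV r q f w (k - 1) + sV r q f w k := by
  have h0 := hH k
  have hwm := hw (k - 1)
  rw [hs_sub_one, show k - 1 + 1 = k by ring] at hwm
  unfold sV sU
  rw [hs_sub_one, show k - 1 + 1 = k by ring]
  linear_combination w k * f k * h0 - q * f k * f (k - 1) * hwm

variable (hf : Rapid f) (hwB : PolyB w)

include hf hwB

omit hw hH in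
lemma rapid_U : Rapid (sU f w) := by
  have h := (hf.mul hf).mul_polyB hwB
  refine (show (sU f w) = _ from ?_) ▸ h
  funext k
  unfold sU
  ring

omit hw hH in
lemma rapid_V : Rapid (sV r q f w) := by
  have h := ((hf.shift 1).mul hf).mul_polyB
    ((hwB.mul ((polyB_hs).add (polyB_const (r : ℂ)))).mul (polyB_const q))
  refine (show (sV r q f w) = _ from ?_) ▸ h
  funext k
  unfold sV
  ring

omit hw hH in
lemma rapid_Z : Rapid (sZ r lam q f w) := by
  have hV := rapid_V r q f w hf hwB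
  have hU := rapid_U f w hf hwB
  have h1 : Rapid (fun k => cb r lam (q ^ 2) (hs k + ((1 : ℤ) : ℂ)) * sV r q f w k) :=
    hV.mul_polyB (polyB_cb r lam (q ^ 2) 1)
  have h2 : Rapid (fun k => (-(q ^ 2)) * (w k * (hs k + r) * (hs k + (1 + r))
      * ch r lam (q ^ 2) (hs k + ((1 : ℤ) : ℂ))) * (f k * f (k + 2))) :=
    ((hf.shift 2).mul hf).mul_polyB ((polyB_const (-(q ^ 2))).mul
      (((hwB.mul ((polyB_hs).add (polyB_const (r : ℂ)))).mul
        ((polyB_hs).add (polyB_const (1 + r : ℂ)))).mul (polyB_ch r lam (q ^ 2) 1)))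
  have h3 : Rapid (fun k => (-(q ^ 2)) * (hs k * (hs k + r)
      * ch r lam (q ^ 2) (hs k + ((0 : ℤ) : ℂ))) * sU f w (k + 1)) :=
    (hU.shift 1).mul_polyB ((polyB_const (-(q ^ 2))).mul
      ((polyB_hs.mul ((polyB_hs).add (polyB_const (r : ℂ)))).mul (polyB_ch r lam (q ^ 2) 0)))
  intro N
  obtain ⟨C1, hC1⟩ := h1 N
  obtain ⟨C2, hC2⟩ := h2 N
  obtain ⟨C3, hC3⟩ := h3 N
  refine ⟨C1 + C2 + C3, fun k => ?_⟩
  have e : sZ r lam q f w k
      = cb r lam (q ^ 2) (hs k + ((1 : ℤ) : ℂ)) * sV r q f w k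
      + (-(q ^ 2)) * (w k * (hs k + r) * (hs k + (1 + r))
      * ch r lam (q ^ 2) (hs k + ((1 : ℤ) : ℂ))) * (f k * f (k + 2))
      + (-(q ^ 2)) * (hs k * (hs k + r)
      * ch r lam (q ^ 2) (hs k + ((0 : ℤ) : ℂ))) * sU f w (k + 1) := by
    unfold sZ
    push_cast
    rw [add_zero]
    ring
  rw [e]
  have hw' := wt_pos k
  have hp : 0 ≤ (1 + |(k : ℝ)|) ^ N := by positivity
  calc _ ≤ (‖cb r lam (q ^ 2) (hs k + ((1 : ℤ) : ℂ)) * sV r q f w k‖
      + ‖(-(q ^ 2)) * (w k * (hs k + r) * (hs k + (1 + r))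
      * ch r lam (q ^ 2) (hs k + ((1 : ℤ) : ℂ))) * (f k * f (k + 2))‖
      + ‖(-(q ^ 2)) * (hs k * (hs k + r)
      * ch r lam (q ^ 2) (hs k + ((0 : ℤ) : ℂ))) * sU f w (k + 1)‖) * (1 + |(k : ℝ)|) ^ N :=
        mul_le_mul_of_nonneg_right (norm_add₃_le) hp
    _ ≤ C1 + C2 + C3 := by
        have a1 := hC1 k
        have a2 := hC2 k
        have a3 := hC3 k
        simp only at a1 a2 a3
        linarith

/-- The summed identity. -/
theorem sum_identity :
    cdl r lam (q ^ 2) (r + 1) * ∑' k, sV r q f w k + cdm r lam (q ^ 2) (r + 1) * ∑' k, sU f w k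
      = cD r lam (q ^ 2) * (q * r * ∑' k, w k / hs k * f k * f (k + 1)) := by
  have hV := (rapid_V r q f w hf hwB)
  have hU := (rapid_U f w hf hwB)
  have hZ := (rapid_Z r lam q f w hf hwB)
  have hW : Rapid (fun k => w k / hs k * f k * f (k + 1)) := by
    have h := ((hf.shift 1).mul hf).mul_polyB
      (hwB.mul (polyB_inv_hs_add 1 0))
    refine (show (fun k => w k / hs k * f k * f (k + 1)) = _ from ?_) ▸ h
    funext k
    push_cast
    rw [add_zero]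
    ring
  have key : ∀ k, sZ r lam q f w k - sZ r lam q f w (k - 1)
      = 2 * cD r lam (q ^ 2) * (q * r) * (w k / hs k * f k * f (k + 1))
        - (2 * cdm r lam (q ^ 2) (r + 1) * sU f w k
          + cdl r lam (q ^ 2) (r + 1) * (sV r q f w (k - 1) + sV r q f w k)) := by
    intro k
    rw [← telescope r lam q f w hw hH k, ← AU_eq r lam q f w hw hH k]
    have hne := hs_ne k
    have hne2 := hs_add_nat_ne k r
    unfold sV
    field_simp
    ring
  have h0 := tsum_shift_sub hZ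
  have hV1 : Summable (fun k => sV r q f w (k - 1)) := (hV.shift (-1)).summable
  have hVs : ∑' k, sV r q f w (k - 1) = ∑' k, sV r q f w k :=
    (Equiv.subRight (1 : ℤ)).tsum_eq (sV r q f w)
  rw [tsum_congr key] at h0
  rw [Summable.tsum_sub (hW.summable.mul_left _) ((hU.summable.mul_left _).add
    ((hV1.add hV.summable).mul_left _)), Summable.tsum_add (hU.summable.mul_left _)
    ((hV1.add hV.summable).mul_left _), tsum_mul_left, tsum_mul_left, tsum_mul_left,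
    hV1.tsum_add hV.summable, hVs] at h0
  linear_combination (-1 / 2) * h0

end main

end Pool.Agent.Helper96.Josephson
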