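import Mathlib
import Pool.Agent.Helper96.Josephson.Seq

/-!
The two first order nonlocal recurrences and the final sequence identity.
-/

namespace Pool.Agent.Helper96.Josephson

open Finset

/-- `w_k = (-1)^k s_k (s_k+1) ... (s_k + r - 1)`. -/
noncomputable def wt (r : ℕ) (k : ℤ) : ℂ := (-1 : ℂ) ^ k * ∏ i ∈ range r, (hs k + (i : ℂ))

lemma wt_rec (r : ℕ) (k : ℤ) : wt r (k + 1) * hs k = -(wt r k * (hs k + r)) := by
  unfold wt
  have h1 : (∏ i ∈ range r, (hs (k + 1) + (i : ℂ))) * hs k
      = (∏ i ∈ range r, (hs k + (i : ℂ))) * (hs k + r) := by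
    have e1 := prod_range_succ' (fun i : ℕ => hs k + (i : ℂ)) r
    have e2 := prod_range_succ (fun i : ℕ => hs k + (i : ℂ)) r
    rw [e2] at e1
    rw [e1, Nat.cast_zero, add_zero]
    congr 1
    refine prod_congr rfl fun i _ => ?_
    rw [hs_add_one]
    push_cast
    ring
  rw [zpow_add₀ (by norm_num : (-1 : ℂ) ≠ 0), zpow_one]
  linear_combination (-(-1 : ℂ) ^ k) * h1

lemma wt_reflect (r : ℕ) (k : ℤ) : wt r (-r - 1 - k) = wt r (k + 1) := by
  unfold wt
  have h1 : ∏ i ∈ range r, (hs (-r - 1 - k) + (i : ℂ))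
      = (-1 : ℂ) ^ r * ∏ i ∈ range r, (hs (k + 1) + (i : ℂ)) := by
    rw [← prod_range_reflect]
    have : (-1 : ℂ) ^ r = ∏ _i ∈ range r, (-1 : ℂ) := by simp
    rw [this, ← prod_mul_distrib]
    refine prod_congr rfl fun i hi => ?_
    have hi' := mem_range.mp hi
    have : ((r - 1 - i : ℕ) : ℂ) = (r : ℂ) - 1 - i := by
      rw [Nat.cast_sub (by omega), Nat.cast_sub (by omega)]
      simp
    rw [this]
    unfold hs
    push_cast
    ring
  rw [h1, ← mul_assoc]
  congr 1
  rw [← zpow_natCast, ← zpow_add₀ (by norm_num : (-1 : ℂ) ≠ 0)]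
  rw [show (-(r : ℤ) - 1 - k + (r : ℤ)) = -(k + 1) by ring, zpow_neg]
  rcases Int.even_or_odd (k + 1) with h | h
  · rw [h.neg_one_zpow]; norm_num
  · rw [h.neg_one_zpow]; norm_num

lemma wt_ne (r : ℕ) (k : ℤ) : wt r k ≠ 0 := by
  unfold wt
  refine mul_ne_zero (zpow_ne_zero _ (by norm_num)) ?_
  exact prod_ne_zero_iff.mpr fun i _ => hs_add_nat_ne k i

lemma polyB_prod {ι : Type*} (S : Finset ι) (F : ι → ℤ → ℂ) (h : ∀ i ∈ S, PolyB (F i)) :
    PolyB (fun k => ∏ i ∈ S, F i k) := by
  classical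
  induction S using Finset.induction_on with
  | empty => simpa using polyB_const 1
  | insert a S ha ih =>
    have h1 := h a (mem_insert_self a S)
    have h2 := ih fun i hi => h i (mem_insert_of_mem hi)
    have := h1.mul h2
    simpa [prod_insert ha] using this

lemma polyB_wt (r : ℕ) : PolyB (wt r) := by
  unfold wt
  refine PolyB.mul ⟨0, 1, fun k => ?_⟩ (polyB_prod _ _ fun i _ => polyB_hs.add (polyB_const _))
  simp

section rel

variable (r : ℕ) (al q : ℂ)

/-- first recurrence. -/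
def RecF (f : ℤ → ℂ) : Prop := ∀ k, hs k * f k - q * f (k + 1) = -(al / 2 * f (-r - 1 - k))

/-- second recurrence. -/
def RecG (g : ℤ → ℂ) : Prop := ∀ k, hs k * g k - q * g (k - 1) = -(al / 2 * g (-r - 1 - k))

variable {r al q}

lemma hs_reflect (k : ℤ) : hs (-r - 1 - k) = -(hs k + r) := by
  unfold hs; push_cast; ring

lemma RecF.second {f : ℤ → ℂ} (hf : RecF r al q f) (k : ℤ) :
    fA r (al ^ 2 / 4 - q ^ 2) (hs k) * f k + q * (hs k - 1) * f (k - 1)
      - q * (hs k + r) * f (k + 1) = 0 := by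
  have h1 := hf k
  have h2 := hf (-r - 1 - k)
  have h3 := hf (k - 1)
  rw [hs_reflect, show -(r : ℤ) - 1 - (-r - 1 - k) = k by ring,
    show -(r : ℤ) - 1 - k + 1 = -r - 1 - (k - 1) by ring] at h2
  rw [hs_sub_one, show k - 1 + 1 = k by ring] at h3
  unfold fA
  linear_combination (hs k + r) * h1 + (al / 2) * h2 + q * h3

lemma RecG.second {g : ℤ → ℂ} (hg : RecG r al q g) (k : ℤ) :
    fA r (al ^ 2 / 4 - q ^ 2) (hs k) * g k + q * (hs k + 1) * g (k + 1)
      - q * (hs k + r) * g (k - 1) = 0 := by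
  have h1 := hg k
  have h2 := hg (-r - 1 - k)
  have h3 := hg (k + 1)
  rw [hs_reflect, show -(r : ℤ) - 1 - (-r - 1 - k) = k by ring,
    show -(r : ℤ) - 1 - k - 1 = -r - 1 - (k + 1) by ring] at h2
  rw [hs_add_one, show k + 1 - 1 = k by ring] at h3
  unfold fA
  linear_combination (hs k + r) * h1 + (al / 2) * h2 + q * h3

/-- `G_k = w_{k*} f_{k*}` satisfies the second recurrence. -/
lemma RecF.toG {f : ℤ → ℂ} (hf : RecF r al q f) :
    RecG r al q (fun k => wt r (k + 1) * f (-r - 1 - k)) := by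
  intro k
  have h2 := hf (-r - 1 - k)
  rw [hs_reflect, show -(r : ℤ) - 1 - (-r - 1 - k) = k by ring,
    show -(r : ℤ) - 1 - k + 1 = -r - 1 - (k - 1) by ring] at h2
  have h3 := wt_rec r k
  have h4 : wt r (-(r : ℤ) - 1 - k + 1) = wt r k := by
    have := wt_reflect r (k - 1)
    rw [show k - 1 + 1 = k by ring] at this
    rw [← this]
    congr 1
    ring
  simp only
  rw [show k - 1 + 1 = k by ring, h4, show -(r : ℤ) - 1 - (-r - 1 - k) = k by ring]
  linear_combination (wt r k) * h2 + f (-r - 1 - k) * h3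

lemma RecG.casoratian {g G : ℤ → ℂ} (hq : q ≠ 0) (hg : RecG r al q g) (hG : RecG r al q G)
    (k : ℤ) :
    (hs k + 1) * (G (k + 1) * g k - G k * g (k + 1))
      = -((hs k + r) * (G k * g (k - 1) - G (k - 1) * g k)) := by
  have h1 := hg.second k
  have h2 := hG.second k
  apply mul_left_cancel₀ hq
  linear_combination g k * h2 - G k * h1

lemma abs_hs_ratio (hr : 1 ≤ r) (n : ℕ) : ‖hs (n : ℤ) + 1‖ ≤ ‖hs (n : ℤ) + r‖ := by
  unfold hs
  have h1 : (((n : ℤ) : ℂ)) + 1 / 2 + 1 = (((n : ℝ) + 1 / 2 + 1 : ℝ) : ℂ) := by push_cast; ring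
  have h2 : (((n : ℤ) : ℂ)) + 1 / 2 + r = (((n : ℝ) + 1 / 2 + r : ℝ) : ℂ) := by push_cast; ring
  rw [h1, h2, Complex.norm_real, Complex.norm_real, Real.norm_eq_abs, Real.norm_eq_abs]
  have : (1 : ℝ) ≤ r := by exact_mod_cast hr
  have h0 : (0 : ℝ) ≤ n := Nat.cast_nonneg n
  rw [abs_of_nonneg (by positivity), abs_of_nonneg (by positivity)]
  linarith

/-- The Casoratian of two decaying solutions vanishes. -/
lemma RecG.casoratian_zero {g G : ℤ → ℂ} (hr : 1 ≤ r) (hq : q ≠ 0) (hg : RecG r al q g)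
    (hG : RecG r al q G) (hgR : Rapid g) (hGR : Rapid G) :
    ∀ k : ℤ, G k * g (k - 1) - G (k - 1) * g k = 0 := by
  set C : ℤ → ℂ := fun k => G k * g (k - 1) - G (k - 1) * g k with hC
  have hrec : ∀ k, (hs k + 1) * C (k + 1) = -((hs k + r) * C k) := by
    intro k
    have := hg.casoratian hq hG k
    simp only [hC]
    rw [show k + 1 - 1 = k by ring]
    exact this
  have hCR : Filter.Tendsto C Filter.cofinite (nhds 0) := by
    have h1 : Rapid (fun k => G k * g (k - 1)) := (hgR.shift (-1)).mul hGR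
    have h2 : Rapid (fun k => G (k - 1) * g k) := hgR.mul (hGR.shift (-1))
    have := h1.tendsto_zero.sub h2.tendsto_zero
    simpa using this
  have hne1 : ∀ k : ℤ, hs k + 1 ≠ 0 := fun k => by simpa using hs_add_nat_ne k 1
  have hner : ∀ k : ℤ, hs k + (r : ℂ) ≠ 0 := fun k => hs_add_nat_ne k r
  -- growth
  have hmono : ∀ n : ℕ, ‖C 0‖ ≤ ‖C n‖ := by
    intro n
    induction n with
    | zero => simp
    | succ n ih =>
      have h := congrArg norm (hrec n)
      rw [norm_mul, norm_neg, norm_mul] at h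
      have h1 := abs_hs_ratio hr n
      have h2 : 0 < ‖hs (n : ℤ) + 1‖ := norm_pos_iff.mpr (hne1 n)
      have h3 : ‖hs (n : ℤ) + 1‖ * ‖C n‖ ≤ ‖hs (n : ℤ) + 1‖ * ‖C (n + 1)‖ := by
        rw [h]
        exact mul_le_mul_of_nonneg_right h1 (norm_nonneg _)
      have h4 := le_of_mul_le_mul_left h3 h2
      push_cast
      exact ih.trans h4
  have hC0 : C 0 = 0 := by
    have hinj : Filter.Tendsto (fun n : ℕ => (n : ℤ)) Filter.atTop Filter.cofinite := by
      rw [← Nat.cofinite_eq_atTop]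
      exact Nat.cast_injective.tendsto_cofinite
    have h1 : Filter.Tendsto (fun n : ℕ => ‖C n‖) Filter.atTop (nhds 0) := by
      simpa using (hCR.comp hinj).norm
    have h2 : ‖C 0‖ ≤ 0 := ge_of_tendsto' h1 hmono
    exact norm_le_zero_iff.mp h2
  have hstep : ∀ k, C k = 0 ↔ C (k + 1) = 0 := by
    intro k
    constructor
    · intro h
      have := hrec k
      rw [h, mul_zero, neg_zero] at this
      exact (mul_eq_zero.mp this).resolve_left (hne1 k)
    · intro h
      have := hrec k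
      rw [h, mul_zero] at this
      exact (mul_eq_zero.mp (neg_eq_zero.mp this.symm)).resolve_left (hner k)
  intro k
  have hall : ∀ k, C k = 0 := by
    intro k
    induction k using Int.induction_on with
    | zero => exact hC0
    | succ n ih => exact (hstep _).mp ih
    | pred n ih =>
      refine (hstep _).mpr ?_
      rw [show -(n : ℤ) - 1 + 1 = -n by ring]
      exact ih
  exact hall k

/-- Proportionality. -/
lemma RecG.proportional {g G : ℤ → ℂ} (hr : 1 ≤ r) (hq : q ≠ 0) (hg : RecG r al q g)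
    (hG : RecG r al q G) (hgR : Rapid g) (hGR : Rapid G) {k0 : ℤ} (hk0 : G k0 ≠ 0) :
    ∃ kap : ℂ, ∀ k, g k = kap * G k := by
  have hC := RecG.casoratian_zero hr hq hg hG hgR hGR
  refine ⟨g k0 / G k0, ?_⟩
  set kap := g k0 / G k0 with hkap
  set D : ℤ → ℂ := fun k => g k - kap * G k with hD
  have hDk0 : D k0 = 0 := by
    simp only [hD, hkap]
    field_simp
    ring
  have hDC : ∀ k, G k * D (k - 1) - G (k - 1) * D k = 0 := by
    intro k
    simp only [hD]
    linear_combination hC k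
  have hD2 : ∀ k, fA r (al ^ 2 / 4 - q ^ 2) (hs k) * D k + q * (hs k + 1) * D (k + 1)
      - q * (hs k + r) * D (k - 1) = 0 := by
    intro k
    have h1 := hg.second k
    have h2 := hG.second k
    simp only [hD]
    linear_combination h1 - kap * h2
  have hne1 : ∀ k : ℤ, q * (hs k + 1) ≠ 0 := fun k =>
    mul_ne_zero hq (by simpa using hs_add_nat_ne k 1)
  have hner : ∀ k : ℤ, q * (hs k + (r : ℂ)) ≠ 0 := fun k => mul_ne_zero hq (hs_add_nat_ne k r)
  have hm1 : D (k0 - 1) = 0 := by
    have := hDC k0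
    rw [hDk0, mul_zero, sub_zero] at this
    exact (mul_eq_zero.mp this).resolve_left hk0
  have hp1 : D (k0 + 1) = 0 := by
    have := hDC (k0 + 1)
    rw [show k0 + 1 - 1 = k0 by ring, hDk0, mul_zero, zero_sub, neg_eq_zero] at this
    exact (mul_eq_zero.mp this).resolve_left hk0
  -- two-sided induction
  have hup : ∀ n : ℕ, D (k0 + n) = 0 ∧ D (k0 + n + 1) = 0 := by
    intro n
    induction n with
    | zero => exact ⟨by simpa using hDk0, by simpa using hp1⟩
    | succ n ih =>
      obtain ⟨h1, h2⟩ := ih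
      refine ⟨by push_cast; rw [← add_assoc]; exact h2, ?_⟩
      have := hD2 (k0 + n + 1)
      rw [h2, show k0 + n + 1 - 1 = k0 + n by ring, h1, mul_zero, mul_zero, zero_add,
        sub_zero] at this
      push_cast
      rw [← add_assoc]
      exact (mul_eq_zero.mp this).resolve_left (hne1 _)
  have hdown : ∀ n : ℕ, D (k0 - n) = 0 ∧ D (k0 - n - 1) = 0 := by
    intro n
    induction n with
    | zero => exact ⟨by simpa using hDk0, by simpa using hm1⟩
    | succ n ih =>
      obtain ⟨h1, h2⟩ := ih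
      refine ⟨by push_cast; rw [← sub_sub]; exact h2, ?_⟩
      have := hD2 (k0 - n - 1)
      rw [h2, show k0 - n - 1 + 1 = k0 - n by ring, h1, mul_zero, mul_zero, zero_add,
        zero_sub, neg_eq_zero] at this
      push_cast
      rw [← sub_sub]
      exact (mul_eq_zero.mp this).resolve_left (hner _)
  intro k
  have : D k = 0 := by
    rcases le_total k0 k with h | h
    · have := (hup (k - k0).toNat).1
      rwa [Int.toNat_of_nonneg (by omega), show k0 + (k - k0) = k by ring] at this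
    · have := (hdown (k0 - k).toNat).1
      rwa [Int.toNat_of_nonneg (by omega), show k0 - (k0 - k) = k by ring] at this
  simp only [hD] at this
  exact sub_eq_zero.mp this

theorem seq_final (hr : 1 ≤ r) (hq : q ≠ 0) {f g : ℤ → ℂ}
    (hf : RecF r al q f) (hg : RecG r al q g) (hfR : Rapid f) (hgR : Rapid g) :
    al * q * cdl r (al ^ 2 / 4 - q ^ 2) (q ^ 2) (r + 1) * (∑' k, g k * f (k + 1))
      + 2 * (cdm r (al ^ 2 / 4 - q ^ 2) (q ^ 2) (r + 1)
          - q ^ 2 * cdl r (al ^ 2 / 4 - q ^ 2) (q ^ 2) (r + 1)) * (∑' k, f k * g (-r - 1 - k))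
      + 2 * q * cD r (al ^ 2 / 4 - q ^ 2) (q ^ 2)
          * (∑' k, f k * (g (-r - 1 - k - 1) + g (-r - 1 - k + 1))) = 0 := by
  by_cases hf0 : ∀ k, f k = 0
  · simp [hf0]
  push Not at hf0
  obtain ⟨k1, hk1⟩ := hf0
  set G : ℤ → ℂ := fun k => wt r (k + 1) * f (-r - 1 - k) with hGdef
  have hG : RecG r al q G := hf.toG
  have hGR : Rapid G := by
    have h1 : Rapid (fun k : ℤ => wt r k * f (-r - k)) :=
      (hfR.reflect (-r)).mul_polyB (polyB_wt r)
    have h2 := h1.shift 1
    refine (show G = _ from ?_) ▸ h2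
    funext k
    simp only [hGdef]
    congr 2
    ring
  have hGk : G (-r - 1 - k1) ≠ 0 := by
    simp only [hGdef]
    rw [show -(r : ℤ) - 1 - (-r - 1 - k1) = k1 by ring]
    exact mul_ne_zero (wt_ne r _) hk1
  obtain ⟨kap, hkap⟩ := RecG.proportional hr hq hg hG hgR hGR hGk
  have hgs : ∀ k, g (-r - 1 - k) = kap * (wt r k * f k) := by
    intro k
    rw [hkap]
    simp only [hGdef]
    rw [show -(r : ℤ) - 1 - (-r - 1 - k) = k by ring]
    have := wt_reflect r (k - 1)
    rw [show k - 1 + 1 = k by ring, show -(r : ℤ) - 1 - (k - 1) = -r - 1 - k + 1 by ring] at this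
    rw [this]
  have hwB := polyB_wt r
  have hH := hf.second
  have hU := rapid_U f (wt r) hfR hwB
  have hV := rapid_V r q f (wt r) hfR hwB
  have hid := sum_identity r (al ^ 2 / 4 - q ^ 2) q f (wt r) (wt_rec r) hH hfR hwB
  -- second sum
  have hJ : ∑' k, f k * g (-r - 1 - k) = kap * ∑' k, sU f (wt r) k := by
    rw [← tsum_mul_left]
    refine tsum_congr fun k => ?_
    rw [hgs]
    unfold sU
    ring
  -- first sum
  have hC : al * q * (∑' k, g k * f (k + 1))
      = 2 * kap * (q ^ 2 * ∑' k, sU f (wt r) k + ∑' k, sV r q f (wt r) k) := by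
    have e1 : ∑' k, g k * f (k + 1) = ∑' k, g (-r - 1 - k) * f (-r - 1 - k + 1) :=
      ((Equiv.subLeft (-(r : ℤ) - 1)).tsum_eq (fun k => g k * f (k + 1))).symm
    have hVs : ∑' k, sV r q f (wt r) (k - 1) = ∑' k, sV r q f (wt r) k :=
      (Equiv.subRight (1 : ℤ)).tsum_eq (sV r q f (wt r))
    have hV1 : Summable (fun k => sV r q f (wt r) (k - 1)) := (hV.shift (-1)).summable
    rw [e1, ← hVs, ← tsum_mul_left, ← tsum_mul_left, ← (hU.summable.mul_left _).tsum_add hV1,
      ← tsum_mul_left]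
    refine tsum_congr fun k => ?_
    rw [hgs]
    have h3 := hf (k - 1)
    rw [hs_sub_one, show k - 1 + 1 = k by ring,
      show -(r : ℤ) - 1 - (k - 1) = -r - 1 - k + 1 by ring] at h3
    have h4 := wt_rec r (k - 1)
    rw [hs_sub_one, show k - 1 + 1 = k by ring] at h4
    unfold sU sV
    rw [hs_sub_one, show k - 1 + 1 = k by ring]
    linear_combination (2 * q * kap * wt r k * f k) * h3 - (2 * q * kap * f k * f (k - 1)) * h4
  -- third sum
  have hW : Rapid (fun k => wt r k / hs k * f k * f (k + 1)) := by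
    have h := ((hfR.shift 1).mul hfR).mul_polyB (hwB.mul (polyB_inv_hs_add 1 0))
    refine (show (fun k => wt r k / hs k * f k * f (k + 1)) = _ from ?_) ▸ h
    funext k
    push_cast
    rw [add_zero]
    ring
  have hD : ∑' k, f k * (g (-r - 1 - k - 1) + g (-r - 1 - k + 1))
      = -(kap * r * ∑' k, wt r k / hs k * f k * f (k + 1)) := by
    have hA1 : Rapid (fun k => wt r (k + 1) * f k * f (k + 1)) := by
      have h := ((hfR.mul_polyB hwB).shift 1).mul hfR
      refine (show (fun k => wt r (k + 1) * f k * f (k + 1)) = _ from ?_) ▸ h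
      funext k
      ring
    have hA2 : Rapid (fun k => wt r k * f k * f (k + 1)) := by
      have h := ((hfR.shift 1).mul hfR).mul_polyB hwB
      refine (show (fun k => wt r k * f k * f (k + 1)) = _ from ?_) ▸ h
      funext k
      ring
    have hA3 : Summable (fun k => wt r (k - 1) * f (k - 1) * f (k - 1 + 1)) :=
      (hA2.shift (-1)).summable
    have e2 : ∑' k, wt r (k - 1) * f (k - 1) * f (k - 1 + 1)
        = ∑' k, wt r k * f k * f (k + 1) :=
      (Equiv.subRight (1 : ℤ)).tsum_eq (fun k => wt r k * f k * f (k + 1))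
    have e3 : ∀ k, f k * (g (-r - 1 - k - 1) + g (-r - 1 - k + 1))
        = kap * (wt r (k + 1) * f k * f (k + 1) + wt r (k - 1) * f (k - 1) * f (k - 1 + 1)) := by
      intro k
      rw [show -(r : ℤ) - 1 - k - 1 = -r - 1 - (k + 1) by ring,
        show -(r : ℤ) - 1 - k + 1 = -r - 1 - (k - 1) by ring, hgs, hgs,
        show k - 1 + 1 = k by ring]
      ring
    rw [tsum_congr e3, tsum_mul_left, hA1.summable.tsum_add hA3, e2,
      ← hA1.summable.tsum_add hA2.summable, mul_assoc, ← mul_neg]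
    congr 1
    rw [← tsum_mul_left, ← tsum_neg]
    refine tsum_congr fun k => ?_
    have h4 := wt_rec r k
    have hne := hs_ne k
    field_simp
    linear_combination f k * f (k + 1) * h4
  rw [hJ, hD]
  linear_combination cdl r (al ^ 2 / 4 - q ^ 2) (q ^ 2) (r + 1) * hC + 2 * kap * hid

end rel

end Pool.Agent.Helper96.Josephson
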