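import Mathlib
import Pool.Agent.Helper96.Josephson.Rel

/-!
Fourier analysis of antiperiodic functions, and the integral identity.
-/

namespace Pool.Agent.Helper96.Josephson

open MeasureTheory intervalIntegral Complex

/-- The coefficient of `F` at `exp (i s_k τ)`. -/
noncomputable def coef (F : ℝ → ℂ) (k : ℤ) : ℂ :=
  (1 / (2 * (Real.pi : ℂ))) * ∫ τ in (-Real.pi)..Real.pi, F τ * cexp (-(I * hs k * τ))

lemma pi_ne : (Real.pi : ℂ) ≠ 0 := by exact_mod_cast Real.pi_ne_zero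

lemma norm_exp_hs (k : ℤ) (τ : ℝ) : ‖cexp (I * hs k * τ)‖ = 1 := by
  have : I * hs k * τ = (((k : ℝ) + 1 / 2) * τ : ℝ) * I := by
    unfold hs; push_cast; ring
  rw [this, Complex.norm_exp_ofReal_mul_I]

lemma norm_exp_neg_hs (k : ℤ) (τ : ℝ) : ‖cexp (-(I * hs k * τ))‖ = 1 := by
  have : -(I * hs k * τ) = ((-((k : ℝ) + 1 / 2) * τ : ℝ)) * I := by
    unfold hs; push_cast; ring
  rw [this, Complex.norm_exp_ofReal_mul_I]

lemma coef_bdd {F : ℝ → ℂ} (hF : Continuous F) : ∃ C : ℝ, ∀ k, ‖coef F k‖ ≤ C := by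
  obtain ⟨B, hB⟩ := (isCompact_uIcc (a := -Real.pi) (b := Real.pi)).exists_bound_of_continuousOn
    hF.continuousOn
  refine ⟨‖(1 / (2 * (Real.pi : ℂ)))‖ * (B * |Real.pi - (-Real.pi)|), fun k => ?_⟩
  unfold coef
  rw [norm_mul]
  refine mul_le_mul_of_nonneg_left ?_ (norm_nonneg _)
  refine intervalIntegral.norm_integral_le_of_norm_le_const fun τ hτ => ?_
  rw [norm_mul, norm_exp_neg_hs, mul_one]
  exact hB τ (Set.uIoc_subset_uIcc hτ)

lemma exp_hs_pi (k : ℤ) : cexp (-(I * hs k * (Real.pi : ℝ))) = -cexp (-(I * hs k * (-Real.pi : ℝ))) := by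
  have h : -(I * hs k * (Real.pi : ℝ)) = -(I * hs k * (-Real.pi : ℝ)) + (-(k + 1) : ℤ) * (2 * Real.pi * I)
      + Real.pi * I := by
    unfold hs
    push_cast
    ring
  rw [h, Complex.exp_add, Complex.exp_add, Complex.exp_pi_mul_I, Complex.exp_int_mul_two_pi_mul_I]
  ring

lemma hasDerivAt_ofReal (τ : ℝ) : HasDerivAt (fun τ : ℝ => (τ : ℂ)) 1 τ := by
  have h := (hasDerivAt_id τ).ofReal_comp
  simp only [id, ofReal_one] at h
  exact h

lemma hasDerivAt_exp_mul (c : ℂ) (τ : ℝ) :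
    HasDerivAt (fun τ : ℝ => cexp (c * τ)) (c * cexp (c * τ)) τ := by
  have h2 := ((hasDerivAt_ofReal τ).const_mul c).cexp
  rw [mul_one] at h2
  convert! h2 using 1
  ring

lemma hasDerivAt_exp_hs (k : ℤ) (τ : ℝ) :
    HasDerivAt (fun τ : ℝ => cexp (-(I * hs k * τ))) (-(I * hs k) * cexp (-(I * hs k * τ))) τ := by
  have h := hasDerivAt_exp_mul (-(I * hs k)) τ
  simp only [neg_mul] at h ⊢
  exact h

lemma coef_deriv {F F' : ℝ → ℂ} (hF : ∀ τ, HasDerivAt F (F' τ) τ) (hF' : Continuous F')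
    (hanti : F Real.pi = -F (-Real.pi)) (k : ℤ) : coef F' k = I * hs k * coef F k := by
  have hFc : Continuous F := continuous_iff_continuousAt.mpr fun τ => (hF τ).continuousAt
  have hec : Continuous (fun τ : ℝ => cexp (-(I * hs k * τ))) := by fun_prop
  have hd : ∀ τ, HasDerivAt (fun τ => F τ * cexp (-(I * hs k * τ)))
      (F' τ * cexp (-(I * hs k * τ)) + F τ * (-(I * hs k) * cexp (-(I * hs k * τ)))) τ :=
    fun τ => (hF τ).mul (hasDerivAt_exp_hs k τ)
  have h1 := intervalIntegral.integral_eq_sub_of_hasDerivAt (a := -Real.pi) (b := Real.pi)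
    (fun τ _ => hd τ) ((by fun_prop : Continuous fun τ : ℝ => F' τ * cexp (-(I * hs k * τ))
      + F τ * (-(I * hs k) * cexp (-(I * hs k * τ)))).intervalIntegrable _ _)
  rw [intervalIntegral.integral_add
    ((by fun_prop : Continuous fun τ : ℝ => F' τ * cexp (-(I * hs k * τ))).intervalIntegrable _ _)
    ((by fun_prop : Continuous fun τ : ℝ => F τ * (-(I * hs k) * cexp (-(I * hs k * τ)))).intervalIntegrable _ _)] at h1
  have h2 : F Real.pi * cexp (-(I * hs k * (Real.pi : ℝ)))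
      - F (-Real.pi) * cexp (-(I * hs k * ((-Real.pi : ℝ) : ℂ))) = 0 := by
    rw [exp_hs_pi, hanti]
    ring
  rw [h2] at h1
  have h3 : ∫ τ in (-Real.pi)..Real.pi, F τ * (-(I * hs k) * cexp (-(I * hs k * τ)))
      = -(I * hs k) * ∫ τ in (-Real.pi)..Real.pi, F τ * cexp (-(I * hs k * τ)) := by
    rw [← intervalIntegral.integral_const_mul]
    refine intervalIntegral.integral_congr fun τ _ => ?_
    ring
  rw [h3] at h1
  unfold coef
  linear_combination (1 / (2 * (Real.pi : ℂ))) * h1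

lemma coef_mul_exp (F : ℝ → ℂ) (n k : ℤ) :
    coef (fun τ => cexp (I * n * τ) * F τ) k = coef F (k - n) := by
  unfold coef
  congr 1
  refine intervalIntegral.integral_congr fun τ _ => ?_
  simp only
  have : cexp (-(I * hs (k - n) * τ)) = cexp (I * n * τ) * cexp (-(I * hs k * τ)) := by
    rw [← Complex.exp_add]
    congr 1
    unfold hs
    push_cast
    ring
  rw [this]
  ring

lemma coef_neg (F : ℝ → ℂ) (k : ℤ) : coef (fun τ => F (-τ)) k = coef F (-1 - k) := by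
  unfold coef
  congr 1
  have h := intervalIntegral.integral_comp_neg (a := -Real.pi) (b := Real.pi)
    (fun τ : ℝ => F τ * cexp (-(I * hs (-1 - k) * τ)))
  rw [neg_neg] at h
  rw [← h]
  refine intervalIntegral.integral_congr fun τ _ => ?_
  simp only
  congr 2
  unfold hs
  push_cast
  ring

lemma coef_add {F G : ℝ → ℂ} (hF : Continuous F) (hG : Continuous G) (k : ℤ) :
    coef (fun τ => F τ + G τ) k = coef F k + coef G k := by
  unfold coef
  rw [← mul_add, ← intervalIntegral.integral_add]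
  · congr 1
    refine intervalIntegral.integral_congr fun τ _ => ?_
    ring
  · exact (by fun_prop : Continuous fun τ : ℝ => F τ * cexp (-(I * hs k * τ))).intervalIntegrable _ _
  · exact (by fun_prop : Continuous fun τ : ℝ => G τ * cexp (-(I * hs k * τ))).intervalIntegrable _ _

lemma coef_const_mul (c : ℂ) (F : ℝ → ℂ) (k : ℤ) :
    coef (fun τ => c * F τ) k = c * coef F k := by
  unfold coef
  rw [mul_left_comm]
  congr 1
  rw [← intervalIntegral.integral_const_mul]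
  refine intervalIntegral.integral_congr fun τ _ => ?_
  ring

/-! ### inversion -/

instance : Fact (0 < 2 * Real.pi) := ⟨Real.two_pi_pos⟩

lemma expand {F : ℝ → ℂ} (hF : Continuous F) (hanti : ∀ τ, F (τ + 2 * Real.pi) = -F τ)
    (hs' : Summable (coef F)) (τ : ℝ) :
    HasSum (fun k => coef F k * cexp (I * hs k * τ)) (F τ) := by
  set P : ℝ → ℂ := fun τ => cexp (-(I * (1 / 2) * τ)) * F τ with hP
  have hper : Function.Periodic P (2 * Real.pi) := by
    intro τ
    simp only [hP]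
    rw [hanti]
    have : cexp (-(I * (1 / 2) * ((τ + 2 * Real.pi : ℝ) : ℂ))) = -cexp (-(I * (1 / 2) * τ)) := by
      have h : -(I * (1 / 2) * ((τ + 2 * Real.pi : ℝ) : ℂ)) = -(I * (1 / 2) * τ) - Real.pi * I := by
        push_cast; ring
      rw [h, Complex.exp_sub, Complex.exp_pi_mul_I]
      ring
    rw [this]
    ring
  have hPc : Continuous P := by fun_prop
  have hlc : Continuous hper.lift := by
    refine continuous_coinduced_dom.mpr ?_
    exact hPc
  let Q : C(AddCircle (2 * Real.pi), ℂ) := ⟨hper.lift, hlc⟩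
  have hcoef : ∀ k, fourierCoeff Q k = coef F k := by
    intro k
    rw [fourierCoeff_eq_intervalIntegral _ k (-Real.pi)]
    unfold coef
    rw [show -Real.pi + 2 * Real.pi = Real.pi by ring, real_smul]
    push_cast
    congr 1
    refine intervalIntegral.integral_congr fun τ _ => ?_
    rw [fourier_coe_apply]
    have e1 : (Q (τ : AddCircle (2 * Real.pi)) : ℂ) = P τ := hper.lift_coe τ
    rw [e1, smul_eq_mul]
    simp only [hP]
    rw [← mul_assoc, ← Complex.exp_add, mul_comm]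
    congr 2
    unfold hs
    have := pi_ne
    push_cast
    field_simp
    ring
  have hsum : Summable (fourierCoeff Q) := by
    refine hs'.congr fun k => (hcoef k).symm
  have h := has_pointwise_sum_fourier_series_of_summable hsum (τ : AddCircle (2 * Real.pi))
  have e1 : (Q (τ : AddCircle (2 * Real.pi)) : ℂ) = P τ := hper.lift_coe τ
  rw [e1] at h
  have h2 := h.mul_left (cexp (I * (1 / 2) * τ))
  have e2 : cexp (I * (1 / 2) * τ) * P τ = F τ := by
    simp only [hP]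
    rw [← mul_assoc, ← Complex.exp_add]
    simp
  rw [e2] at h2
  refine (show (fun k => coef F k * cexp (I * hs k * τ)) = _ from ?_) ▸ h2
  funext k
  rw [hcoef, smul_eq_mul, fourier_coe_apply, mul_left_comm, ← Complex.exp_add]
  congr 2
  unfold hs
  have := pi_ne
  push_cast
  field_simp
  ring

/-- bilinear Parseval. -/
lemma integral_mul_eq {F G : ℝ → ℂ} (hF : Continuous F) (hG : Continuous G)
    (hanti : ∀ τ, F (τ + 2 * Real.pi) = -F τ) (hs' : Summable (coef F)) :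
    ∫ τ in (-Real.pi)..Real.pi, F τ * G τ
      = 2 * Real.pi * ∑' k, coef F k * coef G (-1 - k) := by
  obtain ⟨B, hB⟩ := (isCompact_uIcc (a := -Real.pi) (b := Real.pi)).exists_bound_of_continuousOn
    hG.continuousOn
  have hsn := hs'.norm
  have key : HasSum (fun k => ∫ τ in (-Real.pi)..Real.pi, coef F k * cexp (I * hs k * τ) * G τ)
      (∫ τ in (-Real.pi)..Real.pi, F τ * G τ) := by
    refine intervalIntegral.hasSum_integral_of_dominated_convergence
      (fun k _ => ‖coef F k‖ * B) (fun k => ?_) (fun k => ?_) ?_ ?_ ?_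
    · exact (by fun_prop : Continuous fun τ : ℝ => coef F k * cexp (I * hs k * τ) * G τ).aestronglyMeasurable
    · refine Filter.Eventually.of_forall fun τ hτ => ?_
      rw [norm_mul, norm_mul, norm_exp_hs, mul_one]
      exact mul_le_mul_of_nonneg_left (hB τ (Set.uIoc_subset_uIcc hτ)) (norm_nonneg _)
    · exact Filter.Eventually.of_forall fun τ _ => hsn.mul_right B
    · exact intervalIntegrable_const
    · exact Filter.Eventually.of_forall fun τ _ => (expand hF hanti hs' τ).mul_right (G τ)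
  have h2 : ∀ k, ∫ τ in (-Real.pi)..Real.pi, coef F k * cexp (I * hs k * τ) * G τ
      = 2 * Real.pi * (coef F k * coef G (-1 - k)) := by
    intro k
    have : 2 * Real.pi * (coef F k * coef G (-1 - k)) = coef F k
        * ∫ τ in (-Real.pi)..Real.pi, G τ * cexp (-(I * hs (-1 - k) * τ)) := by
      conv_lhs => rw [coef]
      have := pi_ne
      unfold coef
      field_simp
    rw [this, ← intervalIntegral.integral_const_mul]
    refine intervalIntegral.integral_congr fun τ _ => ?_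
    have e : -(I * hs (-1 - k) * (τ : ℂ)) = I * hs k * τ := by
      unfold hs; push_cast; ring
    rw [e]
    ring
  rw [← key.tsum_eq, tsum_congr h2, tsum_mul_left]

/-! ### decay -/

lemma le_norm_hs (k : ℤ) : (1 + |(k : ℝ)|) / 4 ≤ ‖hs k‖ := by
  unfold hs
  have h1 : (k : ℂ) + 1 / 2 = ((k : ℝ) + 1 / 2 : ℝ) := by push_cast; ring
  rw [h1, Complex.norm_real, Real.norm_eq_abs]
  rcases le_or_gt 0 k with h | h
  · have : (0 : ℝ) ≤ (k : ℝ) := by exact_mod_cast h
    rw [abs_of_nonneg this, abs_of_nonneg (by linarith)]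
    linarith
  · have : (k : ℝ) ≤ -1 := by exact_mod_cast (by omega : k ≤ -1)
    rw [abs_of_nonpos (by linarith), abs_of_nonpos (by linarith)]
    linarith

lemma shift_bd {f : ℤ → ℂ} {N : ℕ} {C : ℝ} (h : ∀ k : ℤ, ‖f k‖ * (1 + |(k : ℝ)|) ^ N ≤ C) (n : ℤ)
    (k : ℤ) : ‖f (k + n)‖ * (1 + |(k : ℝ)|) ^ N ≤ (1 + |(n : ℝ)|) ^ N * C := by
  have h2 := h (k + n)
  have hw := wt_pos k
  calc ‖f (k + n)‖ * (1 + |(k : ℝ)|) ^ N
      ≤ ‖f (k + n)‖ * ((1 + |(n : ℝ)|) * (1 + |((k + n : ℤ) : ℝ)|)) ^ N := by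
        have := wt_shift k n
        gcongr
    _ = (1 + |(n : ℝ)|) ^ N * (‖f (k + n)‖ * (1 + |((k + n : ℤ) : ℝ)|) ^ N) := by
        rw [mul_pow]; ring
    _ ≤ _ := by gcongr

lemma reflect_bd {f : ℤ → ℂ} {N : ℕ} {C : ℝ} (h : ∀ k : ℤ, ‖f k‖ * (1 + |(k : ℝ)|) ^ N ≤ C) (n : ℤ)
    (k : ℤ) : ‖f (n - k)‖ * (1 + |(k : ℝ)|) ^ N ≤ (1 + |(n : ℝ)|) ^ N * C := by
  have h2 := h (n - k)
  have hw := wt_pos k
  have h3 : 1 + |(k : ℝ)| ≤ (1 + |(n : ℝ)|) * (1 + |((n - k : ℤ) : ℝ)|) := by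
    have := wt_shift k (-n)
    have e : |((k + -n : ℤ) : ℝ)| = |((n - k : ℤ) : ℝ)| := by
      push_cast
      rw [show (k : ℝ) + -n = -((n : ℝ) - k) by ring, abs_neg]
    rw [e] at this
    simpa using this
  calc ‖f (n - k)‖ * (1 + |(k : ℝ)|) ^ N
      ≤ ‖f (n - k)‖ * ((1 + |(n : ℝ)|) * (1 + |((n - k : ℤ) : ℝ)|)) ^ N := by gcongr
    _ = (1 + |(n : ℝ)|) ^ N * (‖f (n - k)‖ * (1 + |((n - k : ℤ) : ℝ)|) ^ N) := by
        rw [mul_pow]; ring
    _ ≤ _ := by gcongr

/-- bootstrapping decay: `s_k f_k = q f_{k+e} + c f_{n-k}`. -/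
lemma rapid_of_rec {f : ℤ → ℂ} {q c : ℂ} {e n : ℤ} (hb : ∃ C : ℝ, ∀ k, ‖f k‖ ≤ C)
    (hrec : ∀ k, hs k * f k = q * f (k + e) + c * f (n - k)) : Rapid f := by
  intro N
  induction N with
  | zero =>
    obtain ⟨C, hC⟩ := hb
    exact ⟨C, fun k => by simpa using hC k⟩
  | succ N ih =>
    obtain ⟨C, hC⟩ := ih
    refine ⟨4 * (‖q‖ * ((1 + |(e : ℝ)|) ^ N * C) + ‖c‖ * ((1 + |(n : ℝ)|) ^ N * C)), fun k => ?_⟩
    have h1 := shift_bd hC e k
    have h2 := reflect_bd hC n k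
    have h3 := le_norm_hs k
    have hw := wt_pos k
    have h4 : ‖hs k‖ * ‖f k‖ ≤ ‖q‖ * ‖f (k + e)‖ + ‖c‖ * ‖f (n - k)‖ := by
      rw [← norm_mul, hrec k, ← norm_mul, ← norm_mul]
      exact norm_add_le _ _
    calc ‖f k‖ * (1 + |(k : ℝ)|) ^ (N + 1)
        = 4 * (((1 + |(k : ℝ)|) / 4) * ‖f k‖) * (1 + |(k : ℝ)|) ^ N := by rw [pow_succ]; ring
      _ ≤ 4 * (‖hs k‖ * ‖f k‖) * (1 + |(k : ℝ)|) ^ N := by gcongr
      _ ≤ 4 * (‖q‖ * ‖f (k + e)‖ + ‖c‖ * ‖f (n - k)‖) * (1 + |(k : ℝ)|) ^ N := by gcongr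
      _ = 4 * (‖q‖ * (‖f (k + e)‖ * (1 + |(k : ℝ)|) ^ N)
            + ‖c‖ * (‖f (n - k)‖ * (1 + |(k : ℝ)|) ^ N)) := by ring
      _ ≤ _ := by gcongr

/-! ### the integral identity -/

section main

variable (r : ℕ) (al q : ℝ) (X : ℝ → ℂ)

/-- `exp (i S)`, `S = r τ + 2 q sin τ`. -/
noncomputable def eS (τ : ℝ) : ℂ := cexp (I * (r * τ + 2 * q * Real.sin τ))

/-- `f = exp(-q e^{-iτ}) X`. -/
noncomputable def Ff (τ : ℝ) : ℂ := cexp (-(q * cexp (-(I * τ)))) * X τ

/-- `g = exp(q e^{iτ}) X`. -/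
noncomputable def Gg (τ : ℝ) : ℂ := cexp (q * cexp (I * τ)) * X τ

lemma two_I_sin (τ : ℝ) : 2 * I * (Real.sin τ : ℂ) = cexp (I * τ) - cexp (-(I * τ)) := by
  rw [mul_comm I (τ : ℂ), Complex.exp_mul_I, ← neg_mul, Complex.exp_mul_I, Complex.cos_neg,
    Complex.sin_neg, Complex.ofReal_sin]
  ring

lemma eS_eq (τ : ℝ) : eS r q τ = cexp (I * r * τ) * (cexp (q * cexp (I * τ)) * cexp (-(q * cexp (-(I * τ))))) := by
  unfold eS
  rw [← Complex.exp_add, ← Complex.exp_add]
  congr 1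
  linear_combination (q : ℂ) * two_I_sin τ

lemma exp_neg_mul (z : ℂ) : cexp (-z) * cexp z = 1 := by
  rw [← Complex.exp_add]; simp

lemma exp_I_period (τ : ℝ) : cexp (I * ((τ + 2 * Real.pi : ℝ) : ℂ)) = cexp (I * τ) := by
  have : I * ((τ + 2 * Real.pi : ℝ) : ℂ) = I * τ + 2 * Real.pi * I := by push_cast; ring
  rw [this, Complex.exp_add, Complex.exp_two_pi_mul_I, mul_one]

lemma exp_neg_I_period (τ : ℝ) : cexp (-(I * ((τ + 2 * Real.pi : ℝ) : ℂ))) = cexp (-(I * τ)) := by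
  rw [Complex.exp_neg, exp_I_period, ← Complex.exp_neg]

variable {r al q X}

variable (hX : ∀ τ, HasDerivAt X (-(I * (al / 2) * (cexp (-(I * (r * τ + 2 * q * Real.sin τ))) * X (-τ)))) τ)

include hX

lemma contX : Continuous X := continuous_iff_continuousAt.mpr fun τ => (hX τ).continuousAt

lemma hasDerivAt_F (τ : ℝ) : HasDerivAt (Ff q X)
    (I * q * (cexp (-(I * τ)) * Ff q X τ) + -(I * (al / 2)) * (cexp (-(I * r * τ)) * Ff q X (-τ))) τ := by
  have h1 := hasDerivAt_exp_mul (-I) τ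
  have h2 := ((h1.const_mul (q : ℂ)).fun_neg).cexp.mul (hX τ)
  unfold Ff
  simp only [neg_mul] at h2
  refine h2.congr_deriv ?_
  have h3 := eS_eq r q τ
  have h4 : cexp (-(I * (r * τ + 2 * q * Real.sin τ))) * eS r q τ = 1 := exp_neg_mul _
  have h5 := exp_neg_mul (I * r * τ)
  have h6 := exp_neg_mul (q * cexp (I * τ))
  rw [h3] at h4
  have e : -(I * ((-τ : ℝ) : ℂ)) = I * τ := by push_cast; ring
  rw [e]
  have key : cexp (-(q * cexp (-(I * τ)))) * cexp (-(I * (r * τ + 2 * q * Real.sin τ)))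
      = cexp (-(I * r * τ)) * cexp (-(q * cexp (I * τ))) := by
    linear_combination cexp (-(I * r * τ)) * cexp (-(q * cexp (I * τ))) * h4
      - cexp (-(q * cexp (-(I * τ)))) * cexp (-(I * (r * τ + 2 * q * Real.sin τ)))
        * (h5 + cexp (-(I * r * τ)) * cexp (I * r * τ) * h6)
  linear_combination (-(I * (al / 2)) * X (-τ)) * key

lemma hasDerivAt_G (τ : ℝ) : HasDerivAt (Gg q X)
    (I * q * (cexp (I * τ) * Gg q X τ) + -(I * (al / 2)) * (cexp (-(I * r * τ)) * Gg q X (-τ))) τ := by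
  have h1 := hasDerivAt_exp_mul I τ
  have h2 := (h1.const_mul (q : ℂ)).cexp.mul (hX τ)
  unfold Gg
  refine h2.congr_deriv ?_
  have h3 := eS_eq r q τ
  have h4 : cexp (-(I * (r * τ + 2 * q * Real.sin τ))) * eS r q τ = 1 := exp_neg_mul _
  have h5 := exp_neg_mul (I * r * τ)
  have h6 : cexp (-(q * cexp (-(I * τ)))) * cexp (q * cexp (-(I * τ))) = 1 := exp_neg_mul _
  rw [h3] at h4
  have e : I * ((-τ : ℝ) : ℂ) = -(I * τ) := by push_cast; ring
  rw [e]
  have key : cexp (q * cexp (I * τ)) * cexp (-(I * (r * τ + 2 * q * Real.sin τ)))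
      = cexp (-(I * r * τ)) * cexp (q * cexp (-(I * τ))) := by
    linear_combination cexp (-(I * r * τ)) * cexp (q * cexp (-(I * τ))) * h4
      - cexp (q * cexp (I * τ)) * cexp (-(I * (r * τ + 2 * q * Real.sin τ)))
        * (h5 + cexp (-(I * r * τ)) * cexp (I * r * τ) * h6)
  linear_combination (-(I * (al / 2)) * X (-τ)) * key

lemma cont_F : Continuous (Ff q X) := by
  have := contX hX
  unfold Ff
  fun_prop

lemma cont_G : Continuous (Gg q X) := by
  have := contX hX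
  unfold Gg
  fun_prop

variable (hanti : ∀ τ, X (τ + 2 * Real.pi) = -X τ)

include hanti

omit hX in
lemma anti_F (τ : ℝ) : Ff q X (τ + 2 * Real.pi) = -Ff q X τ := by
  unfold Ff
  rw [exp_neg_I_period, hanti]
  ring

omit hX in
lemma anti_G (τ : ℝ) : Gg q X (τ + 2 * Real.pi) = -Gg q X τ := by
  unfold Gg
  rw [exp_I_period, hanti]
  ring

omit hX hanti in
lemma anti_end {F : ℝ → ℂ} (h : ∀ τ, F (τ + 2 * Real.pi) = -F τ) : F Real.pi = -F (-Real.pi) := by
  rw [← h]; congr 1; ring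

omit hX hanti in
lemma coef_term2 {F : ℝ → ℂ} (k : ℤ) :
    coef (fun τ => cexp (-(I * r * τ)) * F (-τ)) k = coef F (-r - 1 - k) := by
  have h := coef_mul_exp (fun τ => F (-τ)) (-r) k
  have e : (fun τ : ℝ => cexp (I * ((-(r : ℤ) : ℤ) : ℂ) * τ) * F (-τ))
      = fun τ : ℝ => cexp (-(I * r * τ)) * F (-τ) := by
    funext τ
    congr 2
    push_cast
    ring
  rw [e] at h
  rw [h, coef_neg]
  congr 1
  ring

lemma recF : RecF r (al : ℂ) q (coef (Ff q X)) := by
  intro k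
  have hc := cont_F hX
  have h := coef_deriv (hasDerivAt_F hX) (by fun_prop) (anti_end (anti_F hanti)) k
  rw [coef_add (by fun_prop) (by fun_prop), coef_const_mul, coef_const_mul, coef_term2] at h
  have h2 := coef_mul_exp (Ff q X) (-1) k
  have e : (fun τ : ℝ => cexp (I * ((-1 : ℤ) : ℂ) * τ) * Ff q X τ)
      = fun τ : ℝ => cexp (-(I * τ)) * Ff q X τ := by
    funext τ
    congr 2
    push_cast
    ring
  rw [e, sub_neg_eq_add] at h2
  rw [h2] at h
  have hI := I_mul_I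
  linear_combination I * h + (hs k * coef (Ff q X) k - q * coef (Ff q X) (k + 1)
    + al / 2 * coef (Ff q X) (-r - 1 - k)) * hI

lemma recG : RecG r (al : ℂ) q (coef (Gg q X)) := by
  intro k
  have hc := cont_G hX
  have h := coef_deriv (hasDerivAt_G hX) (by fun_prop) (anti_end (anti_G hanti)) k
  rw [coef_add (by fun_prop) (by fun_prop), coef_const_mul, coef_const_mul, coef_term2] at h
  have h2 := coef_mul_exp (Gg q X) 1 k
  have e : (fun τ : ℝ => cexp (I * ((1 : ℤ) : ℂ) * τ) * Gg q X τ)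
      = fun τ : ℝ => cexp (I * τ) * Gg q X τ := by
    funext τ
    congr 2
    push_cast
    ring
  rw [e] at h2
  rw [h2] at h
  have hI := I_mul_I
  linear_combination I * h + (hs k * coef (Gg q X) k - q * coef (Gg q X) (k - 1)
    + al / 2 * coef (Gg q X) (-r - 1 - k)) * hI

lemma rapidF : Rapid (coef (Ff q X)) := by
  refine rapid_of_rec (q := q) (c := -(al / 2)) (e := 1) (n := -r - 1) (coef_bdd (cont_F hX))
    fun k => ?_
  have := recF hX hanti k
  linear_combination this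

lemma rapidG : Rapid (coef (Gg q X)) := by
  refine rapid_of_rec (q := q) (c := -(al / 2)) (e := -1) (n := -r - 1) (coef_bdd (cont_G hX))
    fun k => ?_
  have := recG hX hanti k
  rw [← sub_eq_add_neg]
  linear_combination this

omit hX hanti in
lemma XX_eq (τ : ℝ) : X τ * X (-τ) = Gg q X τ * Ff q X (-τ) := by
  unfold Gg Ff
  have e : -(I * ((-τ : ℝ) : ℂ)) = I * τ := by push_cast; ring
  rw [e]
  have h6 := exp_neg_mul (q * cexp (I * τ))
  linear_combination (-(X τ * X (-τ))) * h6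

omit hX hanti in
lemma eSX_eq (τ : ℝ) : eS r q τ * X τ ^ 2 = Ff q X τ * (cexp (I * r * τ) * Gg q X τ) := by
  unfold Gg Ff
  rw [eS_eq]
  ring

theorem int1 : ∫ τ in (-Real.pi)..Real.pi, X τ * X (-τ) * cexp (I * τ)
    = 2 * Real.pi * ∑' k, coef (Gg q X) k * coef (Ff q X) (k + 1) := by
  have hcF := cont_F hX
  have hcG := cont_G hX
  have e : ∀ τ : ℝ, X τ * X (-τ) * cexp (I * τ) = Gg q X τ * (cexp (I * ((1 : ℤ) : ℂ) * τ) * Ff q X (-τ)) := by
    intro τ
    rw [XX_eq (q := q) τ]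
    push_cast
    rw [mul_one]
    ring
  rw [intervalIntegral.integral_congr fun τ _ => e τ,
    integral_mul_eq hcG (by fun_prop) (anti_G hanti) (rapidG hX hanti).summable]
  congr 1
  refine tsum_congr fun k => ?_
  rw [coef_mul_exp (fun τ => Ff q X (-τ)) 1, coef_neg]
  congr 2
  ring

theorem int2 : ∫ τ in (-Real.pi)..Real.pi, eS r q τ * X τ ^ 2
    = 2 * Real.pi * ∑' k, coef (Ff q X) k * coef (Gg q X) (-r - 1 - k) := by
  have hcF := cont_F hX
  have hcG := cont_G hX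
  have e : ∀ τ : ℝ, eS r q τ * X τ ^ 2 = Ff q X τ * (cexp (I * ((r : ℤ) : ℂ) * τ) * Gg q X τ) := by
    intro τ
    rw [eSX_eq τ]
    push_cast
    rfl
  rw [intervalIntegral.integral_congr fun τ _ => e τ,
    integral_mul_eq hcF (by fun_prop) (anti_F hanti) (rapidF hX hanti).summable]
  congr 1
  refine tsum_congr fun k => ?_
  rw [coef_mul_exp (Gg q X) r]
  congr 2
  ring

theorem int3 : ∫ τ in (-Real.pi)..Real.pi, eS r q τ * X τ ^ 2 * Real.cos τ
    = Real.pi * ∑' k, coef (Ff q X) k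
      * (coef (Gg q X) (-r - 1 - k - 1) + coef (Gg q X) (-r - 1 - k + 1)) := by
  have hcF := cont_F hX
  have hcG := cont_G hX
  have e : ∀ τ : ℝ, eS r q τ * X τ ^ 2 * Real.cos τ = Ff q X τ *
      (1 / 2 * (cexp (I * ((r + 1 : ℤ) : ℂ) * τ) * Gg q X τ)
        + 1 / 2 * (cexp (I * ((r - 1 : ℤ) : ℂ) * τ) * Gg q X τ)) := by
    intro τ
    rw [eSX_eq τ]
    have h1 : cexp (I * ((r + 1 : ℤ) : ℂ) * τ) = cexp (I * r * τ) * cexp (I * τ) := by
      rw [← Complex.exp_add]; congr 1; push_cast; ring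
    have h2 : cexp (I * ((r - 1 : ℤ) : ℂ) * τ) = cexp (I * r * τ) * cexp (-(I * τ)) := by
      rw [← Complex.exp_add]; congr 1; push_cast; ring
    have h3 : 2 * (Real.cos τ : ℂ) = cexp (I * τ) + cexp (-(I * τ)) := by
      rw [mul_comm I (τ : ℂ), Complex.exp_mul_I, ← neg_mul, Complex.exp_mul_I, Complex.cos_neg,
        Complex.sin_neg, Complex.ofReal_cos]
      ring
    rw [h1, h2]
    linear_combination (1 / 2 * Ff q X τ * (cexp (I * r * τ) * Gg q X τ)) * h3
  rw [intervalIntegral.integral_congr fun τ _ => e τ,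
    integral_mul_eq hcF (by fun_prop) (anti_F hanti) (rapidF hX hanti).summable,
    ← tsum_mul_left, ← tsum_mul_left]
  refine tsum_congr fun k => ?_
  rw [coef_add (by fun_prop) (by fun_prop), coef_const_mul, coef_const_mul,
    coef_mul_exp (Gg q X) (r + 1), coef_mul_exp (Gg q X) (r - 1),
    show -1 - k - ((r : ℤ) + 1) = -r - 1 - k - 1 by ring,
    show -1 - k - ((r : ℤ) - 1) = -r - 1 - k + 1 by ring]
  ring

theorem integral_identity (hr : 1 ≤ r) (hq : q ≠ 0) :
    al * q * cdl r ((al : ℂ) ^ 2 / 4 - q ^ 2) ((q : ℂ) ^ 2) (r + 1)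
        * (∫ τ in (-Real.pi)..Real.pi, X τ * X (-τ) * cexp (I * τ))
      + 2 * (cdm r ((al : ℂ) ^ 2 / 4 - q ^ 2) ((q : ℂ) ^ 2) (r + 1)
          - q ^ 2 * cdl r ((al : ℂ) ^ 2 / 4 - q ^ 2) ((q : ℂ) ^ 2) (r + 1))
        * (∫ τ in (-Real.pi)..Real.pi, eS r q τ * X τ ^ 2)
      + 4 * q * cD r ((al : ℂ) ^ 2 / 4 - q ^ 2) ((q : ℂ) ^ 2)
        * (∫ τ in (-Real.pi)..Real.pi, eS r q τ * X τ ^ 2 * Real.cos τ) = 0 := by
  have h := seq_final (r := r) (al := al) (q := q) hr (by exact_mod_cast hq) (recF hX hanti)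
    (recG hX hanti) (rapidF hX hanti) (rapidG hX hanti)
  rw [int1 hX hanti, int2 hX hanti, int3 hX hanti]
  linear_combination (2 * Real.pi) * h

end main

end Pool.Agent.Helper96.Josephson
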