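import Mathlib
import Pool.Agent.Helper96.Josephson.Flow2
import Pool.Agent.Helper96.Josephson.Fourier

/-!
Symmetric solutions and the real form of the key identity.
-/

namespace Pool.Agent.Helper96.Josephson

open Real MeasureTheory intervalIntegral Set

/-! ### casts -/

section cast

variable {K K' : Type*} [Field K] [Field K'] (f : K →+* K') (r : ℕ) (lam m : K)

lemma map_cA (j : ℕ) : f (cA r lam j) = cA r (f lam) j := by simp [cA]

lemma map_cE (j : ℕ) : f (cE r m j) = cE r (f m) j := by simp [cE]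

lemma map_cp : ∀ n : ℕ, f (cp r lam m n) = cp r (f lam) (f m) n
  | 0 => by simp [cp]
  | 1 => by simp [cp]
  | (n + 2) => by
    rw [cp, cp, map_sub, map_mul, map_mul, map_cA, map_cE, map_cp (n + 1), map_cp n]

lemma map_cdl : ∀ n : ℕ, f (cdl r lam m n) = cdl r (f lam) (f m) n
  | 0 => by simp [cdl]
  | 1 => by simp [cdl]
  | (n + 2) => by
    rw [cdl, cdl, map_sub, map_add, map_mul, map_mul, map_cA, map_cE, map_cdl (n + 1), map_cdl n,
      map_cp]

lemma map_cdm : ∀ n : ℕ, f (cdm r lam m n) = cdm r (f lam) (f m) n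
  | 0 => by simp [cdm]
  | 1 => by simp [cdm]
  | (n + 2) => by
    rw [cdm, cdm, map_sub, map_sub, map_mul, map_mul, map_mul, map_cA, map_cE, map_cdm (n + 1),
      map_cdm n, map_cp]

lemma map_cD : f (cD r lam m) = cD r (f lam) (f m) := map_cp f r lam m (r + 1)

end cast

variable {r : ℕ} {a μ σ : ℝ} {φ : ℝ → ℝ}

lemma sin_sig (hσ : σ = 1 ∨ σ = -1) (x : ℝ) : sin (σ * π - x) = sin x := by
  rcases hσ with rfl | rfl
  · rw [one_mul, Real.sin_pi_sub]
  · rw [show (-1 : ℝ) * π - x = -(x + π) by ring, Real.sin_neg, Real.sin_add_pi, neg_neg]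

lemma cos_sig (hσ : σ = 1 ∨ σ = -1) (x : ℝ) : cos (σ * π - x) = -cos x := by
  rcases hσ with rfl | rfl
  · rw [one_mul, Real.cos_pi_sub]
  · rw [show (-1 : ℝ) * π - x = -(x + π) by ring, Real.cos_neg, Real.cos_add_pi]

lemma sym_eq {r' : ℝ} (hσ : σ = 1 ∨ σ = -1) (h : Sol r' a μ φ) (h0 : φ 0 = σ * π / 2) (τ : ℝ) :
    φ (-τ) = σ * π - φ τ := by
  rcases hσ with rfl | rfl
  · have h1 := h.reflect
    have h2 := h.unique h1 (τ0 := 0) (by simp only [neg_zero]; rw [h0]; ring)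
    have := congrFun h2 τ
    linarith
  · have h1 := h.reflect.add_int (-1)
    have h2 := h.unique h1 (τ0 := 0) (by simp only [neg_zero]; rw [h0]; push_cast; ring)
    have := congrFun h2 τ
    push_cast at this
    linarith

/-- `∫₀^τ cos φ`. -/
noncomputable def Ci (φ : ℝ → ℝ) (τ : ℝ) : ℝ := ∫ s in (0 : ℝ)..τ, cos (φ s)

lemma hasDerivAt_Ci (h : Continuous φ) (τ : ℝ) : HasDerivAt (Ci φ) (cos (φ τ)) τ := by
  have hc : Continuous fun s => cos (φ s) := by fun_prop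
  exact integral_hasDerivAt_right (hc.intervalIntegrable _ _)
    (hc.stronglyMeasurableAtFilter _ _) hc.continuousAt

lemma continuous_Ci (h : Continuous φ) : Continuous (Ci φ) :=
  continuous_iff_continuousAt.mpr fun τ => (hasDerivAt_Ci h τ).continuousAt

lemma Ci_zero : Ci φ 0 = 0 := by simp [Ci]

lemma Gam_self : Gam φ φ = Ci φ := by
  funext τ
  unfold Gam Ci
  simp only [cc_self]

lemma Ci_even (hσ : σ = 1 ∨ σ = -1) (hs : ∀ τ, φ (-τ) = σ * π - φ τ) (τ : ℝ) :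
    Ci φ (-τ) = Ci φ τ := by
  unfold Ci
  have h := intervalIntegral.integral_comp_neg (a := 0) (b := τ) (fun s => cos (φ s))
  rw [neg_zero] at h
  rw [intervalIntegral.integral_symm, ← h, ← intervalIntegral.integral_neg]
  refine intervalIntegral.integral_congr fun s _ => ?_
  rw [hs, cos_sig hσ, neg_neg]

lemma period_eq {r' : ℝ} (hσ : σ = 1 ∨ σ = -1) (h : Sol r' a μ φ) (h0 : φ 0 = σ * π / 2) {n : ℤ}
    (hπ : φ π = σ * π / 2 + π * n) (τ : ℝ) : φ (τ + 2 * π) = φ τ + 2 * π * n := by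
  have h1 := h.shift 1
  have h2 := h.add_int n
  have h3 := sym_eq hσ h h0 π
  have h4 := h1.unique h2 (τ0 := -π) (by
    simp only [Int.cast_one, mul_one]
    rw [show -π + 2 * π = π by ring, h3, hπ]
    ring)
  have := congrFun h4 τ
  simpa using this

lemma Ci_period (hσ : σ = 1 ∨ σ = -1) (hc : Continuous φ) (hs : ∀ τ, φ (-τ) = σ * π - φ τ) {n : ℤ}
    (hper : ∀ τ, φ (τ + 2 * π) = φ τ + 2 * π * n) (τ : ℝ) : Ci φ (τ + 2 * π) = Ci φ τ := by
  have hcc : Continuous fun s => cos (φ s) := by fun_prop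
  have hP : Function.Periodic (fun s => cos (φ s)) (2 * π) := by
    intro s
    simp only
    rw [hper, show φ s + 2 * π * n = φ s + n * (2 * π) by ring, Real.cos_add_int_mul_two_pi]
  have h1 := hP.intervalIntegral_add_eq τ (-π)
  rw [show -π + 2 * π = π by ring] at h1
  have h2 : (∫ s in τ..(τ + 2 * π), cos (φ s)) = Ci φ (τ + 2 * π) - Ci φ τ := by
    unfold Ci
    rw [intervalIntegral.integral_interval_sub_left (hcc.intervalIntegrable _ _)
      (hcc.intervalIntegrable _ _)]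
  have h3 : (∫ s in (-π)..π, cos (φ s)) = Ci φ π - Ci φ (-π) := by
    unfold Ci
    rw [intervalIntegral.integral_interval_sub_left (hcc.intervalIntegrable _ _)
      (hcc.intervalIntegrable _ _)]
  rw [h2, h3, Ci_even hσ hs] at h1
  linarith

/-! ### the function X -/

section X

open Complex (I)

/-- The function `X`. -/
noncomputable def XX (r : ℕ) (a μ σ : ℝ) (φ : ℝ → ℝ) (τ : ℝ) : ℂ :=
  Complex.exp (-(I * (σ * π / 4))) * Complex.exp (a / 2 * Ci φ τ + I / 2 * (φ τ - r * τ - μ * sin τ))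

lemma exp_sig (hσ : σ = 1 ∨ σ = -1) : Complex.exp (-(I * (σ * π / 2))) = -(I * σ) := by
  rcases hσ with rfl | rfl
  · have : -(I * (((1 : ℝ) : ℂ) * π / 2)) = -(π / 2 * I) := by push_cast; ring
    rw [this, Complex.exp_neg, Complex.exp_pi_div_two_mul_I]
    simp
  · have : -(I * (((-1 : ℝ) : ℂ) * π / 2)) = π / 2 * I := by push_cast; ring
    rw [this, Complex.exp_pi_div_two_mul_I]
    simp

lemma XX_neg (hσ : σ = 1 ∨ σ = -1) (hs : ∀ τ, φ (-τ) = σ * π - φ τ) (τ : ℝ) :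
    XX r a μ σ φ (-τ) = Complex.exp (I * (σ * π / 4))
      * Complex.exp (a / 2 * Ci φ τ - I / 2 * (φ τ - r * τ - μ * sin τ)) := by
  unfold XX
  rw [Ci_even hσ hs, hs, Real.sin_neg, ← Complex.exp_add, ← Complex.exp_add]
  congr 1
  push_cast
  ring

lemma exp_neg_I_phi (x : ℝ) : Complex.exp (-(I * x)) = cos x - I * sin x := by
  rw [show -(I * (x : ℂ)) = (-(x : ℂ)) * I by ring, Complex.exp_mul_I, Complex.cos_neg,
    Complex.sin_neg]
  push_cast
  ring

lemma exp_I_phi (x : ℝ) : Complex.exp (I * x) = cos x + I * sin x := by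
  rw [mul_comm I (x : ℂ), Complex.exp_mul_I]
  push_cast
  ring

lemma hasDerivAt_XX (hσ : σ = 1 ∨ σ = -1) (h : Sol r a μ φ) (hs : ∀ τ, φ (-τ) = σ * π - φ τ)
    (τ : ℝ) : HasDerivAt (XX r a μ σ φ)
      (-(I * (((σ * a : ℝ) : ℂ) / 2) * (Complex.exp (-(I * (r * τ + 2 * ((μ / 2 : ℝ) : ℂ) * sin τ)))
        * XX r a μ σ φ (-τ)))) τ := by
  have hC := ((hasDerivAt_Ci h.continuous τ).ofReal_comp).const_mul ((a : ℂ) / 2)
  have hφ := (h τ).ofReal_comp
  have hτ := (hasDerivAt_ofReal τ).const_mul (r : ℂ)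
  have hsin := ((Real.hasDerivAt_sin τ).ofReal_comp).const_mul (μ : ℂ)
  have hin := (hC.add (((hφ.sub hτ).sub hsin).const_mul (I / 2))).cexp.const_mul
    (Complex.exp (-(I * (σ * π / 4))))
  refine hin.congr_deriv ?_
  rw [XX_neg hσ hs]
  have key : Complex.exp (-(I * (σ * π / 4)))
        * Complex.exp (a / 2 * Ci φ τ + I / 2 * (φ τ - r * τ - μ * sin τ))
        * Complex.exp (-(I * φ τ))
      = -(I * σ) * (Complex.exp (-(I * (r * τ + 2 * ((μ / 2 : ℝ) : ℂ) * sin τ)))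
        * (Complex.exp (I * (σ * π / 4))
        * Complex.exp (a / 2 * Ci φ τ - I / 2 * (φ τ - r * τ - μ * sin τ)))) := by
    rw [← exp_sig hσ, ← Complex.exp_add, ← Complex.exp_add, ← Complex.exp_add, ← Complex.exp_add,
      ← Complex.exp_add]
    congr 1
    push_cast
    ring
  rw [exp_neg_I_phi] at key
  simp only [Pi.add_apply, Pi.sub_apply]
  push_cast at key ⊢
  linear_combination (a / 2 : ℂ) * key

lemma XX_anti (hσ : σ = 1 ∨ σ = -1) (hc : Continuous φ) (hs : ∀ τ, φ (-τ) = σ * π - φ τ)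
    (hper : ∀ τ, φ (τ + 2 * π) = φ τ + 2 * π * ((r : ℤ) + 1 : ℤ)) (τ : ℝ) :
    XX r a μ σ φ (τ + 2 * π) = -XX r a μ σ φ τ := by
  unfold XX
  rw [Ci_period hσ hc hs hper, hper, Real.sin_add_two_pi]
  have : (a / 2 * Ci φ τ + I / 2 * (((φ τ + 2 * π * ((r : ℤ) + 1 : ℤ) : ℝ) : ℂ)
        - r * ((τ + 2 * π : ℝ) : ℂ) - μ * sin τ) : ℂ)
      = (a / 2 * Ci φ τ + I / 2 * (φ τ - r * τ - μ * sin τ)) + π * I := by
    push_cast
    ring
  rw [this, Complex.exp_add, Complex.exp_pi_mul_I]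
  ring

lemma XX_mul (hσ : σ = 1 ∨ σ = -1) (hs : ∀ τ, φ (-τ) = σ * π - φ τ) (τ : ℝ) :
    XX r a μ σ φ τ * XX r a μ σ φ (-τ) = (exp (a * Ci φ τ) : ℝ) := by
  rw [XX_neg hσ hs]
  unfold XX
  rw [← Complex.exp_add, ← Complex.exp_add, ← Complex.exp_add]
  push_cast
  congr 1
  ring

lemma eS_XX (hσ : σ = 1 ∨ σ = -1) (τ : ℝ) :
    eS r (μ / 2) τ * XX r a μ σ φ τ ^ 2
      = -(I * σ) * (exp (a * Ci φ τ) : ℝ) * (cos (φ τ) + I * sin (φ τ)) := by
  rw [← exp_I_phi, ← exp_sig hσ]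
  unfold eS XX
  rw [mul_pow, ← Complex.exp_nat_mul, ← Complex.exp_nat_mul, ← Complex.exp_add, ← Complex.exp_add,
    Complex.ofReal_exp, ← Complex.exp_add, ← Complex.exp_add]
  congr 1
  push_cast
  ring

end X

/-! ### the real identity -/

lemma integral_even' {f : ℝ → ℝ} (hf : Continuous f) (he : ∀ x, f (-x) = f x) (b : ℝ) :
    ∫ x in (-b)..b, f x = 2 * ∫ x in (0 : ℝ)..b, f x := by
  have h1 : ∫ x in (-b)..b, f x = (∫ x in (-b)..(0 : ℝ), f x) + ∫ x in (0 : ℝ)..b, f x :=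
    (intervalIntegral.integral_add_adjacent_intervals (hf.intervalIntegrable _ _)
      (hf.intervalIntegrable _ _)).symm
  have h2 := intervalIntegral.integral_comp_neg (a := 0) (b := b) f
  rw [neg_zero] at h2
  rw [h1, ← h2, intervalIntegral.integral_congr fun x _ => he x]
  ring

lemma re_integral {f : ℝ → ℂ} {g : ℝ → ℝ} {x y : ℝ} (hf : Continuous f)
    (h : ∀ t, (f t).re = g t) : (∫ t in x..y, f t).re = ∫ t in x..y, g t := by
  have h1 := Complex.reCLM.intervalIntegral_comp_comm (μ := volume) (a := x) (b := y)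
    (hf.intervalIntegrable _ _)
  have h2 : (∫ t in x..y, f t).re = ∫ t in x..y, (f t).re := by
    rw [← Complex.reCLM_apply, ← h1]
    rfl
  rw [h2]
  exact intervalIntegral.integral_congr fun t _ => h t

lemma re_aux (x y : ℝ) : ((x : ℂ) - (y : ℂ) * Complex.I).re = x := by simp

lemma re_aux2 (A c s : ℝ) : ((A : ℂ) * ((c : ℂ) + Complex.I * (s : ℂ))).re = A * c := by simp

theorem real_identity (hr : 1 ≤ r) (hμ : μ ≠ 0) (hσ : σ = 1 ∨ σ = -1) (h : Sol r a μ φ)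
    (h0 : φ 0 = σ * π / 2) (hπ : φ π = σ * π / 2 + π * ((r : ℤ) + 1 : ℤ)) :
    a * (μ / 2) * cdl r (a ^ 2 / 4 - (μ / 2) ^ 2) ((μ / 2) ^ 2) (r + 1)
        * (∫ τ in (0 : ℝ)..π, exp (a * Ci φ τ) * cos τ)
      + 2 * (cdm r (a ^ 2 / 4 - (μ / 2) ^ 2) ((μ / 2) ^ 2) (r + 1)
          - (μ / 2) ^ 2 * cdl r (a ^ 2 / 4 - (μ / 2) ^ 2) ((μ / 2) ^ 2) (r + 1))
        * (∫ τ in (0 : ℝ)..π, exp (a * Ci φ τ) * sin (φ τ))
      + 4 * (μ / 2) * cD r (a ^ 2 / 4 - (μ / 2) ^ 2) ((μ / 2) ^ 2)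
        * (∫ τ in (0 : ℝ)..π, exp (a * Ci φ τ) * sin (φ τ) * cos τ) = 0 := by
  have hs := sym_eq hσ h h0
  have hc := h.continuous
  have hC := continuous_Ci hc
  have hper := period_eq hσ h h0 hπ
  have hid := integral_identity (r := r) (al := σ * a) (q := μ / 2) (X := XX r a μ σ φ)
    (hasDerivAt_XX hσ h hs) (XX_anti hσ hc hs hper) hr (by intro h; exact hμ (by linarith))
  have hXc : Continuous (XX r a μ σ φ) := contX (hasDerivAt_XX hσ h hs)
  have hσ2 : σ ^ 2 = 1 := by rcases hσ with rfl | rfl <;> norm_num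
  have hlam : (((σ * a : ℝ) : ℂ) ^ 2 / 4 - ((μ / 2 : ℝ) : ℂ) ^ 2)
      = Complex.ofRealHom (a ^ 2 / 4 - (μ / 2) ^ 2) := by
    have : (σ : ℂ) ^ 2 = 1 := by exact_mod_cast hσ2
    simp only [Complex.ofRealHom_eq_coe]
    push_cast
    linear_combination ((a : ℂ) ^ 2 / 4) * this
  have hm : ((μ / 2 : ℝ) : ℂ) ^ 2 = Complex.ofRealHom ((μ / 2) ^ 2) := by
    simp only [Complex.ofRealHom_eq_coe]
    push_cast
    ring
  rw [hlam, hm, ← map_cdl, ← map_cdm, ← map_cD] at hid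
  simp only [Complex.ofRealHom_eq_coe] at hid
  have hre := congrArg Complex.re hid
  have hcomb : ∀ (A B C : ℝ) (x y z : ℂ), ((A : ℂ) * x + (B : ℂ) * y + (C : ℂ) * z).re
      = A * x.re + B * y.re + C * z.re := by
    intro A B C x y z
    simp
  have hX1 : Continuous fun t : ℝ => XX r a μ σ φ t * XX r a μ σ φ (-t) * Complex.exp (Complex.I * t) := by
    fun_prop
  have hES : Continuous (eS r (μ / 2)) := by unfold eS; fun_prop
  have e1 : (∫ τ in (-π)..π, XX r a μ σ φ τ * XX r a μ σ φ (-τ) * Complex.exp (Complex.I * τ)).re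
      = ∫ τ in (-π)..π, exp (a * Ci φ τ) * cos τ := by
    refine re_integral hX1 fun t => ?_
    rw [XX_mul hσ hs, exp_I_phi, re_aux2]
  have e2 : (∫ τ in (-π)..π, eS r (μ / 2) τ * XX r a μ σ φ τ ^ 2).re
      = ∫ τ in (-π)..π, σ * (exp (a * Ci φ τ) * sin (φ τ)) := by
    refine re_integral (by fun_prop) fun t => ?_
    rw [eS_XX hσ]
    have : -(Complex.I * (σ : ℂ)) * ((exp (a * Ci φ t) : ℝ) : ℂ) * (cos (φ t) + Complex.I * sin (φ t))
        = ((σ * (exp (a * Ci φ t) * sin (φ t)) : ℝ) : ℂ)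
          - ((σ * (exp (a * Ci φ t) * cos (φ t)) : ℝ) : ℂ) * Complex.I := by
      push_cast
      linear_combination (-(σ * Complex.exp (a * Ci φ t) * Complex.sin (φ t) : ℂ)) * Complex.I_mul_I
    rw [this, re_aux]
  have e3 : (∫ τ in (-π)..π, eS r (μ / 2) τ * XX r a μ σ φ τ ^ 2 * cos τ).re
      = ∫ τ in (-π)..π, σ * (exp (a * Ci φ τ) * sin (φ τ) * cos τ) := by
    refine re_integral (by fun_prop) fun t => ?_
    rw [eS_XX hσ]
    have : -(Complex.I * (σ : ℂ)) * ((exp (a * Ci φ t) : ℝ) : ℂ) * (cos (φ t) + Complex.I * sin (φ t))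
          * cos t
        = ((σ * (exp (a * Ci φ t) * sin (φ t) * cos t) : ℝ) : ℂ)
          - ((σ * (exp (a * Ci φ t) * cos (φ t) * cos t) : ℝ) : ℂ) * Complex.I := by
      push_cast
      linear_combination (-(σ * Complex.exp (a * Ci φ t) * Complex.sin (φ t) * Complex.cos t : ℂ))
        * Complex.I_mul_I
    rw [this, re_aux]
  have hid2 := hcomb (σ * a * (μ / 2) * cdl r (a ^ 2 / 4 - (μ / 2) ^ 2) ((μ / 2) ^ 2) (r + 1))
    (2 * (cdm r (a ^ 2 / 4 - (μ / 2) ^ 2) ((μ / 2) ^ 2) (r + 1)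
          - (μ / 2) ^ 2 * cdl r (a ^ 2 / 4 - (μ / 2) ^ 2) ((μ / 2) ^ 2) (r + 1)))
    (4 * (μ / 2) * cD r (a ^ 2 / 4 - (μ / 2) ^ 2) ((μ / 2) ^ 2))
    (∫ τ in (-π)..π, XX r a μ σ φ τ * XX r a μ σ φ (-τ) * Complex.exp (Complex.I * τ))
    (∫ τ in (-π)..π, eS r (μ / 2) τ * XX r a μ σ φ τ ^ 2)
    (∫ τ in (-π)..π, eS r (μ / 2) τ * XX r a μ σ φ τ ^ 2 * cos τ)
  push_cast at hid2 hre e3
  rw [hid2] at hre
  rw [e1, e2, e3, intervalIntegral.integral_const_mul, intervalIntegral.integral_const_mul] at hre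
  have E1 := integral_even' (f := fun τ => exp (a * Ci φ τ) * cos τ) (by fun_prop)
    (fun x => by rw [Ci_even hσ hs, Real.cos_neg]) π
  have E2 := integral_even' (f := fun τ => exp (a * Ci φ τ) * sin (φ τ)) (by fun_prop)
    (fun x => by rw [Ci_even hσ hs, hs, sin_sig hσ]) π
  have E3 := integral_even' (f := fun τ => exp (a * Ci φ τ) * sin (φ τ) * cos τ) (by fun_prop)
    (fun x => by rw [Ci_even hσ hs, hs, sin_sig hσ, Real.cos_neg]) π
  rw [E1, E2, E3] at hre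
  simp only [Complex.zero_re] at hre
  rcases hσ with rfl | rfl
  · linear_combination (1 / 2 : ℝ) * hre
  · linear_combination (-1 / 2 : ℝ) * hre

/-- `a c0 = r s2 + μ d1`. -/
theorem balance (hσ : σ = 1 ∨ σ = -1) (h : Sol r a μ φ)
    (h0 : φ 0 = σ * π / 2) (hπ : φ π = σ * π / 2 + π * ((r : ℤ) + 1 : ℤ)) :
    a * (∫ τ in (0 : ℝ)..π, exp (a * Ci φ τ))
      = r * (∫ τ in (0 : ℝ)..π, exp (a * Ci φ τ) * sin (φ τ))
        + μ * (∫ τ in (0 : ℝ)..π, exp (a * Ci φ τ) * sin (φ τ) * cos τ) := by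
  have hc := h.continuous
  have hC := continuous_Ci hc
  have hcos0 : cos (σ * π / 2) = 0 := by
    rcases hσ with rfl | rfl
    · rw [one_mul, Real.cos_pi_div_two]
    · rw [show (-1 : ℝ) * π / 2 = -(π / 2) by ring, Real.cos_neg, Real.cos_pi_div_two]
  have hcosπ : cos (φ π) = 0 := by
    rw [hπ, mul_comm π, Real.cos_add_int_mul_pi, hcos0, mul_zero]
  have hd : ∀ τ, HasDerivAt (fun τ => exp (a * Ci φ τ) * cos (φ τ))
      (a * exp (a * Ci φ τ) - r * (exp (a * Ci φ τ) * sin (φ τ))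
        - μ * (exp (a * Ci φ τ) * sin (φ τ) * cos τ)) τ := by
    intro τ
    have h1 := ((hasDerivAt_Ci hc τ).const_mul a).exp
    have h2 := (h τ).cos
    refine (h1.mul h2).congr_deriv ?_
    have := Real.sin_sq_add_cos_sq (φ τ)
    linear_combination (a * exp (a * Ci φ τ)) * this
  have hint := intervalIntegral.integral_eq_sub_of_hasDerivAt (a := 0) (b := π)
    (fun τ _ => hd τ) ((by fun_prop : Continuous fun τ => a * exp (a * Ci φ τ)
      - r * (exp (a * Ci φ τ) * sin (φ τ))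
        - μ * (exp (a * Ci φ τ) * sin (φ τ) * cos τ)).intervalIntegrable _ _)
  rw [hcosπ, h0, hcos0, mul_zero, mul_zero, sub_zero,
    intervalIntegral.integral_sub, intervalIntegral.integral_sub,
    intervalIntegral.integral_const_mul, intervalIntegral.integral_const_mul,
    intervalIntegral.integral_const_mul] at hint
  · linarith
  all_goals exact Continuous.intervalIntegrable (by fun_prop) _ _

end Pool.Agent.Helper96.Josephson
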