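import Mathlib
import Pool.Agent.Helper96.Josephson.Sym

/-!
Non-vanishing of the determinant at parameters with an antiperiodic solution.
-/

namespace Pool.Agent.Helper96.Josephson

open Finset Complex

section poly

variable (r : ℕ) (lam q : ℂ)

/-- coefficients of the polynomial solution. -/
noncomputable def pc (n : ℕ) : ℂ := cp r lam (q ^ 2) (n + 1) * (q ^ n * (n.factorial : ℂ))⁻¹

lemma pc_zero : pc r lam q 0 = 1 := by simp [pc, cp]

/-- auxiliary telescoping terms -/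
noncomputable def pU (z : ℂ) (n : ℕ) : ℂ :=
  -(cE r (q ^ 2) n * cp r lam (q ^ 2) n * (q ^ n * (n.factorial : ℂ))⁻¹ * z ^ n)

/-- auxiliary telescoping terms -/
noncomputable def pV (z w : ℂ) (n : ℕ) : ℂ := q * n * pc r lam q n * z ^ n * w

variable {q}

lemma pcfac (hq : q ≠ 0) (n : ℕ) : (q ^ (n + 1) * ((n + 1).factorial : ℂ))⁻¹ * (q * ((n : ℂ) + 1))
    = (q ^ n * (n.factorial : ℂ))⁻¹ := by
  have h1 : ((n : ℂ) + 1) ≠ 0 := by exact_mod_cast Nat.succ_ne_zero n
  have h2 : (n.factorial : ℂ) ≠ 0 := by exact_mod_cast Nat.factorial_ne_zero n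
  rw [Nat.factorial_succ]
  push_cast
  field_simp
  ring

lemma pU_succ (hq : q ≠ 0) (z : ℂ) (n : ℕ) :
    pU r lam q z (n + 1) = q * ((n : ℂ) + 1 - r) * pc r lam q n * z ^ (n + 1) := by
  unfold pU pc cE
  rw [← pcfac hq n]
  push_cast
  ring

lemma pV_succ (hq : q ≠ 0) {z w : ℂ} (hzw : z * w = 1) (n : ℕ) :
    pV r lam q z w (n + 1) = cA r lam n * pc r lam q n * z ^ n + pU r lam q z n := by
  unfold pV pU pc
  rw [← pcfac hq n, cp]
  push_cast
  linear_combination (q * ((n : ℂ) + 1) * ((cA r lam n * cp r lam (q ^ 2) (n + 1)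
    - cE r (q ^ 2) n * cp r lam (q ^ 2) n)
    * (q ^ (n + 1) * ((n + 1).factorial : ℂ))⁻¹) * z ^ n) * hzw

lemma poly_ode (hq : q ≠ 0) {z w : ℂ} (hzw : z * w = 1) (hD : cD r lam (q ^ 2) = 0) :
    ∑ n ∈ range (r + 1), (cA r lam n * pc r lam q n * z ^ n
      + q * ((n : ℂ) + 1 - r) * pc r lam q n * z ^ (n + 1)
      - q * n * pc r lam q n * z ^ n * w) = 0 := by
  have h : ∀ n ∈ range (r + 1), (cA r lam n * pc r lam q n * z ^ n
      + q * ((n : ℂ) + 1 - r) * pc r lam q n * z ^ (n + 1)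
      - q * n * pc r lam q n * z ^ n * w)
      = (pV r lam q z w (n + 1) + pU r lam q z (n + 1)) - (pV r lam q z w n + pU r lam q z n) := by
    intro n _
    rw [pV_succ r lam hq hzw, pU_succ r lam hq]
    unfold pV
    ring
  rw [sum_congr rfl h, sum_range_sub (fun n => pV r lam q z w n + pU r lam q z n)]
  have h1 : pV r lam q z w 0 = 0 := by simp [pV]
  have h2 : pU r lam q z 0 = 0 := by simp [pU, cE]
  have h3 : pc r lam q r = 0 := by
    unfold pc
    have : cp r lam (q ^ 2) (r + 1) = 0 := hD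
    rw [this, zero_mul]
  rw [h1, h2, pU_succ r lam hq, pV_succ r lam hq hzw, h3]
  have h4 : pU r lam q z r = 0 := by
    unfold pU
    rw [cE_r]
    ring
  rw [h4]
  ring

end poly

/-- `Σ c_n z^n`, `z = e^{-iτ}`. -/
noncomputable def trig (r : ℕ) (c : ℕ → ℂ) (τ : ℝ) : ℂ :=
  ∑ n ∈ range (r + 1), c n * cexp (-(I * τ)) ^ n

lemma hasDerivAt_z (τ : ℝ) : HasDerivAt (fun τ : ℝ => cexp (-(I * τ))) (-(I * cexp (-(I * τ)))) τ := by
  have h := hasDerivAt_exp_mul (-I) τ
  simp only [neg_mul] at h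
  exact h

lemma hasDerivAt_trig (r : ℕ) (c : ℕ → ℂ) (τ : ℝ) :
    HasDerivAt (trig r c) (-(I * trig r (fun n => n * c n) τ)) τ := by
  unfold trig
  have h : ∀ n ∈ range (r + 1), HasDerivAt (fun τ : ℝ => c n * cexp (-(I * τ)) ^ n)
      (-(I * (n * c n * cexp (-(I * τ)) ^ n))) τ := by
    intro n _
    have h1 := ((hasDerivAt_z τ).pow n).const_mul (c n)
    refine h1.congr_deriv ?_
    rcases n with _ | n
    · simp
    · push_cast
      ring
  have h2 := HasDerivAt.fun_sum h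
  refine h2.congr_deriv ?_
  rw [sum_neg_distrib, mul_sum]

lemma trig_period (r : ℕ) (c : ℕ → ℂ) (τ : ℝ) : trig r c (τ + 2 * Real.pi) = trig r c τ := by
  unfold trig
  simp only [exp_neg_I_period]

lemma trig_ne (r : ℕ) (c : ℕ → ℂ) (hc : c 0 ≠ 0) : ∃ τ, trig r c τ ≠ 0 := by
  by_contra hcon
  push Not at hcon
  set P : Polynomial ℂ := ∑ n ∈ range (r + 1), Polynomial.C (c n) * Polynomial.X ^ n with hP
  have hev : ∀ τ : ℝ, P.eval (cexp (-(I * τ))) = 0 := by
    intro τ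
    rw [hP, Polynomial.eval_finsetSum]
    have := hcon τ
    unfold trig at this
    rw [← this]
    refine sum_congr rfl fun n _ => ?_
    simp
  have hinf : Set.Infinite {x | P.eval x = (0 : Polynomial ℂ).eval x} := by
    refine Set.infinite_of_injective_forall_mem (f := fun n : ℕ => cexp (-(I * ((1 / ((n : ℝ) + 1) : ℝ) : ℂ)))) ?_ ?_
    · intro m n hmn
      simp only at hmn
      have hle : ∀ k : ℕ, 0 < (1 / ((k : ℝ) + 1)) ∧ (1 / ((k : ℝ) + 1)) ≤ 1 := by
        intro k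
        have hk : (0 : ℝ) ≤ k := Nat.cast_nonneg k
        refine ⟨by positivity, ?_⟩
        rw [div_le_one (by positivity)]
        linarith
      have hpi := Real.pi_gt_three
      have him : ∀ x : ℝ, (-(I * (x : ℂ))).im = -x := by intro x; simp
      have h2 := Complex.exp_inj_of_neg_pi_lt_of_le_pi (x := -(I * ((1 / ((m : ℝ) + 1) : ℝ) : ℂ)))
        (y := -(I * ((1 / ((n : ℝ) + 1) : ℝ) : ℂ)))
        (by rw [him]; linarith [(hle m).2]) (by rw [him]; linarith [(hle m).1])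
        (by rw [him]; linarith [(hle n).2]) (by rw [him]; linarith [(hle n).1]) hmn
      have h3 := congrArg Complex.im h2
      rw [him, him] at h3
      have h4 : (m : ℝ) + 1 = (n : ℝ) + 1 := by
        have h5 := neg_injective h3
        have := congrArg (fun x => 1 / x) h5
        simpa using this
      have h5 : (m : ℝ) = n := by linarith
      exact_mod_cast h5
    · intro n
      simp only [Set.mem_ofPred_eq, Polynomial.eval_zero]
      exact hev _
  have hP0 := Polynomial.eq_of_infinite_eval_eq _ _ hinf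
  have hcoef : P.coeff 0 = c 0 := by
    rw [hP, Polynomial.finsetSum_coeff]
    rw [sum_eq_single 0]
    · simp
    · intro n _ hn
      simp [Polynomial.coeff_X_pow, Ne.symm hn]
    · simp
  rw [hP0] at hcoef
  exact hc (by simpa using hcoef.symm)

theorem cD_ne_zero_of_anti {r : ℕ} {al q : ℝ} {X : ℝ → ℂ} (hal : al ≠ 0) (hq : q ≠ 0)
    (hX : ∀ τ, HasDerivAt X (-(I * (al / 2) * (cexp (-(I * (r * τ + 2 * q * Real.sin τ))) * X (-τ)))) τ)
    (hanti : ∀ τ, X (τ + 2 * Real.pi) = -X τ) (hne : ∀ τ, X τ ≠ 0) :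
    cD r ((al : ℂ) ^ 2 / 4 - q ^ 2) ((q : ℂ) ^ 2) ≠ 0 := by
  intro hD
  have hqc : (q : ℂ) ≠ 0 := by exact_mod_cast hq
  have halc : (al : ℂ) ≠ 0 := by exact_mod_cast hal
  set lam : ℂ := (al : ℂ) ^ 2 / 4 - q ^ 2 with hlam
  set c : ℕ → ℂ := pc r lam q with hc
  set A := trig r c with hA
  set A1 := trig r (fun n => n * c n) with hA1
  set A2 := trig r (fun n => n * (n * c n)) with hA2
  set z : ℝ → ℂ := fun τ => cexp (-(I * τ)) with hz
  set w : ℝ → ℂ := fun τ => cexp (I * τ) with hw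
  set E : ℝ → ℂ := fun τ => cexp (q * z τ) with hE
  set B : ℝ → ℂ := fun τ => q * z τ * A τ + A1 τ with hB
  have dA : ∀ τ, HasDerivAt A (-(I * A1 τ)) τ := hasDerivAt_trig r c
  have dA1 : ∀ τ, HasDerivAt A1 (-(I * A2 τ)) τ := hasDerivAt_trig r _
  have dz : ∀ τ, HasDerivAt z (-(I * z τ)) τ := hasDerivAt_z
  have dE : ∀ τ, HasDerivAt E (-(I * (q * z τ)) * E τ) τ := by
    intro τ
    refine ((dz τ).const_mul (q : ℂ)).cexp.congr_deriv ?_
    simp only [hE]
    ring
  have dB : ∀ τ, HasDerivAt B (-(I * (q * z τ * A τ + q * z τ * A1 τ + A2 τ))) τ := by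
    intro τ
    refine ((((dz τ).const_mul (q : ℂ)).mul (dA τ)).add (dA1 τ)).congr_deriv ?_
    ring
  -- e^{iS}
  have dS : ∀ τ, HasDerivAt (eS r q) (I * (r + q * z τ + q * w τ) * eS r q τ) τ := by
    intro τ
    have h1 := (((hasDerivAt_ofReal τ).const_mul (r : ℂ)).add
      (((Real.hasDerivAt_sin τ).ofReal_comp).const_mul (2 * (q : ℂ)))).const_mul I
    refine h1.cexp.congr_deriv ?_
    have h3 : 2 * (Real.cos τ : ℂ) = cexp (I * τ) + cexp (-(I * τ)) := by
      rw [mul_comm I (τ : ℂ), Complex.exp_mul_I, ← neg_mul, Complex.exp_mul_I, Complex.cos_neg,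
        Complex.sin_neg, Complex.ofReal_cos]
      ring
    simp only [hz, hw, eS, Pi.add_apply]
    linear_combination (I * q * cexp (I * (r * τ + 2 * q * Real.sin τ))) * h3
  set Xp : ℝ → ℂ := fun τ => E τ * A τ with hXp
  set Yp : ℝ → ℂ := fun τ => 2 / al * (eS r q τ * (E τ * B τ)) with hYp
  have dXp : ∀ τ, HasDerivAt Xp (-(I * (E τ * B τ))) τ := by
    intro τ
    refine ((dE τ).mul (dA τ)).congr_deriv ?_
    simp only [hB]
    ring
  have hzw : ∀ τ, z τ * w τ = 1 := fun τ => exp_neg_mul _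
  have hode : ∀ τ, A2 τ - r * A1 τ + lam * A τ + q * z τ * A1 τ + q * (1 - r) * z τ * A τ
      - q * w τ * A1 τ = 0 := by
    intro τ
    have h := poly_ode r lam hqc (hzw τ) hD
    rw [← h]
    simp only [hA, hA1, hA2, trig]
    simp only [mul_sum]
    rw [← sum_sub_distrib, ← sum_add_distrib, ← sum_add_distrib, ← sum_add_distrib,
      ← sum_sub_distrib]
    refine sum_congr rfl fun n _ => ?_
    simp only [hz, cA]
    ring
  have dYp : ∀ τ, HasDerivAt Yp (I * (al / 2) * (eS r q τ * Xp τ)) τ := by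
    intro τ
    refine (((dS τ).mul ((dE τ).mul (dB τ))).const_mul (2 / (al : ℂ))).congr_deriv ?_
    simp only [hXp, hB, Pi.mul_apply]
    have h := hode τ
    have h2 := hzw τ
    field_simp
    rw [hlam] at h
    linear_combination (-4 * eS r q τ * E τ) * h
      + (4 * eS r q τ * E τ * (q : ℂ) ^ 2 * A τ) * h2
  have dY : ∀ τ, HasDerivAt (fun τ => X (-τ)) (I * (al / 2) * (eS r q τ * X τ)) τ := by
    intro τ
    have h1 := (hX (-τ)).scomp τ (hasDerivAt_neg τ)
    refine h1.congr_deriv ?_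
    rw [neg_neg, Real.sin_neg]
    have : cexp (-(I * (r * ((-τ : ℝ) : ℂ) + 2 * q * ((-Real.sin τ : ℝ) : ℂ)))) = eS r q τ := by
      unfold eS
      congr 1
      push_cast
      ring
    rw [this]
    simp
  have heS : ∀ τ : ℝ, cexp (-(I * (r * τ + 2 * q * Real.sin τ))) * eS r q τ = 1 := fun τ => exp_neg_mul _
  have dW : ∀ τ, HasDerivAt (fun τ => Xp τ * X (-τ) - Yp τ * X τ) 0 τ := by
    intro τ
    refine (((dXp τ).mul (dY τ)).sub ((dYp τ).mul (hX τ))).congr_deriv ?_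
    simp only [hYp]
    have h := heS τ
    field_simp
    linear_combination (2 * I * E τ * B τ * X (-τ)) * h
  have hWconst : ∀ τ τ', (Xp τ * X (-τ) - Yp τ * X τ) = (Xp τ' * X (-τ') - Yp τ' * X τ') := by
    intro τ τ'
    exact is_const_of_deriv_eq_zero (f := fun τ => Xp τ * X (-τ) - Yp τ * X τ)
      (fun x => (dW x).differentiableAt) (fun x => (dW x).deriv) τ τ'
  have hzp : ∀ τ, z (τ + 2 * Real.pi) = z τ := exp_neg_I_period
  have hAp : ∀ τ, A (τ + 2 * Real.pi) = A τ := trig_period r c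
  have hA1p : ∀ τ, A1 (τ + 2 * Real.pi) = A1 τ := trig_period r _
  have hSp : ∀ τ, eS r q (τ + 2 * Real.pi) = eS r q τ := by
    intro τ
    unfold eS
    rw [Real.sin_add_two_pi]
    have : I * (r * ((τ + 2 * Real.pi : ℝ) : ℂ) + 2 * q * Real.sin τ)
        = I * (r * τ + 2 * q * Real.sin τ) + (r : ℤ) * (2 * Real.pi * I) := by
      push_cast; ring
    rw [this, Complex.exp_add, Complex.exp_int_mul_two_pi_mul_I, mul_one]
  have hXpp : ∀ τ, Xp (τ + 2 * Real.pi) = Xp τ := by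
    intro τ
    simp only [hXp, hE]
    rw [hzp, hAp]
  have hYpp : ∀ τ, Yp (τ + 2 * Real.pi) = Yp τ := by
    intro τ
    simp only [hYp, hE, hB]
    rw [hzp, hAp, hA1p, hSp]
  have hXneg : ∀ τ, X (-(τ + 2 * Real.pi)) = -X (-τ) := by
    intro τ
    have := hanti (-(τ + 2 * Real.pi))
    rw [show -(τ + 2 * Real.pi) + 2 * Real.pi = -τ by ring] at this
    rw [this, neg_neg]
  have hW0 : ∀ τ, Xp τ * X (-τ) - Yp τ * X τ = 0 := by
    intro τ
    have h1 := hWconst (τ + 2 * Real.pi) τ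
    rw [hXpp, hYpp, hXneg, hanti] at h1
    have h2 : (2 : ℂ) * (Xp τ * X (-τ) - Yp τ * X τ) = 0 := by linear_combination -h1
    exact (mul_eq_zero.mp h2).resolve_left two_ne_zero
  have dR : ∀ τ, HasDerivAt (fun τ => Xp τ / X τ) 0 τ := by
    intro τ
    refine ((dXp τ).div (hX τ) (hne τ)).congr_deriv ?_
    rw [div_eq_zero_iff]
    left
    have h1 := hW0 τ
    have h2 := heS τ
    simp only [hYp] at h1
    have h3 : Xp τ * X (-τ) * al = 2 * (eS r q τ * (E τ * B τ)) * X τ := by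
      have : Xp τ * X (-τ) = 2 / al * (eS r q τ * (E τ * B τ)) * X τ := sub_eq_zero.mp h1
      rw [this]
      field_simp
    linear_combination (I / 2 * cexp (-(I * (r * τ + 2 * q * Real.sin τ)))) * h3
      + (I * E τ * B τ * X τ) * h2
  have hR : ∀ τ, Xp (τ + 2 * Real.pi) / X (τ + 2 * Real.pi) = Xp τ / X τ := by
    intro τ
    exact is_const_of_deriv_eq_zero (f := fun τ => Xp τ / X τ)
      (fun x => (dR x).differentiableAt) (fun x => (dR x).deriv) _ _
  obtain ⟨τ, hτ⟩ := trig_ne r c (by rw [hc, pc_zero]; exact one_ne_zero)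
  have h1 := hR τ
  rw [hXpp, hanti, div_neg] at h1
  have h2 : (2 : ℂ) * (Xp τ / X τ) = 0 := by linear_combination -h1
  have h3 := (mul_eq_zero.mp h2).resolve_left two_ne_zero
  rw [div_eq_zero_iff] at h3
  have h4 := h3.resolve_right (hne τ)
  simp only [hXp] at h4
  exact hτ ((mul_eq_zero.mp h4).resolve_left (Complex.exp_ne_zero _))

open Real in
/-- Non-vanishing on the set of symmetric antiperiodic parameters. -/
theorem cD_ne_zero {r : ℕ} {a μ σ : ℝ} {φ : ℝ → ℝ} (ha : a ≠ 0) (hμ : μ ≠ 0)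
    (hσ : σ = 1 ∨ σ = -1) (h : Sol r a μ φ)
    (h0 : φ 0 = σ * π / 2) (hπ : φ π = σ * π / 2 + π * ((r : ℤ) + 1 : ℤ)) :
    cD r (a ^ 2 / 4 - (μ / 2) ^ 2) ((μ / 2) ^ 2) ≠ 0 := by
  have hs := sym_eq hσ h h0
  have hc := h.continuous
  have hper := period_eq hσ h h0 hπ
  have hσ2 : σ ^ 2 = 1 := by rcases hσ with rfl | rfl <;> norm_num
  have hσ0 : σ ≠ 0 := by rcases hσ with rfl | rfl <;> norm_num
  have hne : ∀ τ, XX r a μ σ φ τ ≠ 0 := fun τ => mul_ne_zero (exp_ne_zero _) (exp_ne_zero _)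
  have hid := cD_ne_zero_of_anti (r := r) (al := σ * a) (q := μ / 2) (X := XX r a μ σ φ)
    (mul_ne_zero hσ0 ha) (by intro h; exact hμ (by linarith))
    (hasDerivAt_XX hσ h hs) (XX_anti hσ hc hs hper) hne
  have hlam : (((σ * a : ℝ) : ℂ) ^ 2 / 4 - ((μ / 2 : ℝ) : ℂ) ^ 2)
      = Complex.ofRealHom (a ^ 2 / 4 - (μ / 2) ^ 2) := by
    have : (σ : ℂ) ^ 2 = 1 := by exact_mod_cast hσ2
    simp only [Complex.ofRealHom_eq_coe]
    push_cast
    linear_combination ((a : ℂ) ^ 2 / 4) * this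
  have hm : ((μ / 2 : ℝ) : ℂ) ^ 2 = Complex.ofRealHom ((μ / 2) ^ 2) := by
    simp only [Complex.ofRealHom_eq_coe]
    push_cast
    ring
  rw [hlam, hm, ← map_cD] at hid
  intro hz
  rw [hz] at hid
  simp at hid

end Pool.Agent.Helper96.Josephson
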