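import Mathlib
import Pool.Agent.Helper96.Josephson.Nonvanish

/-!
A priori bounds for parameters with a symmetric orbit of the required displacement.
-/

namespace Pool.Agent.Helper96.Josephson

open Real MeasureTheory intervalIntegral Set

variable {r a μ : ℝ} {φ : ℝ → ℝ}

lemma displacement (h : Sol r a μ φ) :
    φ π - φ 0 = r * π - a * ∫ τ in (0 : ℝ)..π, sin (φ τ) := by
  have hc := h.continuous
  have h1 := intervalIntegral.integral_eq_sub_of_hasDerivAt (a := 0) (b := π) (fun τ _ => h τ)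
    ((by fun_prop : Continuous fun τ => r + μ * cos τ - a * sin (φ τ)).intervalIntegrable _ _)
  rw [← h1, intervalIntegral.integral_sub, intervalIntegral.integral_add,
    intervalIntegral.integral_const_mul, intervalIntegral.integral_const_mul, integral_cos]
  · simp
    ring
  all_goals exact Continuous.intervalIntegrable (by fun_prop) _ _

lemma abs_int_sin_le : |∫ τ in (0 : ℝ)..π, sin (φ τ)| ≤ π := by
  have := intervalIntegral.norm_integral_le_of_norm_le_const (a := 0) (b := π) (C := 1)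
    (f := fun s => sin (φ s)) (fun s _ => by simpa using abs_sin_le_one (φ s))
  rw [norm_eq_abs, one_mul, sub_zero, abs_of_pos pi_pos] at this
  exact this

lemma one_le_a (h : Sol r a μ φ) (ha : 0 ≤ a) (hd : φ π - φ 0 = π * (r + 1)) : 1 ≤ a := by
  have h1 := displacement h
  rw [hd] at h1
  have h2 : a * (∫ τ in (0 : ℝ)..π, sin (φ τ)) = -π := by linarith
  have h3 := congrArg abs h2
  rw [abs_mul, abs_neg, abs_of_pos pi_pos, abs_of_nonneg ha] at h3
  have h4 := abs_int_sin_le (φ := φ)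
  by_contra hlt
  push Not at hlt
  have h5 : a * |∫ τ in (0 : ℝ)..π, sin (φ τ)| ≤ a * π := mul_le_mul_of_nonneg_left h4 ha
  nlinarith [pi_pos]

lemma a_le (h : Sol r a μ φ) (hμ : 0 ≤ μ) (h0 : φ 0 ≤ π / 2) (hπ : π / 2 < φ π) : a ≤ μ + r := by
  by_contra hlt
  push Not at hlt
  have hc := h.continuous
  have key : ∀ ⦃x⦄, x ∈ Icc (0 : ℝ) π → φ x ≤ (fun _ => π / 2) x := by
    refine image_le_of_deriv_right_lt_deriv_boundary (f' := fun τ => r + μ * cos τ - a * sin (φ τ))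
      (B' := fun _ => 0) hc.continuousOn (fun τ _ => (h τ).hasDerivWithinAt) h0
      (fun τ => hasDerivAt_const τ (π / 2)) ?_
    intro τ _ he
    have he' : φ τ = π / 2 := he
    show r + μ * cos τ - a * sin (φ τ) < 0
    rw [he', sin_pi_div_two]
    have : μ * cos τ ≤ μ := mul_le_of_le_one_right hμ (cos_le_one τ)
    linarith
  have := key (right_mem_Icc.mpr pi_pos.le)
  simp only at this
  linarith

lemma eight_r_le (h : Sol r a μ φ) (ha : 0 < a) (hd : φ π - φ 0 = π * (r + 1))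
    (hc0 : cos (φ 0) = 0) (hcπ : cos (φ π) = 0) : 8 * r ≤ μ ^ 2 := by
  have hc := h.continuous
  have h1 := displacement h
  rw [hd] at h1
  set s1 := ∫ τ in (0 : ℝ)..π, sin (φ τ) with hs1
  have h2 : a * s1 = -π := by linarith
  have h3 := intervalIntegral.integral_eq_sub_of_hasDerivAt (a := 0) (b := π)
    (fun τ _ => (h τ).cos) ((by fun_prop : Continuous fun τ => -sin (φ τ)
      * (r + μ * cos τ - a * sin (φ τ))).intervalIntegrable _ _)
  rw [hc0, hcπ, sub_zero] at h3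
  have h4 : ∫ τ in (0 : ℝ)..π, -sin (φ τ) * (r + μ * cos τ - a * sin (φ τ))
      = -r * s1 - ∫ τ in (0 : ℝ)..π, (μ * cos τ * sin (φ τ) - a * sin (φ τ) ^ 2) := by
    rw [hs1, ← intervalIntegral.integral_const_mul, ← intervalIntegral.integral_sub]
    · refine intervalIntegral.integral_congr fun τ _ => ?_
      ring
    all_goals exact Continuous.intervalIntegrable (by fun_prop) _ _
  rw [h4] at h3
  have h5 : ∫ τ in (0 : ℝ)..π, (μ * cos τ * sin (φ τ) - a * sin (φ τ) ^ 2)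
      ≤ ∫ τ in (0 : ℝ)..π, μ ^ 2 / (4 * a) * cos τ ^ 2 := by
    refine intervalIntegral.integral_mono_on pi_pos.le
      (Continuous.intervalIntegrable (by fun_prop) _ _)
      (Continuous.intervalIntegrable (by fun_prop) _ _) fun τ _ => ?_
    have hsq : 0 ≤ (μ * cos τ - 2 * a * sin (φ τ)) ^ 2 := sq_nonneg _
    have e : μ ^ 2 / (4 * a) * cos τ ^ 2 - (μ * cos τ * sin (φ τ) - a * sin (φ τ) ^ 2)
        = (μ * cos τ - 2 * a * sin (φ τ)) ^ 2 / (4 * a) := by
      field_simp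
      ring
    have : 0 ≤ (μ * cos τ - 2 * a * sin (φ τ)) ^ 2 / (4 * a) := by positivity
    linarith
  rw [intervalIntegral.integral_const_mul, integral_cos_sq] at h5
  simp only [cos_pi, sin_pi, cos_zero, sin_zero, mul_zero, sub_zero, zero_add] at h5
  have h6 : -r * s1 ≤ μ ^ 2 / (4 * a) * (π / 2) := by linarith
  have h7 : -r * s1 = r * π / a := by
    rw [eq_div_iff ha.ne']
    linear_combination (-r) * h2
  rw [h7, div_le_iff₀ ha] at h6
  have h8 : μ ^ 2 / (4 * a) * (π / 2) * a = μ ^ 2 * π / 8 := by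
    field_simp
    ring
  rw [h8] at h6
  have hpi := pi_pos
  by_contra hlt
  push Not at hlt
  nlinarith

/-! ### continuant bound -/

lemma cp_bound (r : ℕ) {lam m M : ℝ} (hM : 1 ≤ M) (hA : ∀ j ≤ r, |cA r lam j| ≤ M)
    (hE : ∀ j ≤ r, |cE r m j| ≤ M) (j : ℕ) (hj : j ≤ r) :
    |cp r lam m (j + 1)| ≤ (2 * M) ^ j ∧ |cp r lam m j| ≤ (2 * M) ^ j := by
  induction j with
  | zero => simp [cp]
  | succ j ih =>
    have hj' : j ≤ r := by omega
    obtain ⟨h1, h2⟩ := ih hj'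
    have hp : (0 : ℝ) ≤ (2 * M) ^ j := by positivity
    refine ⟨?_, ?_⟩
    · rw [cp]
      calc |cA r lam j * cp r lam m (j + 1) - cE r m j * cp r lam m j|
          ≤ |cA r lam j * cp r lam m (j + 1)| + |cE r m j * cp r lam m j| := abs_sub _ _
        _ = |cA r lam j| * |cp r lam m (j + 1)| + |cE r m j| * |cp r lam m j| := by
          rw [abs_mul, abs_mul]
        _ ≤ M * (2 * M) ^ j + M * (2 * M) ^ j := by
          have a1 := hA j hj'
          have a2 := hE j hj'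
          gcongr
        _ = (2 * M) ^ (j + 1) := by ring
    · refine h1.trans ?_
      rw [pow_succ]
      nlinarith

lemma cD_bound (r : ℕ) (hr : 1 ≤ r) {a μ : ℝ} (ha : 0 ≤ a) (haμ : a ≤ μ + r) (hμ : 1 ≤ μ) :
    |cD r (a ^ 2 / 4 - (μ / 2) ^ 2) ((μ / 2) ^ 2)| ≤ (2 * ((1 + r) ^ 2 + r ^ 2 : ℝ) * μ ^ 2) ^ r := by
  have hr' : (1 : ℝ) ≤ r := by exact_mod_cast hr
  have hb : a ≤ (1 + r) * μ := by nlinarith
  have ha2 : a ^ 2 ≤ (1 + r) ^ 2 * μ ^ 2 := by
    have := pow_le_pow_left₀ ha hb 2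
    rwa [mul_pow] at this
  have hμ2 : 1 ≤ μ ^ 2 := one_le_pow₀ hμ
  have hjr : ∀ j : ℕ, j ≤ r → 0 ≤ (j : ℝ) * ((r : ℝ) - j) ∧ (j : ℝ) * ((r : ℝ) - j) ≤ (r : ℝ) ^ 2 := by
    intro j hj
    have h1 : (j : ℝ) ≤ r := by exact_mod_cast hj
    have h2 : (0 : ℝ) ≤ j := Nat.cast_nonneg j
    refine ⟨mul_nonneg h2 (by linarith), by nlinarith⟩
  have hM : (1 : ℝ) ≤ ((1 + r) ^ 2 + r ^ 2 : ℝ) * μ ^ 2 := by
    have : (1 : ℝ) ≤ ((1 + r) ^ 2 + r ^ 2 : ℝ) := by nlinarith
    nlinarith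
  have h := (cp_bound r (lam := a ^ 2 / 4 - (μ / 2) ^ 2) (m := (μ / 2) ^ 2) hM (fun j hj => ?_)
    (fun j hj => ?_) r le_rfl).1
  · unfold cD
    refine h.trans (le_of_eq ?_)
    ring
  · unfold cA
    have h1 := hjr j hj
    rw [abs_le]
    have h2 : (r : ℝ) ^ 2 ≤ (r : ℝ) ^ 2 * μ ^ 2 := by nlinarith [sq_nonneg (r : ℝ)]
    have h3 : 0 ≤ a ^ 2 := sq_nonneg a
    have h4 : μ ^ 2 ≤ (1 + r) ^ 2 * μ ^ 2 := by nlinarith
    constructor <;> nlinarith
  · unfold cE
    have h1 := hjr j hj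
    rw [mul_assoc, abs_of_nonneg (mul_nonneg (by positivity) h1.1)]
    have h2 : (μ / 2) ^ 2 * ((j : ℝ) * ((r : ℝ) - j)) ≤ μ ^ 2 * (r : ℝ) ^ 2 := by
      refine mul_le_mul ?_ h1.2 h1.1 (by positivity)
      nlinarith [sq_nonneg μ]
    nlinarith [sq_nonneg ((1 + (r : ℝ)) * μ)]

end Pool.Agent.Helper96.Josephson
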