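import Mathlib
import Pool.Agent.Helper96.Josephson.Bounds

/-!
The variational argument.
-/

namespace Pool.Agent.Helper96.Josephson

open Real MeasureTheory intervalIntegral Set Filter Topology

/-- `lam` as a function of the parameters. -/
noncomputable def plam (p : ℝ × ℝ) : ℝ := p.1 ^ 2 / 4 - (p.2 / 2) ^ 2

/-- `m` as a function of the parameters. -/
noncomputable def pm (p : ℝ × ℝ) : ℝ := (p.2 / 2) ^ 2

lemma strict_fst (p : ℝ × ℝ) : HasStrictFDerivAt (fun p : ℝ × ℝ => p.1) (ContinuousLinearMap.fst ℝ ℝ ℝ) p :=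
  hasStrictFDerivAt_fst

lemma strict_snd (p : ℝ × ℝ) : HasStrictFDerivAt (fun p : ℝ × ℝ => p.2) (ContinuousLinearMap.snd ℝ ℝ ℝ) p :=
  hasStrictFDerivAt_snd

/-- derivative of `plam`. -/
noncomputable def dlam (p : ℝ × ℝ) : ℝ × ℝ →L[ℝ] ℝ := (p.1 / 2) • (ContinuousLinearMap.fst ℝ ℝ ℝ) - (p.2 / 2) • (ContinuousLinearMap.snd ℝ ℝ ℝ)

lemma strict_plam (p : ℝ × ℝ) : HasStrictFDerivAt plam (dlam p) p := by
  have h1 := ((strict_fst p).pow 2).mul_const (1 / 4)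
  have h2 := ((strict_snd p).pow 2).mul_const (1 / 4)
  have h3 := h1.sub h2
  have e : plam = fun p : ℝ × ℝ => p.1 ^ 2 * (1 / 4) - p.2 ^ 2 * (1 / 4) := by
    funext p
    unfold plam
    ring
  rw [e]
  refine h3.congr_fderiv ?_
  ext <;> simp [dlam] <;> ring

lemma strict_pm (p : ℝ × ℝ) : HasStrictFDerivAt pm ((p.2 / 2) • (ContinuousLinearMap.snd ℝ ℝ ℝ)) p := by
  have h2 := ((strict_snd p).pow 2).mul_const (1 / 4)
  have e : pm = fun p : ℝ × ℝ => p.2 ^ 2 * (1 / 4) := by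
    funext p
    unfold pm
    ring
  rw [e]
  refine h2.congr_fderiv ?_
  ext <;> simp <;> ring

lemma strict_cp (r : ℕ) (p : ℝ × ℝ) (hp : p.2 ≠ 0) (n : ℕ) :
    HasStrictFDerivAt (fun p => cp r (plam p) (pm p) n)
        (cdl r (plam p) (pm p) n • dlam p + (cdm r (plam p) (pm p) n * (2 / p.2)) • (ContinuousLinearMap.snd ℝ ℝ ℝ)) p
    ∧ HasStrictFDerivAt (fun p => cp r (plam p) (pm p) (n + 1))
        (cdl r (plam p) (pm p) (n + 1) • dlam p
          + (cdm r (plam p) (pm p) (n + 1) * (2 / p.2)) • (ContinuousLinearMap.snd ℝ ℝ ℝ)) p := by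
  induction n with
  | zero =>
    constructor
    · simp only [cp, cdl, cdm]
      refine (hasStrictFDerivAt_const (0 : ℝ) p).congr_fderiv ?_
      ext <;> simp
    · simp only [cp, cdl, cdm]
      refine (hasStrictFDerivAt_const (1 : ℝ) p).congr_fderiv ?_
      ext <;> simp
  | succ n ih =>
    obtain ⟨h1, h2⟩ := ih
    refine ⟨h2, ?_⟩
    have hA : HasStrictFDerivAt (fun p => cA r (plam p) n) (dlam p) p := by
      unfold cA
      exact (strict_plam p).sub_const _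
    have hE : HasStrictFDerivAt (fun p => cE r (pm p) n)
        (((n : ℝ) * ((r : ℝ) - n)) • ((p.2 / 2) • (ContinuousLinearMap.snd ℝ ℝ ℝ))) p := by
      have := (strict_pm p).mul_const ((n : ℝ) * ((r : ℝ) - n))
      unfold cE
      simp only [mul_assoc] at this ⊢
      exact this
    have h3 := (hA.mul h2).sub (hE.mul h1)
    have e : (fun p => cp r (plam p) (pm p) (n + 1 + 1)) = fun p => cA r (plam p) n
        * cp r (plam p) (pm p) (n + 1) - cE r (pm p) n * cp r (plam p) (pm p) n := by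
      funext p
      rw [cp]
    rw [e]
    refine h3.congr_fderiv ?_
    rw [cdl, cdm]
    have hm : cE r (pm p) n * (2 / p.2) = (n : ℝ) * ((r : ℝ) - n) * (p.2 / 2) := by
      unfold cE pm
      field_simp
    ext
    · simp
      ring
    · simp
      linear_combination (cp r (plam p) (pm p) n) * hm

/-- The determinant as a function of the parameters. -/
noncomputable def DD (r : ℕ) (p : ℝ × ℝ) : ℝ := cD r (plam p) (pm p)

lemma strict_DD (r : ℕ) (p : ℝ × ℝ) (hp : p.2 ≠ 0) :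
    HasStrictFDerivAt (DD r)
      (cdl r (plam p) (pm p) (r + 1) • dlam p
          + (cdm r (plam p) (pm p) (r + 1) * (2 / p.2)) • (ContinuousLinearMap.snd ℝ ℝ ℝ)) p :=
  (strict_cp r p hp r).2

/-- The functional `Δ / μ^(2r+1)`. -/
noncomputable def GG (r : ℕ) (p : ℝ × ℝ) : ℝ := DD r p * (p.2 ^ (2 * r + 1))⁻¹

lemma strict_GG (r : ℕ) (p : ℝ × ℝ) (hp : p.2 ≠ 0) :
    HasStrictFDerivAt (GG r)
      ((p.2 ^ (2 * r + 1))⁻¹ • (cdl r (plam p) (pm p) (r + 1) • dlam p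
          + (cdm r (plam p) (pm p) (r + 1) * (2 / p.2)) • (ContinuousLinearMap.snd ℝ ℝ ℝ))
        - (DD r p * ((2 * r + 1) * (p.2 ^ (2 * r + 1))⁻¹ / p.2)) • (ContinuousLinearMap.snd ℝ ℝ ℝ)) p := by
  have h1 := strict_DD r p hp
  have h2 : HasStrictFDerivAt (fun p : ℝ × ℝ => (p.2 ^ (2 * r + 1))⁻¹)
      (-((2 * r + 1) * (p.2 ^ (2 * r + 1))⁻¹ / p.2) • (ContinuousLinearMap.snd ℝ ℝ ℝ)) p := by
    have hi : HasStrictDerivAt (fun x : ℝ => x⁻¹) (-((p.2 ^ (2 * r + 1)) ^ 2)⁻¹)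
        ((fun p : ℝ × ℝ => p.2 ^ (2 * r + 1)) p) := hasStrictDerivAt_inv (pow_ne_zero _ hp)
    have h3 := hi.comp_hasStrictFDerivAt (f := fun p : ℝ × ℝ => p.2 ^ (2 * r + 1)) p
      ((strict_snd p).pow (2 * r + 1))
    refine h3.congr_fderiv ?_
    have hp2 := pow_ne_zero (2 * r) hp
    ext <;> simp
    field_simp
    ring
  refine (h1.mul h2).congr_fderiv ?_
  ext <;> simp <;> ring

variable {r : ℕ} {σ : ℝ}

/-- The set of parameters carrying a symmetric orbit with displacement `π (r+1)` on `[0, π]`. -/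
def SS (r : ℕ) (σ : ℝ) : Set (ℝ × ℝ) :=
  {p | 0 ≤ p.1 ∧ 0 ≤ p.2 ∧ fl r (σ * π / 2) p π = σ * π / 2 + π * (r + 1)}

lemma sig_cos (hσ : σ = 1 ∨ σ = -1) : cos (σ * π / 2) = 0 := by
  rcases hσ with rfl | rfl
  · rw [one_mul, cos_pi_div_two]
  · rw [show (-1 : ℝ) * π / 2 = -(π / 2) by ring, cos_neg, cos_pi_div_two]

lemma SS_bounds (hr : 1 ≤ r) (hσ : σ = 1 ∨ σ = -1) {p : ℝ × ℝ} (hp : p ∈ SS r σ) :
    1 ≤ p.1 ∧ p.1 ≤ p.2 + r ∧ 1 ≤ p.2 := by
  obtain ⟨ha, hμ, hd⟩ := hp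
  have hsol := fl_sol r (σ * π / 2) p
  have h0 := fl_zero r (σ * π / 2) p
  have hr' : (1 : ℝ) ≤ r := by exact_mod_cast hr
  have hpi := pi_pos
  have h1 : 1 ≤ p.1 := one_le_a hsol ha (by rw [hd, h0]; ring)
  have h2 : p.1 ≤ p.2 + r := by
    refine a_le hsol hμ ?_ ?_
    · rw [h0]
      rcases hσ with rfl | rfl <;> linarith
    · rw [hd]
      rcases hσ with rfl | rfl <;> nlinarith
  have hc0 := sig_cos hσ
  have h3 : 8 * (r : ℝ) ≤ p.2 ^ 2 := by
    refine eight_r_le hsol (by linarith) (by rw [hd, h0]; ring) (by rw [h0]; exact hc0) ?_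
    rw [hd]
    have := Real.cos_add_int_mul_pi (σ * π / 2) ((r : ℤ) + 1)
    rw [hc0, mul_zero] at this
    rw [← this]
    congr 1
    push_cast
    ring
  refine ⟨h1, h2, ?_⟩
  by_contra hlt
  push Not at hlt
  nlinarith

lemma continuous_flT (r σ T : ℝ) : Continuous fun p : ℝ × ℝ => fl r (σ * π / 2) p T :=
  (continuous_fl r (σ * π / 2)).comp (by fun_prop : Continuous fun p : ℝ × ℝ => (p, T))

lemma isClosed_SS : IsClosed (SS r σ) := by
  have h1 : IsClosed {p : ℝ × ℝ | 0 ≤ p.1} := isClosed_le continuous_const continuous_fst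
  have h2 : IsClosed {p : ℝ × ℝ | 0 ≤ p.2} := isClosed_le continuous_const continuous_snd
  have h3 : IsClosed {p : ℝ × ℝ | fl r (σ * π / 2) p π = σ * π / 2 + π * (r + 1)} :=
    isClosed_eq (continuous_flT r σ π) continuous_const
  exact h1.inter (h2.inter h3)

/-- the derivative along the tangent vector does not vanish. -/
theorem no_crit (hr : 1 ≤ r) (hσ : σ = 1 ∨ σ = -1) {p : ℝ × ℝ} (hp : p ∈ SS r σ)
    (hext : IsLocalExtrOn (fun p => GG r p ^ 2)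
      {x | fl r (σ * π / 2) x π = fl r (σ * π / 2) p π} p) : False := by
  obtain ⟨ha1, haμ, hμ1⟩ := SS_bounds hr hσ hp
  obtain ⟨ha, hμ, hd⟩ := hp
  have hsol := fl_sol r (σ * π / 2) p
  have h0 := fl_zero r (σ * π / 2) p
  have hμ0 : p.2 ≠ 0 := by linarith
  set φ := fl r (σ * π / 2) p with hφ
  have hπ : φ π = σ * π / 2 + π * ((r : ℤ) + 1 : ℤ) := by rw [hd]; push_cast; ring
  have hc := hsol.continuous
  have hC := continuous_Ci hc
  set c0 := ∫ τ in (0 : ℝ)..π, exp (p.1 * Ci φ τ) with hc0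
  set c1 := ∫ τ in (0 : ℝ)..π, exp (p.1 * Ci φ τ) * cos τ with hc1
  set s2 := ∫ τ in (0 : ℝ)..π, exp (p.1 * Ci φ τ) * sin (φ τ) with hs2
  set d1 := ∫ τ in (0 : ℝ)..π, exp (p.1 * Ci φ τ) * sin (φ τ) * cos τ with hd1
  have hrel := real_identity hr hμ0 hσ hsol h0 hπ
  have hbal := balance hσ hsol h0 hπ
  have hne := cD_ne_zero (by linarith : p.1 ≠ 0) hμ0 hσ hsol h0 hπ
  rw [← hc0, ← hs2, ← hd1] at hbal
  rw [← hc1, ← hs2, ← hd1] at hrel
  -- positivity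
  have hc0pos : 0 < c0 := by
    rw [hc0]
    refine intervalIntegral.intervalIntegral_pos_of_pos
      (Continuous.intervalIntegrable (by fun_prop) _ _) (fun τ => exp_pos _) pi_pos
  have hs2le : |s2| ≤ c0 := by
    have h1 : |s2| ≤ ∫ τ in (0 : ℝ)..π, |exp (p.1 * Ci φ τ) * sin (φ τ)| :=
      intervalIntegral.abs_integral_le_integral_abs pi_pos.le
    refine h1.trans ?_
    refine intervalIntegral.integral_mono_on pi_pos.le
      (Continuous.intervalIntegrable (by fun_prop) _ _)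
      (Continuous.intervalIntegrable (by fun_prop) _ _) fun τ _ => ?_
    rw [abs_mul, abs_of_pos (exp_pos _)]
    exact mul_le_of_le_one_right (exp_pos _).le (abs_sin_le_one _)
  have hpos : 0 < 2 * p.1 * c0 + s2 := by
    have := neg_le_of_abs_le hs2le
    nlinarith
  -- derivative of the constraint
  have hconstr := hasStrict_fl r (σ * π / 2) π p
  have hEG : ∀ s, EG r (σ * π / 2) (p, p) s = exp (p.1 * Ci φ s) := by
    intro s
    unfold EG
    rw [← hφ, Gam_self]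
  have hMm : Mm r (σ * π / 2) π (p, p) = (exp (p.1 * Ci φ π))⁻¹ * c1 := by
    unfold Mm
    simp only [hEG]
    rfl
  have hMa : Ma r (σ * π / 2) π (p, p) = -((exp (p.1 * Ci φ π))⁻¹ * s2) := by
    unfold Ma
    simp only [hEG]
    rfl
  rw [hMm, hMa] at hconstr
  have hK := exp_pos (p.1 * Ci φ π)
  -- derivative of the functional
  have hG := strict_GG r p hμ0
  set GGd : ℝ × ℝ →L[ℝ] ℝ := ((p.2 ^ (2 * r + 1))⁻¹ • (cdl r (plam p) (pm p) (r + 1) • dlam p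
          + (cdm r (plam p) (pm p) (r + 1) * (2 / p.2)) • (ContinuousLinearMap.snd ℝ ℝ ℝ))
        - (DD r p * ((2 * r + 1) * (p.2 ^ (2 * r + 1))⁻¹ / p.2)) • (ContinuousLinearMap.snd ℝ ℝ ℝ)) with hGGd
  have hG2 : HasStrictFDerivAt (fun p => GG r p ^ 2) ((2 * GG r p) • GGd) p := by
    refine (hG.pow 2).congr_fderiv ?_
    simp
  have hP : 0 < p.2 ^ (2 * r + 1) := by positivity
  have hGp : GG r p ≠ 0 := mul_ne_zero hne (inv_ne_zero hP.ne')
  have hGv : GGd (c1, s2)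
      = -(DD r p * (p.2 ^ (2 * r + 1))⁻¹ / p.2 * (2 * p.1 * c0 + s2)) := by
    have hrel' : p.1 * (p.2 / 2) * cdl r (plam p) (pm p) (r + 1) * c1
        + 2 * (cdm r (plam p) (pm p) (r + 1) - (p.2 / 2) ^ 2 * cdl r (plam p) (pm p) (r + 1)) * s2
        + 4 * (p.2 / 2) * DD r p * d1 = 0 := hrel
    simp only [hGGd, dlam, sub_apply, smul_apply,
      add_apply, ContinuousLinearMap.coe_fst', ContinuousLinearMap.coe_snd',
      smul_eq_mul]
    field_simp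
    linear_combination 2 * hrel' + (4 * DD r p) * hbal
  obtain ⟨α, β, hαβ, hL⟩ := hext.exists_multipliers_of_hasStrictFDerivAt_1d hconstr hG2
  have hLv := congrArg (fun f : ℝ × ℝ →L[ℝ] ℝ => f (c1, s2)) hL
  simp only [add_apply, smul_apply, hGv,
    ContinuousLinearMap.coe_fst', ContinuousLinearMap.coe_snd', smul_eq_mul,
    zero_apply] at hLv
  have hβ : β = 0 := by
    by_contra hβ
    have h2 : β * (2 * GG r p * -(DD r p * (p.2 ^ (2 * r + 1))⁻¹ / p.2 * (2 * p.1 * c0 + s2))) = 0 := by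
      rw [← hLv]
      ring
    have h3 : DD r p ≠ 0 := hne
    have h4 := (mul_eq_zero.mp h2).resolve_left hβ
    have h5 := (mul_eq_zero.mp h4).resolve_left (mul_ne_zero two_ne_zero hGp)
    rw [neg_eq_zero] at h5
    have h6 := (mul_eq_zero.mp h5).resolve_right hpos.ne'
    rw [div_eq_zero_iff] at h6
    have h7 := h6.resolve_right hμ0
    exact (mul_eq_zero.mp h7).elim h3 (inv_ne_zero hP.ne')
  have hα : α ≠ 0 := by
    intro h
    apply hαβ
    rw [h, hβ]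
    rfl
  have hLa := congrArg (fun f : ℝ × ℝ →L[ℝ] ℝ => f (1, 0)) hL
  have hLm := congrArg (fun f : ℝ × ℝ →L[ℝ] ℝ => f (0, 1)) hL
  simp [hβ, hα, hK.ne'] at hLa hLm
  have hs20 : s2 = 0 := by simpa [hK.ne'] using hLa
  have hc10 : c1 = 0 := by simpa [hK.ne'] using hLm
  rw [hc10, hs20] at hGv
  have h8 : (0 : ℝ) = -(DD r p * (p.2 ^ (2 * r + 1))⁻¹ / p.2 * (2 * p.1 * c0 + 0)) := by
    rw [← hGv, show ((0 : ℝ), (0 : ℝ)) = (0 : ℝ × ℝ) from rfl, map_zero]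
  have h9 : 0 < 2 * p.1 * c0 + 0 := by rw [hs20] at hpos; exact hpos
  have h10 : DD r p * (p.2 ^ (2 * r + 1))⁻¹ / p.2 ≠ 0 :=
    div_ne_zero (mul_ne_zero hne (inv_ne_zero hP.ne')) hμ0
  exact (mul_ne_zero h10 h9.ne') (by linarith)

lemma GG_ne (hr : 1 ≤ r) (hσ : σ = 1 ∨ σ = -1) {p : ℝ × ℝ} (hp : p ∈ SS r σ) : GG r p ≠ 0 := by
  obtain ⟨ha1, haμ, hμ1⟩ := SS_bounds hr hσ hp
  obtain ⟨ha, hμ, hd⟩ := hp
  have hsol := fl_sol r (σ * π / 2) p
  have h0 := fl_zero r (σ * π / 2) p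
  have hne : DD r p ≠ 0 := cD_ne_zero (by linarith : p.1 ≠ 0) (by linarith : p.2 ≠ 0) hσ hsol h0
    (by rw [hd]; push_cast; ring)
  exact mul_ne_zero hne (inv_ne_zero (pow_ne_zero _ (by linarith)))

lemma GG_bound (hr : 1 ≤ r) (hσ : σ = 1 ∨ σ = -1) {p : ℝ × ℝ} (hp : p ∈ SS r σ) :
    GG r p ^ 2 ≤ (2 * ((1 + r) ^ 2 + r ^ 2 : ℝ)) ^ (2 * r) / p.2 := by
  obtain ⟨ha1, haμ, hμ1⟩ := SS_bounds hr hσ hp
  have hb : |DD r p| ≤ (2 * ((1 + r) ^ 2 + r ^ 2 : ℝ) * p.2 ^ 2) ^ r :=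
    cD_bound r hr hp.1 haμ hμ1
  have hpos : 0 < p.2 := by linarith
  have h1 : DD r p ^ 2 ≤ ((2 * ((1 + r) ^ 2 + r ^ 2 : ℝ) * p.2 ^ 2) ^ r) ^ 2 := by
    rw [← sq_abs]
    exact pow_le_pow_left₀ (abs_nonneg _) hb 2
  unfold GG
  rw [mul_pow, inv_pow, ← div_eq_mul_inv, div_le_div_iff₀ (by positivity) hpos]
  have h2 : DD r p ^ 2 * p.2 ≤ ((2 * ((1 + r) ^ 2 + r ^ 2 : ℝ) * p.2 ^ 2) ^ r) ^ 2 * p.2 :=
    mul_le_mul_of_nonneg_right h1 hpos.le
  refine h2.trans ?_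
  have h3 : ((2 * ((1 + r) ^ 2 + r ^ 2 : ℝ) * p.2 ^ 2) ^ r) ^ 2
      = (2 * ((1 + r) ^ 2 + r ^ 2 : ℝ)) ^ (2 * r) * p.2 ^ (4 * r) := by
    rw [← pow_mul, mul_pow, ← pow_mul]
    congr 1 <;> congr 1 <;> ring
  rw [h3, mul_assoc]
  refine mul_le_mul_of_nonneg_left ?_ (by positivity)
  rw [← pow_succ, ← pow_mul]
  exact pow_le_pow_right₀ hμ1 (by omega)

theorem SS_empty (hr : 1 ≤ r) (hσ : σ = 1 ∨ σ = -1) : SS r σ = ∅ := by
  by_contra hne
  obtain ⟨p0, hp0⟩ := Set.nonempty_iff_ne_empty.mpr hne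
  have hg0 : 0 < GG r p0 ^ 2 := by
    have := GG_ne hr hσ hp0
    positivity
  set B : ℝ := (2 * ((1 + r) ^ 2 + r ^ 2 : ℝ)) ^ (2 * r) with hB
  have hBpos : 0 < B := by positivity
  set M : ℝ := max (B / GG r p0 ^ 2) p0.2 with hM
  have hM1 : B / GG r p0 ^ 2 ≤ M := le_max_left _ _
  have hM2 : p0.2 ≤ M := le_max_right _ _
  have hMpos : 0 < M := lt_of_lt_of_le (div_pos hBpos hg0) hM1
  have hcomp : IsCompact (SS r σ ∩ {p | p.2 ≤ M}) := by
    refine (isCompact_Icc (a := ((0 : ℝ), (0 : ℝ))) (b := (M + r, M))).of_isClosed_subset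
      (isClosed_SS.inter (isClosed_le continuous_snd continuous_const)) ?_
    intro p hp
    obtain ⟨ha1, haμ, hμ1⟩ := SS_bounds hr hσ hp.1
    have hp2 : p.2 ≤ M := hp.2
    exact ⟨⟨hp.1.1, hp.1.2.1⟩, ⟨by simp only; linarith, hp2⟩⟩
  have hcont : ContinuousOn (fun p => GG r p ^ 2) (SS r σ ∩ {p | p.2 ≤ M}) := by
    intro p hp
    obtain ⟨ha1, haμ, hμ1⟩ := SS_bounds hr hσ hp.1
    exact ((strict_GG r p (by linarith)).continuousAt.pow 2).continuousWithinAt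
  obtain ⟨p, hp, hmax⟩ := hcomp.exists_isMaxOn ⟨p0, hp0, hM2⟩ hcont
  have hp0le : GG r p0 ^ 2 ≤ GG r p ^ 2 := hmax ⟨hp0, hM2⟩
  have hall : ∀ q ∈ SS r σ, GG r q ^ 2 ≤ GG r p ^ 2 := by
    intro q hq
    rcases le_or_gt q.2 M with h | h
    · exact hmax ⟨hq, h⟩
    · refine le_trans ?_ hp0le
      refine (GG_bound hr hσ hq).trans ?_
      have h1 : B / q.2 ≤ B / M := div_le_div_of_nonneg_left hBpos.le hMpos h.le
      refine h1.trans ?_
      rw [div_le_iff₀ hMpos]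
      rw [div_le_iff₀ hg0] at hM1
      linarith
  refine no_crit hr hσ hp.1 (Or.inr ?_)
  obtain ⟨ha1, haμ, hμ1⟩ := SS_bounds hr hσ hp.1
  have h1 : ∀ᶠ q : ℝ × ℝ in 𝓝 p, 0 < q.1 :=
    (continuous_fst.continuousAt).eventually_const_lt (by linarith)
  have h2 : ∀ᶠ q : ℝ × ℝ in 𝓝 p, 0 < q.2 :=
    (continuous_snd.continuousAt).eventually_const_lt (by linarith)
  have h3 : ∀ᶠ q : ℝ × ℝ in 𝓝[{x | fl r (σ * π / 2) x π = fl r (σ * π / 2) p π}] p,
      q ∈ {x | fl r (σ * π / 2) x π = fl r (σ * π / 2) p π} := eventually_mem_nhdsWithin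
  filter_upwards [h3, mem_nhdsWithin_of_mem_nhds h1, mem_nhdsWithin_of_mem_nhds h2]
    with q hq1 hq2 hq3
  refine hall q ⟨hq2.le, hq3.le, ?_⟩
  have : fl r (σ * π / 2) q π = fl r (σ * π / 2) p π := hq1
  rw [this]
  exact hp.1.2.2

end Pool.Agent.Helper96.Josephson
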