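import Mathlib
import Pool.Agent.Helper96.Josephson.Max

/-!
From arbitrary orbits to symmetric orbits.
-/

namespace Pool.Agent.Helper96.Josephson

open Real MeasureTheory intervalIntegral Set Filter Topology

/-- The symmetric solutions never reach the required displacement. -/
theorem sym_lt {r : ℕ} {σ a μ : ℝ} (hr : 1 ≤ r) (hσ : σ = 1 ∨ σ = -1) (ha : 0 ≤ a) (hμ : 0 ≤ μ) :
    fl r (σ * π / 2) (a, μ) π < σ * π / 2 + π * (r + 1) := by
  by_contra hcon
  push Not at hcon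
  have hcont : ContinuousOn (fun b : ℝ => fl r (σ * π / 2) (b, μ) π) (Icc 0 a) :=
    ((continuous_flT r σ π).comp (by fun_prop : Continuous fun b : ℝ => (b, μ))).continuousOn
  have h0 : fl r (σ * π / 2) (0, μ) π ≤ σ * π / 2 + π * (r + 1) := by
    have h1 := displacement (fl_sol r (σ * π / 2) (0, μ))
    rw [fl_zero] at h1
    simp only [zero_mul, sub_zero] at h1
    have := pi_pos
    linarith
  obtain ⟨b, hb, hbe⟩ := intermediate_value_Icc ha hcont ⟨h0, hcon⟩
  have hmem : (b, μ) ∈ SS r σ := ⟨hb.1, hμ, hbe⟩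
  rw [SS_empty hr hσ] at hmem
  exact hmem

variable {r a μ : ℝ} {φ φ1 φ2 : ℝ → ℝ}

/-- the constant of two solutions. -/
lemma wronsk (h1 : Sol r a μ φ1) (h2 : Sol r a μ φ2) (τ τ' : ℝ) :
    exp (a / 2 * Ci φ1 τ) * exp (a / 2 * Ci φ2 τ) * sin ((φ1 τ - φ2 τ) / 2)
      = exp (a / 2 * Ci φ1 τ') * exp (a / 2 * Ci φ2 τ') * sin ((φ1 τ' - φ2 τ') / 2) := by
  have hd : ∀ τ, HasDerivAt (fun τ => exp (a / 2 * Ci φ1 τ) * exp (a / 2 * Ci φ2 τ)
      * sin ((φ1 τ - φ2 τ) / 2)) 0 τ := by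
    intro τ
    have e1 := ((hasDerivAt_Ci h1.continuous τ).const_mul (a / 2)).exp
    have e2 := ((hasDerivAt_Ci h2.continuous τ).const_mul (a / 2)).exp
    have e3 := (((h1 τ).sub (h2 τ)).div_const 2).sin
    refine ((e1.mul e2).mul e3).congr_deriv ?_
    simp only [Pi.sub_apply, Pi.mul_apply]
    set m := (φ1 τ + φ2 τ) / 2 with hm
    set d := (φ1 τ - φ2 τ) / 2 with hd
    have p1 : φ1 τ = m + d := by rw [hm, hd]; ring
    have p2 : φ2 τ = m - d := by rw [hm, hd]; ring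
    rw [p1, p2, cos_add, cos_sub, sin_add, sin_sub]
    ring
  exact is_const_of_deriv_eq_zero (f := fun τ => exp (a / 2 * Ci φ1 τ) * exp (a / 2 * Ci φ2 τ)
      * sin ((φ1 τ - φ2 τ) / 2)) (fun x => (hd x).differentiableAt) (fun x => (hd x).deriv) τ τ'

lemma Ci_reflect (φ : ℝ → ℝ) (τ : ℝ) : Ci φ (-τ) = Ci (fun τ => π - φ (-τ)) τ := by
  unfold Ci
  have h := intervalIntegral.integral_comp_neg (a := 0) (b := τ) (fun s => cos (φ s))
  rw [neg_zero] at h
  rw [intervalIntegral.integral_symm, ← h, ← intervalIntegral.integral_neg]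
  refine intervalIntegral.integral_congr fun s _ => ?_
  simp only [cos_pi_sub]

lemma sin_lt_aux {u v : ℝ} (hu : 0 ≤ u) (huv : u < v) (hs : u + v < π) : sin u < sin v := by
  have h := Real.sin_sub_sin v u
  have h1 : 0 < sin ((v - u) / 2) := sin_pos_of_pos_of_lt_pi (by linarith) (by linarith)
  have h2 : 0 < cos ((v + u) / 2) := cos_pos_of_mem_Ioo ⟨by linarith, by linarith⟩
  nlinarith [mul_pos h1 h2]

/-- reduction to symmetric orbits. -/
lemma orbit_core {φ φp φm : ℝ → ℝ} (h : Sol r a μ φ) (hp : Sol r a μ φp) (hm : Sol r a μ φm)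
    (h0 : -(π / 2) ≤ φ 0) (h0' : φ 0 ≤ π / 2) (hp0 : φp 0 = π / 2) (hm0 : φm 0 = -(π / 2))
    (hpπ : φp π < π / 2 + π * (r + 1)) (hmπ : φm π < -(π / 2) + π * (r + 1)) :
    φ π < φ (-π) + 2 * π * (r + 1) := by
  by_contra hcon
  push Not at hcon
  have hpi := pi_pos
  set R : ℝ → ℝ := fun τ => π - φ (-τ) with hR
  have hRs : Sol r a μ R := h.reflect
  have hps := sym_eq (σ := 1) (Or.inl rfl) hp (by rw [hp0]; ring)
  have hms := sym_eq (σ := -1) (Or.inr rfl) hm (by rw [hm0]; ring)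
  have hm2 : Sol r a μ (fun τ => φm τ + 2 * π * (1 : ℤ)) := hm.add_int 1
  -- orders
  have o1 : φm π ≤ φ π := hm.le h (τ0 := 0) (by rw [hm0]; exact h0) π
  have o2 : φ π ≤ φp π := h.le hp (τ0 := 0) (by rw [hp0]; exact h0') π
  have o3 : φp π ≤ R π := hp.le hRs (τ0 := 0) (by simp only [hR, neg_zero]; rw [hp0]; linarith) π
  have o4 : R π ≤ φm π + 2 * π * (1 : ℤ) := hRs.le hm2 (τ0 := 0) (by
    simp only [hR, neg_zero]; rw [hm0]; push_cast; linarith) π
  push_cast at o4
  have hRπ : R π = π - φ (-π) := rfl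
  -- wronskians
  have w1 := wronsk h hp π (-π)
  have w2 := wronsk h hm π (-π)
  rw [Ci_reflect φ, ← hR, Ci_even (σ := 1) (Or.inl rfl) hps, hps] at w1
  rw [Ci_reflect φ, ← hR, Ci_even (σ := -1) (Or.inr rfl) hms, hms] at w2
  set kφ := exp (a / 2 * Ci φ π) with hkφ
  set kR := exp (a / 2 * Ci R π) with hkR
  have hkφpos : 0 < kφ := exp_pos _
  have hkRpos : 0 < kR := exp_pos _
  have hkp : 0 < exp (a / 2 * Ci φp π) := exp_pos _
  have hkm : 0 < exp (a / 2 * Ci φm π) := exp_pos _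
  set u := (φp π - φ π) / 2 with hu
  set v := (R π - φp π) / 2 with hv
  set y := (φ π - φm π) / 2 with hy
  set z := (φm π + 2 * π - R π) / 2 with hz
  have e1 : (φ π - φp π) / 2 = -u := by rw [hu]; ring
  have e2 : (φ (-π) - (1 * π - φp π)) / 2 = -v := by rw [hv, hRπ]; ring
  have e3 : (φ (-π) - (-1 * π - φm π)) / 2 = z := by rw [hz, hRπ]; ring
  rw [e1, e2, sin_neg, sin_neg] at w1
  rw [e3] at w2
  have i1 : kφ * sin u = kR * sin v := by
    have : exp (a / 2 * Ci φp π) * (kφ * sin u - kR * sin v) = 0 := by linear_combination -w1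
    have := (mul_eq_zero.mp this).resolve_left hkp.ne'
    linarith
  have i2 : kφ * sin y = kR * sin z := by
    have : exp (a / 2 * Ci φm π) * (kφ * sin y - kR * sin z) = 0 := by linear_combination w2
    have := (mul_eq_zero.mp this).resolve_left hkm.ne'
    linarith
  have hu0 : 0 ≤ u := by rw [hu]; linarith
  have hv0 : 0 ≤ v := by rw [hv]; linarith
  have hy0 : 0 ≤ y := by rw [hy]; linarith
  have hz0 : 0 ≤ z := by rw [hz]; linarith
  have hsum : u + v + y + z = π := by rw [hu, hv, hy, hz]; ring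
  have huv : u < v := by
    rw [hu, hv, hRπ]
    linarith
  have hzy : z < y := by
    rw [hz, hy, hRπ]
    linarith
  have s1 : sin u < sin v := sin_lt_aux hu0 huv (by linarith)
  have s2 : sin z < sin y := sin_lt_aux hz0 hzy (by linarith)
  have s3 : 0 ≤ sin u := sin_nonneg_of_nonneg_of_le_pi hu0 (by linarith)
  have s4 : 0 ≤ sin z := sin_nonneg_of_nonneg_of_le_pi hz0 (by linarith)
  have k1 : kR * sin u < kφ * sin u := by
    rw [i1]; exact mul_lt_mul_of_pos_left s1 hkRpos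
  have k2 : kφ * sin z < kR * sin z := by
    rw [← i2]; exact mul_lt_mul_of_pos_left s2 hkφpos
  have k3 : kR < kφ := lt_of_mul_lt_mul_right k1 s3
  have k4 : kφ < kR := lt_of_mul_lt_mul_right k2 s4
  linarith

/-- No solution gains `2π(r+1)` or more over the period `[-π, π]`. -/
theorem orbit_lt {r : ℕ} {a μ : ℝ} (hr : 1 ≤ r) (ha : 0 ≤ a) (hμ : 0 ≤ μ) {φ : ℝ → ℝ}
    (h : Sol r a μ φ) : φ π < φ (-π) + 2 * π * (r + 1) := by
  have hpi := pi_pos
  set φp := fl r (1 * π / 2) (a, μ) with hφp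
  set φm := fl r (-1 * π / 2) (a, μ) with hφm
  have hp : Sol r a μ φp := fl_sol r (1 * π / 2) (a, μ)
  have hm : Sol r a μ φm := fl_sol r (-1 * π / 2) (a, μ)
  have hp0 : φp 0 = π / 2 := by rw [hφp, fl_zero]; ring
  have hm0 : φm 0 = -(π / 2) := by rw [hφm, fl_zero]; ring
  have hpπ : φp π < π / 2 + π * (r + 1) := by
    have := sym_lt (σ := 1) hr (Or.inl rfl) ha hμ
    rw [one_mul] at this
    simpa [hφp] using this
  have hmπ : φm π < -(π / 2) + π * (r + 1) := by
    have := sym_lt (σ := -1) hr (Or.inr rfl) ha hμ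
    rw [← hφm] at this
    linarith
  -- normalise the value at zero
  set n : ℤ := ⌊(φ 0 + π / 2) / (2 * π)⌋ with hn
  have hn1 : (n : ℝ) ≤ (φ 0 + π / 2) / (2 * π) := Int.floor_le _
  have hn2 : (φ 0 + π / 2) / (2 * π) < n + 1 := Int.lt_floor_add_one _
  rw [le_div_iff₀ (by positivity)] at hn1
  rw [div_lt_iff₀ (by positivity)] at hn2
  set ψ : ℝ → ℝ := fun τ => φ τ + 2 * π * ((-n : ℤ) : ℝ) with hψ
  have hψs : Sol r a μ ψ := h.add_int (-n)
  have hψ0 : ψ 0 = φ 0 - 2 * π * n := by simp only [hψ]; push_cast; ring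
  have hψπ : ψ π = φ π - 2 * π * n := by simp only [hψ]; push_cast; ring
  have hψm : ψ (-π) = φ (-π) - 2 * π * n := by simp only [hψ]; push_cast; ring
  rcases le_or_gt (ψ 0) (π / 2) with hle | hgt
  · have := orbit_core hψs hp hm (by rw [hψ0]; linarith) hle hp0 hm0 hpπ hmπ
    rw [hψπ, hψm] at this
    linarith
  · have := orbit_core hψs.reflect hp hm (by simp only [neg_zero]; rw [hψ0]; linarith)
      (by simp only [neg_zero]; linarith) hp0 hm0 hpπ hmπ
    simp only [neg_neg] at this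
    rw [hψπ, hψm] at this
    linarith

end Pool.Agent.Helper96.Josephson
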