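import Mathlib
import Pool.Agent.Helper96.Josephson.Orbit

/-!
Rotation numbers.
-/

namespace Pool.Agent.Helper96.Josephson

open Real Set Filter Topology

variable {r a μ : ℝ} {φ : ℝ → ℝ}

lemma Sol.shift_neg_pi (h : Sol r a μ φ) : Sol r a (-μ) (fun τ => φ (τ - π)) := by
  intro τ
  have h1 := (h (τ - π)).comp_sub_const τ π
  refine h1.congr_deriv ?_
  rw [Real.cos_sub_pi]
  ring

lemma continuous_flow_init (r a μ T : ℝ) : Continuous fun x => flow r a μ x T :=
  (continuous_flow r).comp (by fun_prop : Continuous fun x : ℝ => ((a, μ, x), T))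

/-- The time `2π` map, rescaled. -/
noncomputable def circ (r a μ : ℝ) : CircleDeg1Lift where
  toFun x := flow r a μ (2 * π * x) (2 * π) / (2 * π)
  monotone' := by
    intro x y hxy
    have h : flow r a μ (2 * π * x) (2 * π) ≤ flow r a μ (2 * π * y) (2 * π) := by
      refine flow_sol.le flow_sol (τ0 := 0) ?_ (2 * π)
      rw [flow_zero, flow_zero]
      have := pi_pos
      nlinarith
    have := pi_pos
    exact div_le_div_of_nonneg_right h (by positivity)
  map_add_one' := by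
    intro x
    have h1 : Sol r a μ (fun τ => flow r a μ (2 * π * x) τ + 2 * π * (1 : ℤ)) := flow_sol.add_int 1
    have h2 := flow_unique h1 (x0 := 2 * π * (x + 1)) (by simp only [flow_zero]; push_cast; ring)
    rw [← h2]
    have := pi_pos
    push_cast
    field_simp

lemma circ_apply (x : ℝ) : circ r a μ x = flow r a μ (2 * π * x) (2 * π) / (2 * π) := rfl

lemma continuous_circ (r a μ : ℝ) : Continuous (circ r a μ) := by
  have h : Continuous fun x : ℝ => flow r a μ (2 * π * x) (2 * π) / (2 * π) :=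
    ((continuous_flow_init r a μ (2 * π)).comp (by fun_prop)).div_const _
  exact h

lemma circ_sol (h : Sol r a μ φ) : φ (2 * π) / (2 * π) = circ r a μ (φ 0 / (2 * π)) := by
  have hpi := pi_pos
  have e : 2 * π * (φ 0 / (2 * π)) = φ 0 := by field_simp
  have h1 := congrFun (flow_unique h (x0 := φ 0) rfl) (2 * π)
  rw [circ_apply, e, ← h1]

lemma circ_iter (h : Sol r a μ φ) (n : ℕ) :
    φ (2 * π * n) / (2 * π) = (circ r a μ ^ n) (φ 0 / (2 * π)) := by
  induction n with
  | zero => simp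
  | succ n ih =>
    rw [pow_succ', CircleDeg1Lift.mul_apply, ← ih]
    have h1 := circ_sol (h.shift n)
    simp only [zero_add] at h1
    push_cast at h1 ⊢
    rw [← h1]
    congr 2
    ring

lemma Sol.lip (h : Sol r a μ φ) (x y : ℝ) : |φ x - φ y| ≤ (|r| + |μ| + |a|) * |x - y| := by
  have hb : ∀ t ∈ (univ : Set ℝ), ‖r + μ * cos t - a * sin (φ t)‖ ≤ |r| + |μ| + |a| := by
    intro t _
    have h1 : |μ * cos t| ≤ |μ| := by
      rw [abs_mul]; exact mul_le_of_le_one_right (abs_nonneg _) (abs_cos_le_one t)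
    have h2 : |a * sin (φ t)| ≤ |a| := by
      rw [abs_mul]; exact mul_le_of_le_one_right (abs_nonneg _) (abs_sin_le_one _)
    rw [norm_eq_abs]
    calc |r + μ * cos t - a * sin (φ t)| ≤ |r + μ * cos t| + |a * sin (φ t)| := abs_sub _ _
      _ ≤ |r| + |μ * cos t| + |a * sin (φ t)| := by gcongr; exact abs_add_le _ _
      _ ≤ _ := by gcongr
  have := Convex.norm_image_sub_le_of_norm_hasDerivWithin_le (f := φ) (s := univ)
    (fun t _ => (h t).hasDerivWithinAt) hb convex_univ (mem_univ y) (mem_univ x)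
  simpa [norm_eq_abs] using this

/-- `ρ` is the rotation number, in the strong form of bounded deviation. -/
def HasRot (r a μ ρ : ℝ) : Prop :=
  ∀ φ, Sol r a μ φ → ∃ B : ℝ, ∀ τ, 0 ≤ τ → |φ τ - ρ * τ| ≤ B

lemma hasRot_circ (r a μ : ℝ) : HasRot r a μ (circ r a μ).translationNumber := by
  intro φ h
  set ρ := (circ r a μ).translationNumber with hρ
  have hpi := pi_pos
  refine ⟨(|r| + |μ| + |a|) * (2 * π) + 2 * π + |φ 0| + |ρ| * (2 * π), fun τ hτ => ?_⟩
  set n : ℕ := ⌊τ / (2 * π)⌋₊ with hn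
  have h1 : (n : ℝ) ≤ τ / (2 * π) := Nat.floor_le (by positivity)
  have h2 : τ / (2 * π) < n + 1 := Nat.lt_floor_add_one _
  rw [le_div_iff₀ (by positivity)] at h1
  rw [div_lt_iff₀ (by positivity)] at h2
  have hd : |τ - 2 * π * n| ≤ 2 * π := by
    rw [abs_of_nonneg (by linarith)]
    linarith
  have e1 : |φ τ - φ (2 * π * n)| ≤ (|r| + |μ| + |a|) * (2 * π) :=
    (h.lip τ (2 * π * n)).trans (mul_le_mul_of_nonneg_left hd (by positivity))
  have hit := circ_iter h n
  set g := circ r a μ ^ n with hg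
  have hgτ : g.translationNumber = n * ρ := by rw [hg, CircleDeg1Lift.translationNumber_pow]
  have f1 := g.floor_sub_le_translationNumber (φ 0 / (2 * π))
  have f2 := g.translationNumber_le_ceil_sub (φ 0 / (2 * π))
  rw [hgτ, ← hit] at f1 f2
  have f3 := Int.lt_floor_add_one (φ (2 * π * n) / (2 * π) - φ 0 / (2 * π))
  have f4 := Int.ceil_lt_add_one (φ (2 * π * n) / (2 * π) - φ 0 / (2 * π))
  have e2 : |φ (2 * π * n) / (2 * π) - φ 0 / (2 * π) - n * ρ| ≤ 1 := by
    rw [abs_le]
    constructor <;> linarith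
  have e3 : |φ (2 * π * n) - φ 0 - 2 * π * n * ρ| ≤ 2 * π := by
    have : φ (2 * π * n) - φ 0 - 2 * π * n * ρ
        = 2 * π * (φ (2 * π * n) / (2 * π) - φ 0 / (2 * π) - n * ρ) := by
      field_simp
    rw [this, abs_mul, abs_of_pos (by positivity : 0 < 2 * π)]
    nlinarith
  have e4 : |ρ * (2 * π * n - τ)| ≤ |ρ| * (2 * π) := by
    rw [abs_mul]
    refine mul_le_mul_of_nonneg_left ?_ (abs_nonneg _)
    rw [abs_sub_comm]
    exact hd
  have e5 : φ τ - ρ * τ = (φ τ - φ (2 * π * n)) + (φ (2 * π * n) - φ 0 - 2 * π * n * ρ) + φ 0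
      + ρ * (2 * π * n - τ) := by ring
  rw [e5]
  calc _ ≤ |(φ τ - φ (2 * π * n)) + (φ (2 * π * n) - φ 0 - 2 * π * n * ρ) + φ 0|
        + |ρ * (2 * π * n - τ)| := abs_add_le _ _
    _ ≤ |(φ τ - φ (2 * π * n)) + (φ (2 * π * n) - φ 0 - 2 * π * n * ρ)| + |φ 0|
        + |ρ * (2 * π * n - τ)| := by gcongr; exact abs_add_le _ _
    _ ≤ |φ τ - φ (2 * π * n)| + |φ (2 * π * n) - φ 0 - 2 * π * n * ρ| + |φ 0|
        + |ρ * (2 * π * n - τ)| := by gcongr; exact abs_add_le _ _
    _ ≤ _ := by gcongr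

lemma HasRot.of_neg {ρ : ℝ} (h : HasRot r a (-μ) ρ) : HasRot r a μ ρ := by
  intro φ hφ
  obtain ⟨B, hB⟩ := h _ hφ.shift_neg_pi
  refine ⟨B + |ρ * π|, fun τ hτ => ?_⟩
  have h1 := hB (τ + π) (by have := pi_pos; linarith)
  simp only [add_sub_cancel_right] at h1
  have : φ τ - ρ * τ = (φ τ - ρ * (τ + π)) + ρ * π := by ring
  rw [this]
  exact (abs_add_le _ _).trans (add_le_add h1 le_rfl)

lemma HasRot.tendsto {ρ : ℝ} (h : HasRot r a μ ρ) (hφ : Sol r a μ φ) :
    Tendsto (fun τ => φ τ / τ) atTop (𝓝 ρ) := by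
  obtain ⟨B, hB⟩ := h φ hφ
  have h1 : Tendsto (fun τ => φ τ / τ - ρ) atTop (𝓝 0) := by
    refine squeeze_zero_norm' (a := fun τ => |B| / τ) ?_ ?_
    · filter_upwards [eventually_gt_atTop (0 : ℝ)] with τ hτ
      have e : φ τ / τ - ρ = (φ τ - ρ * τ) / τ := by
        field_simp
      rw [e, norm_div, norm_eq_abs, norm_eq_abs, abs_of_pos hτ]
      exact div_le_div_of_nonneg_right ((hB τ hτ.le).trans (le_abs_self B)) hτ.le
    · exact tendsto_const_nhds.div_atTop tendsto_id
  have h2 := h1.add_const ρ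
  simpa using h2

/-- The rotation number of the equation with integer mean `r ≥ 1` is less than `r + 1`. -/
theorem exists_rot_lt {r : ℕ} (hr : 1 ≤ r) {a : ℝ} (ha : 0 ≤ a) (μ : ℝ) :
    ∃ ρ : ℝ, ρ < r + 1 ∧ HasRot r a μ ρ := by
  have key : ∀ μ : ℝ, μ ≤ 0 → (circ r a μ).translationNumber < r + 1 := by
    intro μ hμ
    refine CircleDeg1Lift.translationNumber_lt_of_forall_lt_add _ (continuous_circ _ _ _) fun x => ?_
    have hs : Sol r a μ (flow r a μ (2 * π * x)) := flow_sol
    have h1 := orbit_lt hr ha (by linarith : 0 ≤ -μ) hs.shift_pi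
    simp only [neg_add_cancel] at h1
    rw [flow_zero] at h1
    rw [circ_apply]
    have hpi := pi_pos
    rw [div_lt_iff₀ (by positivity)]
    rw [show (2 : ℝ) * π = π + π by ring]
    rw [show (2 : ℝ) * π = π + π by ring] at h1
    linarith
  rcases le_total μ 0 with h | h
  · exact ⟨_, key μ h, hasRot_circ _ _ _⟩
  · exact ⟨_, key (-μ) (by linarith), (hasRot_circ r a (-μ)).of_neg⟩

end Pool.Agent.Helper96.Josephson
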